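import Pool.Agent.H974R4.W2.Defs

/-! W2, task SM1 (helper269): comparison of the block sums over two scales, first part. -/

namespace H974

open H12S Finset

theorem SM1_BPv_mono {I J : Set Vtx} {b b' : Finset Edg} {F : Set Edg} (h : b ⊆ b')
    (hb : BPv I J b F) : BPv I J b' F := by
  have hc : (↑b : Set Edg) ⊆ ↑b' := by exact_mod_cast h
  obtain ⟨⟨u, hu, v, hv, h1⟩, h2⟩ := hb
  refine ⟨⟨u, hu, v, hv, h1.mono (Set.union_subset_union_right F hc)⟩, ?_⟩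
  rintro ⟨u', hu', v', hv', h3⟩
  exact h2 ⟨u', hu', v', hv', h3.mono (Set.sdiff_subset_sdiff_right hc)⟩

theorem PB_nonneg {q : ℝ} (h0 : 0 ≤ q) (h1 : q ≤ 1) (s t : ℕ) (p : ℤ × ℤ) (ρ : ℕ) :
    0 ≤ PB q s t p ρ := by
  unfold PB
  exact Pr_nonneg (okq h0 h1) _ _

theorem SM1_PB_le_one {q : ℝ} (h0 : 0 ≤ q) (h1 : q ≤ 1) (s t : ℕ) (p : ℤ × ℤ) (ρ : ℕ) :
    PB q s t p ρ ≤ 1 := by
  unfold PB
  exact Pr_le_one (okq h0 h1) _ _

theorem PB_mono {q : ℝ} (h0 : 0 ≤ q) (h1 : q ≤ 1) (s t : ℕ) {p p' : ℤ × ℤ} {ρ ρ' : ℕ}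
    (ha : |p.1 - p'.1| + ρ ≤ ρ') (hb : |p.2 - p'.2| + ρ ≤ ρ') :
    PB q s t p ρ ≤ PB q s t p' ρ' := by
  unfold PB
  refine Pr_mono (okq h0 h1) fun F _ => SM1_BPv_mono ?_
  refine Finset.inter_subset_inter_right ?_
  unfold blk
  have h3 := abs_le.mp (show |p.1 - p'.1| ≤ (ρ':ℤ) - ρ by linarith)
  have h4 := abs_le.mp (show |p.2 - p'.2| ≤ (ρ':ℤ) - ρ by linarith)
  apply RE_subset <;> omega

/-- The index of the point of the grid of mesh `6g` next to the point `i` of the grid of mesh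
`g`. -/
def SM1_phi (i : ℤ × ℤ) : ℤ × ℤ := ((i.1 + 3) / 6, (i.2 + 3) / 6)

theorem SM1_near (g : ℕ) (i : ℤ) :
    |(g:ℤ) * i - ((6 * g : ℕ) : ℤ) * ((i + 3) / 6)| ≤ 3 * g := by
  have h1 : |i - 6 * ((i + 3) / 6)| ≤ 3 := by
    rw [abs_le]
    omega
  have h2 : (g:ℤ) * i - ((6 * g : ℕ) : ℤ) * ((i + 3) / 6) = g * (i - 6 * ((i + 3) / 6)) := by
    push_cast
    ring
  rw [h2, abs_mul, Nat.abs_cast]
  nlinarith [Int.natCast_nonneg g]

open Classical in
theorem SM1_fib (M : ℕ) (T : Finset (ℤ × ℤ)) (hT : T ⊆ idx M) (f : ℤ × ℤ → ℝ)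
    (hf : ∀ j, 0 ≤ f j) : ∑ i ∈ T, f (SM1_phi i) ≤ 36 * ∑ j ∈ idx M, f j := by
  have hmap : ∀ i ∈ T, SM1_phi i ∈ idx M := by
    intro i hi
    have h1 := hT hi
    unfold idx at h1 ⊢
    unfold SM1_phi
    rw [mem_product, mem_Icc, mem_Icc] at h1 ⊢
    simp only
    omega
  rw [← Finset.sum_fiberwise_of_maps_to hmap, Finset.mul_sum]
  refine Finset.sum_le_sum fun j _ => ?_
  have h2 : ∑ i ∈ T.filter (fun i => SM1_phi i = j), f (SM1_phi i) =
      ((T.filter (fun i => SM1_phi i = j)).card : ℝ) * f j := by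
    rw [← nsmul_eq_mul, ← Finset.sum_const]
    refine Finset.sum_congr rfl fun i hi => ?_
    rw [(mem_filter.mp hi).2]
  rw [h2]
  refine mul_le_mul_of_nonneg_right ?_ (hf j)
  have h3 : T.filter (fun i => SM1_phi i = j) ⊆
      Icc (6 * j.1 - 3) (6 * j.1 + 2) ×ˢ Icc (6 * j.2 - 3) (6 * j.2 + 2) := by
    intro i hi
    have h4 := (mem_filter.mp hi).2
    unfold SM1_phi at h4
    have h5 := congrArg Prod.fst h4
    have h6 := congrArg Prod.snd h4
    simp only at h5 h6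
    rw [mem_product, mem_Icc, mem_Icc]
    omega
  have h7 := card_le_card h3
  rw [card_product, Int.card_Icc, Int.card_Icc] at h7
  have h8 : (6 * j.1 + 2 + 1 - (6 * j.1 - 3)).toNat = 6 := by omega
  have h9 : (6 * j.2 + 2 + 1 - (6 * j.2 - 3)).toNat = 6 := by omega
  rw [h8, h9] at h7
  exact_mod_cast h7

theorem SB_six {q : ℝ} (h0 : 0 ≤ q) (h1 : q ≤ 1) (s t M : ℕ) {g : ℕ} (hg : 1 ≤ g) :
    SB q s t M g ≤ 36 * SB q s t M (6 * g) := by
  unfold SB
  refine le_trans ?_ (SM1_fib M (idx M) (Finset.Subset.refl _)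
    (fun j => PB q s t (gp (6 * g) j) (2 * (6 * g) - 1)) fun j => PB_nonneg h0 h1 _ _ _ _)
  refine Finset.sum_le_sum fun i _ => PB_mono h0 h1 s t ?_ ?_
  · have := SM1_near g i.1
    unfold gp SM1_phi
    simp only
    push_cast at this ⊢
    omega
  · have := SM1_near g i.2
    unfold gp SM1_phi
    simp only
    push_cast at this ⊢
    omega

open Classical in
theorem SB_plus {q : ℝ} (h0 : 0 ≤ q) (h1 : q ≤ 1) (s t M : ℕ) {g : ℕ} (hg : 1 ≤ g) :
    ∑ i ∈ (idx M).filter (fun i => IntB s t g i),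
      PQ q (RX s t) (fun F => BPv (LX s t) (JX s t) (blk (gp g i) (3 * (2 * g))) (↑F : Set Edg)) ≤
      36 * SB q s t M (6 * g) := by
  unfold SB
  refine le_trans ?_ (SM1_fib M ((idx M).filter (fun i => IntB s t g i)) (filter_subset _ _)
    (fun j => PB q s t (gp (6 * g) j) (2 * (6 * g) - 1)) fun j => PB_nonneg h0 h1 _ _ _ _)
  refine Finset.sum_le_sum fun i hi => ?_
  obtain ⟨ha, hb⟩ := (mem_filter.mp hi).2
  have h2 : blk (gp g i) (3 * (2 * g)) ∩ RX s t = blk (gp g i) (3 * (2 * g)) := by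
    rw [Finset.inter_eq_left]
    unfold blk RX gp
    have h3 := abs_le.mp (show |(g:ℤ) * i.1| ≤ (s:ℤ) - 8 * g by linarith)
    have h4 := abs_le.mp (show |(g:ℤ) * i.2| ≤ (t:ℤ) - 8 * g by linarith)
    simp only
    push_cast
    apply RE_subset <;> omega
  have h5 : PQ q (RX s t) (fun F => BPv (LX s t) (JX s t) (blk (gp g i) (3 * (2 * g)))
      (↑F : Set Edg)) = PB q s t (gp g i) (3 * (2 * g)) := by
    unfold PB
    rw [h2]
  rw [h5]
  refine PB_mono h0 h1 s t ?_ ?_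
  · have := SM1_near g i.1
    unfold gp SM1_phi
    simp only
    push_cast at this ⊢
    omega
  · have := SM1_near g i.2
    unfold gp SM1_phi
    simp only
    push_cast at this ⊢
    omega

end H974
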