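import Pool.Agent.H974R4.W2.Defs
import Pool.Agent.H974R4.W2.Sums

/-! W2, task BS (helper269): sum of the influences of the blocks near the boundary, averaged over
the rectangles. -/

namespace H974

open H12S Finset

/-! ### counting -/

/-- Number of `j` with `a < |g j| ≤ a + 10 g`. -/
theorem BSb_card1 (M : ℕ) {g : ℕ} (hg : 1 ≤ g) (a : ℤ) :
    ((Icc (-(M:ℤ)) M).filter (fun j => a < |(g:ℤ) * j| ∧ |(g:ℤ) * j| ≤ a + 10 * g)).card ≤ 22 := by
  have hg0 : (0:ℤ) < g := by exact_mod_cast hg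
  obtain ⟨k, hk⟩ : ∃ k : ℤ, k = a / g := ⟨_, rfl⟩
  have hk1 : (g:ℤ) * k ≤ a := by rw [hk]; exact Int.mul_ediv_self_le hg0.ne'
  have hk2 : a < (g:ℤ) * (k + 1) := by
    have := Int.lt_mul_ediv_self_add (x := a) hg0
    rw [← hk] at this
    linarith
  have hsub : (Icc (-(M:ℤ)) M).filter (fun j => a < |(g:ℤ) * j| ∧ |(g:ℤ) * j| ≤ a + 10 * g) ⊆
      Icc (k + 1) (k + 10) ∪ Icc (-(k + 10)) (-(k + 1)) := by
    intro j hj
    obtain ⟨-, h1, h2⟩ := mem_filter.mp hj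
    rw [mem_union, mem_Icc, mem_Icc]
    rcases le_or_gt 0 j with h | h
    · left
      rw [abs_of_nonneg (mul_nonneg hg0.le h)] at h1 h2
      constructor
      · have : (g:ℤ) * k < g * j := lt_of_le_of_lt hk1 h1
        have := lt_of_mul_lt_mul_left this hg0.le
        omega
      · have : (g:ℤ) * j < g * (k + 11) := by linarith
        have := lt_of_mul_lt_mul_left this hg0.le
        omega
    · right
      rw [abs_of_nonpos (mul_nonpos_of_nonneg_of_nonpos hg0.le h.le)] at h1 h2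
      constructor
      · have : (g:ℤ) * (-j) < g * (k + 11) := by linarith
        have := lt_of_mul_lt_mul_left this hg0.le
        omega
      · have : (g:ℤ) * k < g * (-j) := by linarith
        have := lt_of_mul_lt_mul_left this hg0.le
        omega
  have h3 := (card_le_card hsub).trans (card_union_le _ _)
  rw [Int.card_Icc, Int.card_Icc] at h3
  have h4 : (k + 10 + 1 - (k + 1)).toNat = 10 := by omega
  have h5 : (-(k + 1) + 1 - -(k + 10)).toNat = 10 := by omega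
  rw [h4, h5] at h3
  omega

/-- Number of `j` with `|g j| ≤ s`. -/
theorem BSb_card2 (M : ℕ) {g n s : ℕ} (hg : 1 ≤ g) (hgn : g ≤ n) (hs : s ≤ 2 * n) :
    (((Icc (-(M:ℤ)) M).filter (fun j => |(g:ℤ) * j| ≤ s)).card : ℝ) ≤ 5 * ((n:ℝ) / g) := by
  have hg0 : (0:ℤ) < g := by exact_mod_cast hg
  have hsub : (Icc (-(M:ℤ)) M).filter (fun j => |(g:ℤ) * j| ≤ s) ⊆
      Icc (-((s / g : ℕ) : ℤ)) ((s / g : ℕ) : ℤ) := by
    intro j hj
    obtain ⟨-, h1⟩ := mem_filter.mp hj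
    rw [mem_Icc, ← abs_le]
    rw [abs_mul, Nat.abs_cast] at h1
    have h2 : g * j.natAbs ≤ s := by
      have h3 : (j.natAbs : ℤ) = |j| := Int.natCast_natAbs j
      zify
      rw [← Int.natCast_natAbs] at h1
      rw [← h3]
      exact_mod_cast h1
    have h3 : j.natAbs ≤ s / g := by
      rw [Nat.le_div_iff_mul_le (by omega)]
      rw [mul_comm]
      exact h2
    rw [Int.abs_eq_natAbs]
    exact_mod_cast h3
  have h4 := card_le_card hsub
  rw [Int.card_Icc] at h4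
  have h5 : (((s / g : ℕ) : ℤ) + 1 - -((s / g : ℕ) : ℤ)).toNat = 2 * (s / g) + 1 := by omega
  rw [h5] at h4
  have hgr : (0:ℝ) < g := by exact_mod_cast hg
  have h6 : ((s / g : ℕ) : ℝ) ≤ (s:ℝ) / g := Nat.cast_div_le
  have h7 : (s:ℝ) / g ≤ 2 * ((n:ℝ) / g) := by
    rw [← mul_div_assoc]
    apply div_le_div_of_nonneg_right _ hgr.le
    exact_mod_cast hs
  have h8 : (1:ℝ) ≤ (n:ℝ) / g := by
    rw [le_div_iff₀ hgr, one_mul]
    exact_mod_cast hgn
  have h9 : (((Icc (-(M:ℤ)) M).filter (fun j => |(g:ℤ) * j| ≤ s)).card : ℝ) ≤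
      2 * ((s / g : ℕ) : ℝ) + 1 := by
    exact_mod_cast h4
  linarith

/-! ### telescoping -/

theorem BSb_tele (f : ℕ → ℝ) (h0 : ∀ t, 0 ≤ f t) (h1 : ∀ t, f t ≤ 1) {n w : ℕ} (hw : w ≤ n) :
    ∑ t ∈ Icc n (2 * n), (f (t + w) - f (t - w)) ≤ 2 * w := by
  have hIcc : Icc n (2 * n) = Ico n (2 * n + 1) := by
    ext t
    rw [mem_Icc, mem_Ico]
    omega
  rw [hIcc, Finset.sum_sub_distrib]
  have e1 : ∑ t ∈ Ico n (2 * n + 1), f (t + w) =
      ∑ t ∈ Ico (n + w) (2 * n + 1 + w), f t := Finset.sum_Ico_add' f n (2 * n + 1) w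
  have e2 : ∑ t ∈ Ico n (2 * n + 1), f (t - w) =
      ∑ t ∈ Ico (n - w) (2 * n + 1 - w), f t := by
    have h2 := Finset.sum_Ico_add' (fun t => f (t - w)) (n - w) (2 * n + 1 - w) w
    rw [Nat.sub_add_cancel hw, Nat.sub_add_cancel (by omega : w ≤ 2 * n + 1)] at h2
    rw [← h2]
    refine Finset.sum_congr rfl fun t _ => ?_
    simp only [Nat.add_sub_cancel]
  rw [e1, e2, Finset.sum_Ico_eq_sub _ (by omega), Finset.sum_Ico_eq_sub _ (by omega)]
  have hmono : ∀ a b : ℕ, a ≤ b → 0 ≤ ∑ t ∈ range b, f t - ∑ t ∈ range a, f t := by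
    intro a b hab
    rw [← Finset.sum_Ico_eq_sub _ hab]
    exact Finset.sum_nonneg fun t _ => h0 t
  have hle : ∀ a b : ℕ, a ≤ b → ∑ t ∈ range b, f t - ∑ t ∈ range a, f t ≤ (b:ℝ) - a := by
    intro a b hab
    rw [← Finset.sum_Ico_eq_sub _ hab]
    refine (Finset.sum_le_sum fun t _ => h1 t).trans ?_
    rw [Finset.sum_const, nsmul_eq_mul, mul_one, Nat.card_Ico, Nat.cast_sub hab]
  have h3 := hmono (n - w) (n + w) (by omega)
  have h4 := hle (2 * n + 1 - w) (2 * n + 1 + w) (by omega)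
  have h5 : ((2 * n + 1 + w : ℕ) : ℝ) - ((2 * n + 1 - w : ℕ) : ℝ) = 2 * w := by
    rw [Nat.cast_sub (by omega)]
    push_cast
    ring
  rw [h5] at h4
  linarith

/-! ### the sum -/

open Classical in
theorem SB_bdry_of
    (hFB0 : ∀ {q : ℝ}, 0 ≤ q → q ≤ 1 → ∀ s t : ℕ, 0 ≤ FB q s t)
    (hFB1 : ∀ {q : ℝ}, 0 ≤ q → q ≤ 1 → ∀ s t : ℕ, FB q s t ≤ 1)
    (hTop : ∀ {q κ : ℝ} {N : ℕ}, H12S.Win q κ N → ∀ {s t g : ℕ}, 1 ≤ g → 4 * g ≤ N →
      16 * g + 1 ≤ t → ∀ {p : ℤ × ℤ}, |p.1| + 8 * g ≤ s → (t:ℤ) - 8 * g < |p.2| →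
      |p.2| ≤ t + 2 * g →
      κ ^ 4 * PB q s t p (2 * g - 1) ≤ FB q s (t + 16 * g) - FB q s (t - 16 * g))
    (hSide : ∀ {q κ : ℝ} {N : ℕ}, H12S.Win q κ N → ∀ {s t g : ℕ}, 1 ≤ g → 4 * g ≤ N →
      16 * g + 1 ≤ s → ∀ {p : ℤ × ℤ}, |p.2| + 8 * g ≤ t → (s:ℤ) - 8 * g < |p.1| →
      |p.1| ≤ s + 2 * g →
      κ ^ 4 * PB q s t p (2 * g - 1) ≤ FB q (s - 16 * g) t - FB q (s + 16 * g) t)
    (hOut : ∀ {q : ℝ} {s t g : ℕ}, 1 ≤ g → ∀ {p : ℤ × ℤ},
      ((s:ℤ) + 2 * g < |p.1| ∨ (t:ℤ) + 2 * g < |p.2|) → PB q s t p (2 * g - 1) = 0)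
    (κ : ℝ) (hκ : 0 < κ) : ∃ C : ℝ, 0 < C ∧ ∀ (q : ℝ) (N : ℕ), H12S.Win q κ N →
    ∀ n M g : ℕ, 1 ≤ g → 100 * g ≤ n → n ≤ N →
      ∑ s ∈ Icc n (2 * n), ∑ t ∈ Icc n (2 * n),
        ∑ i ∈ (idx M).filter (fun i => ¬ IntB s t g i), PB q s t (gp g i) (2 * g - 1) ≤
        C * ((n:ℝ) + 1) ^ 2 := by
  refine ⟨484 + 7040 * (κ ^ 4)⁻¹, by positivity, ?_⟩
  intro q N hW n M g hg hgn hnN
  have q0 : 0 ≤ q := hW.q0
  have q1 : q ≤ 1 := hW.q1
  have hκ4 : 0 < κ ^ 4 := by positivity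
  have hgr : (0:ℝ) < g := by exact_mod_cast hg
  obtain ⟨D1, hD1⟩ : ∃ D : ℕ → ℕ → ℝ, D = fun s t =>
    FB q s (t + 16 * g) - FB q s (t - 16 * g) := ⟨_, rfl⟩
  obtain ⟨D2, hD2⟩ : ∃ D : ℕ → ℕ → ℝ, D = fun s t =>
    FB q (s - 16 * g) t - FB q (s + 16 * g) t := ⟨_, rfl⟩
  obtain ⟨K1, hK1⟩ : ∃ K : ℕ → Finset ℤ, K = fun s : ℕ =>
    (Icc (-(M:ℤ)) M).filter (fun j => |(g:ℤ) * j| ≤ (s:ℤ)) := ⟨_, rfl⟩
  obtain ⟨K2, hK2⟩ : ∃ K : ℕ → Finset ℤ, K = fun s : ℕ =>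
    (Icc (-(M:ℤ)) M).filter (fun j => (s:ℤ) - 8 * g < |(g:ℤ) * j| ∧
      |(g:ℤ) * j| ≤ (s:ℤ) - 8 * g + 10 * g) := ⟨_, rfl⟩
  -- one rectangle
  have hone : ∀ s ∈ Icc n (2 * n), ∀ t ∈ Icc n (2 * n),
      ∑ i ∈ (idx M).filter (fun i => ¬ IntB s t g i), PB q s t (gp g i) (2 * g - 1) ≤
      484 + 110 * ((n:ℝ) / g) * (κ ^ 4)⁻¹ * (D1 s t + D2 s t) := by
    intro s hs t ht
    rw [mem_Icc] at hs ht
    have hD1n : 0 ≤ D1 s t := by
      have h1 := hTop hW (s := s) (t := t) (g := g) hg (by omega) (by omega)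
        (p := (0, (t:ℤ))) (by simp only [abs_zero]; omega)
        (by simp only [Nat.abs_cast]; omega) (by simp only [Nat.abs_cast]; omega)
      have h2 := PB_nonneg q0 q1 s t (0, (t:ℤ)) (2 * g - 1)
      rw [hD1]
      exact le_trans (mul_nonneg hκ4.le h2) h1
    have hD2n : 0 ≤ D2 s t := by
      have h1 := hSide hW (s := s) (t := t) (g := g) hg (by omega) (by omega)
        (p := ((s:ℤ), 0)) (by simp only [abs_zero]; omega)
        (by simp only [Nat.abs_cast]; omega) (by simp only [Nat.abs_cast]; omega)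
      have h2 := PB_nonneg q0 q1 s t ((s:ℤ), 0) (2 * g - 1)
      rw [hD2]
      exact le_trans (mul_nonneg hκ4.le h2) h1
    -- pointwise
    have hpt : ∀ i ∈ (idx M).filter (fun i => ¬ IntB s t g i),
        PB q s t (gp g i) (2 * g - 1) ≤
        (if i ∈ K2 s ×ˢ K2 t then 1 else 0) +
        (if i ∈ K1 s ×ˢ K2 t then (κ ^ 4)⁻¹ * D1 s t else 0) +
        (if i ∈ K2 s ×ˢ K1 t then (κ ^ 4)⁻¹ * D2 s t else 0) := by
      intro i hi
      obtain ⟨hi1, hi2⟩ := mem_filter.mp hi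
      unfold idx at hi1
      rw [mem_product] at hi1
      have hnn1 : 0 ≤ (κ ^ 4)⁻¹ * D1 s t := mul_nonneg (inv_nonneg.mpr hκ4.le) hD1n
      have hnn2 : 0 ≤ (κ ^ 4)⁻¹ * D2 s t := mul_nonneg (inv_nonneg.mpr hκ4.le) hD2n
      have ha1 : (0:ℝ) ≤ (if i ∈ K2 s ×ˢ K2 t then 1 else 0) := by split_ifs <;> norm_num
      have ha2 : 0 ≤ (if i ∈ K1 s ×ˢ K2 t then (κ ^ 4)⁻¹ * D1 s t else 0) := by
        split_ifs
        · exact hnn1
        · exact le_rfl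
      have ha3 : 0 ≤ (if i ∈ K2 s ×ˢ K1 t then (κ ^ 4)⁻¹ * D2 s t else 0) := by
        split_ifs
        · exact hnn2
        · exact le_rfl
      have hgp1 : (gp g i).1 = g * i.1 := rfl
      have hgp2 : (gp g i).2 = g * i.2 := rfl
      by_cases hout : (s:ℤ) + 2 * g < |(g:ℤ) * i.1| ∨ (t:ℤ) + 2 * g < |(g:ℤ) * i.2|
      · rw [hOut hg (by rw [hgp1, hgp2]; exact hout)]
        linarith
      · push Not at hout
        obtain ⟨ho1, ho2⟩ := hout
        by_cases hc1 : (s:ℤ) - 8 * g < |(g:ℤ) * i.1|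
        · have hm1 : i.1 ∈ K2 s := by
            rw [hK2]
            exact mem_filter.mpr ⟨hi1.1, hc1, by linarith⟩
          by_cases hc2 : (t:ℤ) - 8 * g < |(g:ℤ) * i.2|
          · have hm2 : i.2 ∈ K2 t := by
              rw [hK2]
              exact mem_filter.mpr ⟨hi1.2, hc2, by linarith⟩
            rw [if_pos (mem_product.mpr ⟨hm1, hm2⟩)]
            have := SM1_PB_le_one q0 q1 s t (gp g i) (2 * g - 1)
            linarith
          · push Not at hc2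
            have hm2 : i.2 ∈ K1 t := by
              rw [hK1]
              exact mem_filter.mpr ⟨hi1.2, by linarith⟩
            rw [if_pos (mem_product.mpr ⟨hm1, hm2⟩ : i ∈ K2 s ×ˢ K1 t)]
            have h3 := hSide hW (s := s) (t := t) (g := g) hg (by omega) (by omega)
              (p := gp g i) (by rw [hgp2]; linarith) (by rw [hgp1]; exact hc1)
              (by rw [hgp1]; exact ho1)
            have h4 : PB q s t (gp g i) (2 * g - 1) ≤ (κ ^ 4)⁻¹ * D2 s t := by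
              rw [hD2, ← div_eq_inv_mul, le_div_iff₀ hκ4, mul_comm]
              exact h3
            linarith
        · push Not at hc1
          have hm1 : i.1 ∈ K1 s := by
            rw [hK1]
            exact mem_filter.mpr ⟨hi1.1, by linarith⟩
          have hc2 : (t:ℤ) - 8 * g < |(g:ℤ) * i.2| := by
            by_contra hcon
            push Not at hcon
            exact hi2 ⟨by linarith, by linarith⟩
          have hm2 : i.2 ∈ K2 t := by
            rw [hK2]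
            exact mem_filter.mpr ⟨hi1.2, hc2, by linarith⟩
          rw [if_pos (mem_product.mpr ⟨hm1, hm2⟩ : i ∈ K1 s ×ˢ K2 t)]
          have h3 := hTop hW (s := s) (t := t) (g := g) hg (by omega) (by omega)
            (p := gp g i) (by rw [hgp1]; linarith) (by rw [hgp2]; exact hc2)
            (by rw [hgp2]; exact ho2)
          have h4 : PB q s t (gp g i) (2 * g - 1) ≤ (κ ^ 4)⁻¹ * D1 s t := by
            rw [hD1, ← div_eq_inv_mul, le_div_iff₀ hκ4, mul_comm]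
            exact h3
          linarith
    refine (Finset.sum_le_sum hpt).trans ?_
    rw [Finset.sum_add_distrib, Finset.sum_add_distrib]
    -- sums of indicators
    have hind : ∀ (A : Finset (ℤ × ℤ)) (T : Finset (ℤ × ℤ)) (x : ℝ), 0 ≤ x →
        ∑ i ∈ T, (if i ∈ A then x else 0) ≤ (A.card : ℝ) * x := by
      intro A T x hx
      rw [← Finset.sum_filter, Finset.sum_const, nsmul_eq_mul]
      refine mul_le_mul_of_nonneg_right ?_ hx
      have : T.filter (fun i => i ∈ A) ⊆ A := fun i hi => (mem_filter.mp hi).2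
      exact_mod_cast card_le_card this
    have hcK2 : ∀ s : ℕ, ((K2 s).card : ℝ) ≤ 22 := by
      intro s
      rw [hK2]
      exact_mod_cast BSb_card1 M hg ((s:ℤ) - 8 * g)
    have hcK1 : ∀ s : ℕ, s ≤ 2 * n → ((K1 s).card : ℝ) ≤ 5 * ((n:ℝ) / g) := by
      intro s hs
      rw [hK1]
      exact BSb_card2 M hg (by omega) hs
    have hx1 : 0 ≤ (κ ^ 4)⁻¹ * D1 s t := mul_nonneg (inv_nonneg.mpr hκ4.le) hD1n
    have hx2 : 0 ≤ (κ ^ 4)⁻¹ * D2 s t := mul_nonneg (inv_nonneg.mpr hκ4.le) hD2n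
    have hng : (0:ℝ) ≤ (n:ℝ) / g := by positivity
    have k1 := hind (K2 s ×ˢ K2 t) ((idx M).filter (fun i => ¬ IntB s t g i)) 1 zero_le_one
    have k2 := hind (K1 s ×ˢ K2 t) ((idx M).filter (fun i => ¬ IntB s t g i)) _ hx1
    have k3 := hind (K2 s ×ˢ K1 t) ((idx M).filter (fun i => ¬ IntB s t g i)) _ hx2
    have c1 : (((K2 s ×ˢ K2 t).card : ℕ) : ℝ) ≤ 484 := by
      rw [card_product]
      push_cast
      calc ((K2 s).card : ℝ) * ((K2 t).card : ℝ) ≤ 22 * 22 :=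
            mul_le_mul (hcK2 s) (hcK2 t) (Nat.cast_nonneg _) (by norm_num)
        _ = 484 := by norm_num
    have c2 : (((K1 s ×ˢ K2 t).card : ℕ) : ℝ) ≤ 110 * ((n:ℝ) / g) := by
      rw [card_product]
      push_cast
      calc ((K1 s).card : ℝ) * ((K2 t).card : ℝ) ≤ (5 * ((n:ℝ) / g)) * 22 :=
            mul_le_mul (hcK1 s hs.2) (hcK2 t) (Nat.cast_nonneg _) (by positivity)
        _ = 110 * ((n:ℝ) / g) := by ring
    have c3 : (((K2 s ×ˢ K1 t).card : ℕ) : ℝ) ≤ 110 * ((n:ℝ) / g) := by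
      rw [card_product]
      push_cast
      calc ((K2 s).card : ℝ) * ((K1 t).card : ℝ) ≤ 22 * (5 * ((n:ℝ) / g)) :=
            mul_le_mul (hcK2 s) (hcK1 t ht.2) (Nat.cast_nonneg _) (by norm_num)
        _ = 110 * ((n:ℝ) / g) := by ring
    have l1 := mul_le_mul_of_nonneg_right c1 zero_le_one
    have l2 := mul_le_mul_of_nonneg_right c2 hx1
    have l3 := mul_le_mul_of_nonneg_right c3 hx2
    have e1 : 484 + 110 * ((n:ℝ) / g) * (κ ^ 4)⁻¹ * (D1 s t + D2 s t) =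
        484 * 1 + 110 * ((n:ℝ) / g) * ((κ ^ 4)⁻¹ * D1 s t) +
          110 * ((n:ℝ) / g) * ((κ ^ 4)⁻¹ * D2 s t) := by ring
    rw [e1]
    linarith
  -- the sums of the differences
  have ht1 : ∀ s : ℕ, ∑ t ∈ Icc n (2 * n), D1 s t ≤ 32 * g := by
    intro s
    rw [hD1]
    have h1 := BSb_tele (fun t => FB q s t) (fun t => hFB0 q0 q1 s t) (fun t => hFB1 q0 q1 s t)
      (n := n) (w := 16 * g) (by omega)
    refine h1.trans (le_of_eq ?_)
    push_cast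
    ring
  have ht2 : ∀ t : ℕ, ∑ s ∈ Icc n (2 * n), D2 s t ≤ 32 * g := by
    intro t
    rw [hD2]
    have h1 := BSb_tele (fun s => 1 - FB q s t)
      (fun s => by have := hFB1 q0 q1 s t; linarith)
      (fun s => by have := hFB0 q0 q1 s t; linarith)
      (n := n) (w := 16 * g) (by omega)
    have e1 : ∑ s ∈ Icc n (2 * n), (FB q (s - 16 * g) t - FB q (s + 16 * g) t) =
        ∑ s ∈ Icc n (2 * n), ((1 - FB q (s + 16 * g) t) - (1 - FB q (s - 16 * g) t)) :=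
      Finset.sum_congr rfl fun s _ => by ring
    simp only
    rw [e1]
    refine h1.trans (le_of_eq ?_)
    push_cast
    ring
  have hcard : ((Icc n (2 * n)).card : ℝ) = (n:ℝ) + 1 := by
    rw [Nat.card_Icc]
    have : 2 * n + 1 - n = n + 1 := by omega
    rw [this]
    push_cast
    ring
  have hD1s : ∑ s ∈ Icc n (2 * n), ∑ t ∈ Icc n (2 * n), D1 s t ≤ ((n:ℝ) + 1) * (32 * g) := by
    refine (Finset.sum_le_sum fun s _ => ht1 s).trans (le_of_eq ?_)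
    rw [Finset.sum_const, nsmul_eq_mul, hcard]
  have hD2s : ∑ s ∈ Icc n (2 * n), ∑ t ∈ Icc n (2 * n), D2 s t ≤ ((n:ℝ) + 1) * (32 * g) := by
    rw [Finset.sum_comm]
    refine (Finset.sum_le_sum fun t _ => ht2 t).trans (le_of_eq ?_)
    rw [Finset.sum_const, nsmul_eq_mul, hcard]
  refine (Finset.sum_le_sum fun s hs => Finset.sum_le_sum fun t ht => hone s hs t ht).trans ?_
  have e2 : ∑ s ∈ Icc n (2 * n), ∑ t ∈ Icc n (2 * n),
      (484 + 110 * ((n:ℝ) / g) * (κ ^ 4)⁻¹ * (D1 s t + D2 s t)) =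
      ((n:ℝ) + 1) * (((n:ℝ) + 1) * 484) + 110 * ((n:ℝ) / g) * (κ ^ 4)⁻¹ *
        (∑ s ∈ Icc n (2 * n), ∑ t ∈ Icc n (2 * n), D1 s t +
          ∑ s ∈ Icc n (2 * n), ∑ t ∈ Icc n (2 * n), D2 s t) := by
    simp only [Finset.sum_add_distrib, Finset.sum_const, nsmul_eq_mul, hcard, ← Finset.mul_sum]
  rw [e2]
  have hcoef : 0 ≤ 110 * ((n:ℝ) / g) * (κ ^ 4)⁻¹ := by positivity
  have h5 := mul_le_mul_of_nonneg_left (add_le_add hD1s hD2s) hcoef
  have h6 : 110 * ((n:ℝ) / g) * (κ ^ 4)⁻¹ * (((n:ℝ) + 1) * (32 * g) + ((n:ℝ) + 1) * (32 * g)) =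
      7040 * (κ ^ 4)⁻¹ * (n * ((n:ℝ) + 1)) := by
    field_simp
    ring
  rw [h6] at h5
  have h7 : 7040 * (κ ^ 4)⁻¹ * (n * ((n:ℝ) + 1)) ≤ 7040 * (κ ^ 4)⁻¹ * ((n:ℝ) + 1) ^ 2 := by
    refine mul_le_mul_of_nonneg_left ?_ (by positivity)
    have : (0:ℝ) ≤ n := Nat.cast_nonneg n
    nlinarith
  nlinarith [h5, h7]

end H974
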