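import Pool.Agent.H974R4.W2.Defs

/-! W2, task DP: double pigeonhole over the scales. -/

set_option autoImplicit false

namespace H974

open H12S Finset

/-- Markov's inequality for finitely many terms -/
theorem DP_markov {J : ℕ} (hJ : 1 ≤ J) {x : ℕ → ℝ} {T : ℝ} (hT : 0 < T)
    (hx : ∀ j, j < J → 0 ≤ x j) (hsum : ∑ j ∈ range J, x j ≤ T) (B : Finset ℕ)
    (hB : B ⊆ range J) (hxB : ∀ j ∈ B, 4 * T / J < x j) : 4 * B.card < J := by
  have hJ0 : (0 : ℝ) < J := by exact_mod_cast hJ
  rcases B.eq_empty_or_nonempty with rfl | hne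
  · simp; omega
  have h1 : ∑ j ∈ B, (4 * T / J : ℝ) < ∑ j ∈ B, x j := Finset.sum_lt_sum_of_nonempty hne hxB
  have h2 : ∑ j ∈ B, x j ≤ ∑ j ∈ range J, x j :=
    Finset.sum_le_sum_of_subset_of_nonneg hB fun j hj _ => hx j (Finset.mem_range.1 hj)
  rw [Finset.sum_const, nsmul_eq_mul] at h1
  have h3 : (B.card : ℝ) * (4 * T / J) < T := by linarith
  have h4 : (4 * B.card : ℝ) * T < J * T := by
    have h5 : (B.card : ℝ) * (4 * T / J) * J = 4 * B.card * T := by field_simp
    nlinarith
  have h6 : (4 * B.card : ℝ) < J := lt_of_mul_lt_mul_right h4 hT.le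
  exact_mod_cast h6

/-- shifted telescoping -/
theorem DP_tele (f : ℕ → ℝ) (J w : ℕ) :
    ∑ j ∈ range J, (f j - f (j + w)) = ∑ i ∈ range w, (f i - f (i + J)) := by
  have h1 : ∑ j ∈ range (J + w), f j = ∑ j ∈ range J, f j + ∑ i ∈ range w, f (i + J) := by
    rw [Finset.sum_range_add]
    congr 1
    exact Finset.sum_congr rfl fun i _ => by rw [add_comm]
  have h2 : ∑ j ∈ range (J + w), f j = ∑ i ∈ range w, f i + ∑ j ∈ range J, f (j + w) := by
    rw [add_comm J w, Finset.sum_range_add]
    congr 1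
    exact Finset.sum_congr rfl fun i _ => by rw [add_comm]
  rw [Finset.sum_sub_distrib, Finset.sum_sub_distrib]
  linarith

theorem dpig {J w : ℕ} (hJ : 1 ≤ J) (hw : 1 ≤ w) {a S : ℕ → ℝ} {Λ K1 K2 : ℝ} (hΛ : 0 < Λ)
    (ha : ∀ j, 0 < a j) (hanti : ∀ j, a (j + 1) ≤ a j) (hS : ∀ j, j ≤ J → 0 < S j)
    (hS6 : ∀ j, j < J → S j ≤ 36 * S (j + 1)) (h1 : a 0 ≤ Real.exp Λ * a (J + w))
    (h2 : S J ≤ Real.exp Λ * S 0) (hK1 : Real.exp (4 * w * Λ / J) ≤ K1)
    (hK2 : 36 ^ 4 * Real.exp (4 * Λ / J) ≤ K2) :
    ∃ j, j < J ∧ a j ≤ K1 * a (j + w) ∧ S (j + 1) ≤ K2 * S j := by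
  have hJ0 : (0 : ℝ) < J := by exact_mod_cast hJ
  have hw0 : (0 : ℝ) < w := by exact_mod_cast hw
  have hmono : Antitone a := antitone_nat_of_succ_le hanti
  have hlog : ∀ i j, i ≤ j → Real.log (a j) ≤ Real.log (a i) := fun i j hij =>
    Real.log_le_log (ha j) (hmono hij)
  have hl36 : 0 < Real.log 36 := Real.log_pos (by norm_num)
  have hK1' : 0 < K1 := (Real.exp_pos _).trans_le hK1
  have hK2' : 0 < K2 := lt_of_lt_of_le (by positivity) hK2
  -- first family
  have hb1 : 4 * ((range J).filter (fun j => ¬ a j ≤ K1 * a (j + w))).card < J := by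
    refine DP_markov hJ (T := w * Λ) (by positivity)
      (x := fun j => Real.log (a j) - Real.log (a (j + w))) ?_ ?_ _ (Finset.filter_subset _ _) ?_
    · intro j _
      have := hlog j (j + w) (Nat.le_add_right _ _)
      linarith
    · rw [DP_tele (fun j => Real.log (a j))]
      have hL : Real.log (a 0) - Real.log (a (J + w)) ≤ Λ := by
        have h3 := Real.log_le_log (ha 0) h1
        rw [Real.log_mul (Real.exp_pos _).ne' (ha _).ne', Real.log_exp] at h3
        linarith
      calc ∑ i ∈ range w, (Real.log (a i) - Real.log (a (i + J))) ≤ ∑ i ∈ range w, Λ := by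
            refine Finset.sum_le_sum fun i hi => ?_
            have h3 := hlog 0 i (Nat.zero_le _)
            have h4 := hlog (i + J) (J + w) (by have := Finset.mem_range.1 hi; omega)
            linarith
        _ = w * Λ := by simp
    · intro j hj
      have h3 := (Finset.mem_filter.1 hj).2
      push Not at h3
      have h4 := Real.log_lt_log (mul_pos hK1' (ha _)) h3
      rw [Real.log_mul hK1'.ne' (ha _).ne'] at h4
      have h5 := Real.log_le_log (Real.exp_pos _) hK1
      rw [Real.log_exp] at h5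
      have h6 : 4 * (w * Λ) / J = 4 * w * Λ / J := by ring
      rw [h6]
      linarith
  -- second family
  have hb2 : 4 * ((range J).filter (fun j => ¬ S (j + 1) ≤ K2 * S j)).card < J := by
    refine DP_markov hJ (T := Λ + J * Real.log 36) (by positivity)
      (x := fun j => Real.log (S (j + 1)) - Real.log (S j) + Real.log 36) ?_ ?_ _
      (Finset.filter_subset _ _) ?_
    · intro j hj
      have h3 := Real.log_le_log (hS j hj.le) (hS6 j hj)
      rw [Real.log_mul (by norm_num) (hS _ hj).ne'] at h3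
      linarith
    · rw [Finset.sum_add_distrib, Finset.sum_range_sub (fun j => Real.log (S j))]
      have h3 := Real.log_le_log (hS J le_rfl) h2
      rw [Real.log_mul (Real.exp_pos _).ne' (hS 0 (Nat.zero_le _)).ne', Real.log_exp] at h3
      simp only [Finset.sum_const, Finset.card_range, nsmul_eq_mul]
      linarith
    · intro j hj
      have hjJ := Finset.mem_range.1 (Finset.mem_filter.1 hj).1
      have h3 := (Finset.mem_filter.1 hj).2
      push Not at h3
      have h4 := Real.log_lt_log (mul_pos hK2' (hS j hjJ.le)) h3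
      rw [Real.log_mul hK2'.ne' (hS j hjJ.le).ne'] at h4
      have h5 := Real.log_le_log (by positivity) hK2
      rw [Real.log_mul (by norm_num) (Real.exp_pos _).ne', Real.log_exp, Real.log_pow] at h5
      push_cast at h5
      have h6 : 4 * (Λ + J * Real.log 36) / J = 4 * Λ / J + 4 * Real.log 36 := by
        field_simp
      rw [h6]
      linarith
  by_contra hno
  push Not at hno
  have hcov : range J ⊆ (range J).filter (fun j => ¬ a j ≤ K1 * a (j + w)) ∪
      (range J).filter (fun j => ¬ S (j + 1) ≤ K2 * S j) := by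
    intro j hj
    by_cases h3 : a j ≤ K1 * a (j + w)
    · have h4 := hno j (Finset.mem_range.1 hj) h3
      exact Finset.mem_union_right _ (Finset.mem_filter.2 ⟨hj, not_le.2 h4⟩)
    · exact Finset.mem_union_left _ (Finset.mem_filter.2 ⟨hj, h3⟩)
  have h3 := (Finset.card_le_card hcov).trans (Finset.card_union_le _ _)
  rw [Finset.card_range] at h3
  omega

end H974
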