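import Pool.Agent.H974R4.W2.Defs
import Pool.Agent.H12R2.Sep.Key2

/-!
W2, task KS: KEY at a given regular scale.
-/

namespace H974

open H12S Finset

/-- The statement of `H12S.exit_prob3`. -/
def Exit3 : Prop := ∀ κ : ℝ, 0 < κ → ∃ C c : ℝ, 0 < C ∧ 0 < c ∧ ∀ (L : ℕ) (δ : ℝ), 2 ≤ L →
    0 < δ → ∃ M1 M20 : ℕ, 64 ≤ M1 ∧ 8 * M1 ≤ M20 ∧ ∀ M2 : ℕ, M20 ≤ M2 → ∃ N : ℕ,
      ∀ (q : ℝ) (n : ℕ), H12S.Win q κ n → ∀ m : ℕ,
      M2 ≤ m → 4 * L * m ≤ n → ∀ e ∈ boxE (m / 4),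
      PQ q (SR L m) (fun F => A4 (-(2 * L * m : ℕ)) (2 * L * m : ℕ) (-m) m e ↑F) ≤
        (∑ p ∈ (((univ : Finset Bool) ×ˢ Icc (-(N:ℤ)) N) ×ˢ
              ((univ : Finset Bool) ×ˢ Icc (-(N:ℤ)) N)).filter (fun p =>
              |2 * ((m / M2 : ℕ) : ℤ) * p.1.2| ≤ (L * m : ℕ) + ((m / M2 : ℕ) : ℤ) ∧
              |2 * ((m / M2 : ℕ) : ℤ) * p.2.2| ≤ (L * m : ℕ) + ((m / M2 : ℕ) : ℤ)),
          PQ q (SR L m) (fun F =>
          Sev L m (m / M2) (m / M1) p.1.1 (2 * (m / M2 : ℕ) * p.1.2) p.2.1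
            (2 * (m / M2 : ℕ) * p.2.2) e ↑F)) +
        (δ + C * Real.exp (-c * L)) * a4 q (m / 8)

theorem KS_abs {L M2 r m : ℕ} (hr : 1 ≤ r) (hm : m = M2 * r) {k : ℤ}
    (h : |2 * (r:ℤ) * k| ≤ (L * m : ℕ) + (r:ℤ)) : |2 * k| ≤ L * M2 + 1 := by
  have hr0 : (0:ℤ) < r := by exact_mod_cast hr
  have e1 : |2 * (r:ℤ) * k| = (r:ℤ) * |2 * k| := by
    rw [show 2 * (r:ℤ) * k = (r:ℤ) * (2 * k) by ring, abs_mul, abs_of_pos hr0]
  rw [e1] at h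
  have e2 : ((L * m : ℕ) : ℤ) + r = (r:ℤ) * (L * M2 + 1) := by
    rw [hm]
    push_cast
    ring
  rw [e2] at h
  exact le_of_mul_le_mul_left h hr0

theorem key_scale (hE : Exit3) (κ : ℝ) (hκ : 0 < κ) (p : ℝ) (hp : 0 < p) (M20 : ℕ) :
    ∃ (L M1 M2 : ℕ) (C1 : ℝ), 2 ≤ L ∧ 64 ≤ M1 ∧ 8 * M1 ≤ M2 ∧ M20 ≤ M2 ∧ 0 < C1 ∧
      ∀ (q : ℝ) (n : ℕ), H12S.Win q κ n → ∀ r m : ℕ, 1 ≤ r → m = M2 * r → 4 * L * m ≤ n →
        a4 q (m / 8) ≤ (192 * (L:ℝ)) ^ p * a4 q (4 * L * m) →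
        ∃ (σ : Bool) (k1 : ℤ) (σ' : Bool) (k2 : ℤ), |2 * k1| ≤ L * M2 + 1 ∧
          |2 * k2| ≤ L * M2 + 1 ∧
          (m:ℝ) ^ 2 * a4 q (4 * L * m) ≤ C1 * TS q L m r (m / M1) σ k1 σ' k2 := by
  obtain ⟨C, c, hC, hc, hex⟩ := hE κ hκ
  obtain ⟨L, hL, hLK⟩ := KY_choose_L C c p hc
  have hL0 : (0:ℝ) < L := by
    have : 0 < L := by omega
    exact_mod_cast this
  obtain ⟨K, hK⟩ : ∃ K : ℝ, K = (192 * (L:ℝ)) ^ p := ⟨_, rfl⟩
  have hK0 : 0 < K := by rw [hK]; positivity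
  have e0 : (64 * (3 * L : ℕ) : ℝ) ^ p = K := by
    rw [hK]
    congr 1
    push_cast
    ring
  rw [e0] at hLK
  obtain ⟨M1, M20', hM1, hM8, hex2⟩ := hex L (1 / (32 * K)) hL (by positivity)
  obtain ⟨M2, hM2d⟩ : ∃ M2 : ℕ, M2 = max M20 M20' := ⟨_, rfl⟩
  have hM2a : M20 ≤ M2 := by rw [hM2d]; exact le_max_left _ _
  have hM2b : M20' ≤ M2 := by rw [hM2d]; exact le_max_right _ _
  obtain ⟨N, hexN⟩ := hex2 M2 hM2b
  have hM2 : 8 * M1 ≤ M2 := hM8.trans hM2b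
  have hM2pos : 0 < M2 := by omega
  obtain ⟨cd, hcd⟩ : ∃ cd : ℕ, cd = (2 * (2 * N + 1)) * (2 * (2 * N + 1)) := ⟨_, rfl⟩
  refine ⟨L, M1, M2, K + 16 * cd, hL, hM1, hM2, hM2a, by positivity, ?_⟩
  intro q n hW r m hr hm hmn h8
  have h0 : 0 ≤ q := by linarith [hW.lo]
  have h1 : q ≤ 1 := by linarith [hW.hi]
  have ha0 : ∀ j, 0 ≤ a4 q j := fun j => a4_nonneg h0 h1 j
  rw [← hK] at h8
  have hmr : m / M2 = r := by rw [hm, Nat.mul_div_cancel_left _ hM2pos]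
  have hmM : M2 ≤ m := by
    rw [hm]
    exact Nat.le_mul_of_pos_right _ (by omega)
  have hm64 : 64 ≤ m := by omega
  obtain ⟨idx, hidx⟩ : ∃ idx : Finset ((Bool × ℤ) × (Bool × ℤ)), idx =
      (((univ : Finset Bool) ×ˢ Icc (-(N:ℤ)) N) ×ˢ
      ((univ : Finset Bool) ×ˢ Icc (-(N:ℤ)) N)).filter (fun p =>
        |2 * (r:ℤ) * p.1.2| ≤ (L * m : ℕ) + (r:ℤ) ∧
        |2 * (r:ℤ) * p.2.2| ≤ (L * m : ℕ) + (r:ℤ)) := ⟨_, rfl⟩
  have hcard : idx.card ≤ cd := by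
    rw [hidx, hcd]
    refine (Finset.card_filter_le _ _).trans ?_
    rw [Finset.card_product, Finset.card_product, Int.card_Icc, Finset.card_univ,
      Fintype.card_bool]
    have : ((N:ℤ) + 1 - -(N:ℤ)).toNat = 2 * N + 1 := by omega
    rw [this]
  have hne : idx.Nonempty := by
    rw [hidx]
    refine ⟨((true, 0), (true, 0)), ?_⟩
    simp only [Finset.mem_filter, Finset.mem_product, Finset.mem_Icc, Finset.mem_univ, true_and,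
      mul_zero, abs_zero]
    refine ⟨⟨⟨by omega, by omega⟩, ⟨by omega, by omega⟩⟩, ?_, ?_⟩ <;> positivity
  -- the sum
  set T : (Bool × ℤ) × (Bool × ℤ) → ℝ := fun p =>
    TS q L m r (m / M1) p.1.1 p.1.2 p.2.1 p.2.2 with hT
  have hs := a4_sum_ge h0 h1 hL hm64
  have hm0 : (0:ℝ) < m := by
    have : 0 < m := by omega
    exact_mod_cast this
  have hη : (1 / (32 * K) + C * Real.exp (-c * L)) * K ≤ 1 / 16 := by
    have e1 : 1 / (32 * K) * K = 1 / 32 := by field_simp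
    calc (1 / (32 * K) + C * Real.exp (-c * L)) * K
        = 1 / (32 * K) * K + C * Real.exp (-c * L) * K := by ring
      _ ≤ 1 / 32 + 1 / 32 := by rw [e1]; linarith
      _ = 1 / 16 := by norm_num
  have hη0 : 0 ≤ 1 / (32 * K) + C * Real.exp (-c * L) := by positivity
  have hex3 : ∀ e ∈ boxE (m / 4),
      PQ q (SR L m) (fun F => A4 (-(2 * L * m : ℕ)) (2 * L * m : ℕ) (-m) m e ↑F) ≤
        (∑ p ∈ idx, PQ q (SR L m) (fun F =>
          Sev L m r (m / M1) p.1.1 (2 * r * p.1.2) p.2.1 (2 * r * p.2.2) e ↑F)) +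
        (1 / (32 * K) + C * Real.exp (-c * L)) * a4 q (m / 8) := by
    intro e he
    have h := hexN q n hW m hmM hmn e he
    rw [hmr] at h
    rw [hidx]
    exact h
  have hs2 : ∑ e ∈ boxE (m / 4), PQ q (SR L m)
        (fun F => A4 (-(2 * L * m : ℕ)) (2 * L * m : ℕ) (-m) m e ↑F) ≤
      ∑ p ∈ idx, T p + (m:ℝ) ^ 2 / 16 * a4 q (4 * L * m) := by
    refine (Finset.sum_le_sum hex3).trans ?_
    rw [Finset.sum_add_distrib, Finset.sum_comm, Finset.sum_const, nsmul_eq_mul]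
    refine add_le_add le_rfl ?_
    calc ((boxE (m / 4)).card : ℝ) * ((1 / (32 * K) + C * Real.exp (-c * L)) * a4 q (m / 8))
        ≤ (m:ℝ) ^ 2 * ((1 / (32 * K) + C * Real.exp (-c * L)) * (K * a4 q (4 * L * m))) := by
          apply mul_le_mul (KY_card hm64) _ (mul_nonneg hη0 (ha0 _)) (by positivity)
          exact mul_le_mul_of_nonneg_left h8 hη0
      _ = (m:ℝ) ^ 2 * ((1 / (32 * K) + C * Real.exp (-c * L)) * K) * a4 q (4 * L * m) := by ring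
      _ ≤ (m:ℝ) ^ 2 * (1 / 16) * a4 q (4 * L * m) := by
          apply mul_le_mul_of_nonneg_right _ (ha0 _)
          exact mul_le_mul_of_nonneg_left hη (by positivity)
      _ = _ := by ring
  have hs3 : (m:ℝ) ^ 2 / 16 * a4 q (4 * L * m) ≤ ∑ p ∈ idx, T p := by
    have e1 : (m:ℝ) ^ 2 / 8 * a4 q (4 * L * m) = (m:ℝ) ^ 2 / 16 * a4 q (4 * L * m) +
        (m:ℝ) ^ 2 / 16 * a4 q (4 * L * m) := by ring
    linarith
  obtain ⟨p', hp', hmax⟩ := Finset.exists_max_image idx T hne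
  have hs4 : ∑ p ∈ idx, T p ≤ (idx.card : ℝ) * T p' := by
    rw [← nsmul_eq_mul]
    exact Finset.sum_le_card_nsmul _ _ _ hmax
  have hcpos : (0:ℝ) < (idx.card : ℝ) := by
    exact_mod_cast Finset.card_pos.mpr hne
  have hL0' : 0 ≤ (m:ℝ) ^ 2 / 16 * a4 q (4 * L * m) := mul_nonneg (by positivity) (ha0 _)
  have hTp : 0 ≤ T p' := by
    by_contra hneg
    push Not at hneg
    have := mul_neg_of_pos_of_neg hcpos hneg
    linarith
  have hcd' : (idx.card : ℝ) ≤ cd := by exact_mod_cast hcard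
  have hfin : (m:ℝ) ^ 2 * a4 q (4 * L * m) ≤ (K + 16 * cd) * T p' := by
    calc (m:ℝ) ^ 2 * a4 q (4 * L * m) = 16 * ((m:ℝ) ^ 2 / 16 * a4 q (4 * L * m)) := by ring
      _ ≤ 16 * ((idx.card : ℝ) * T p') := by linarith
      _ ≤ 16 * (cd * T p') := by
          have := mul_le_mul_of_nonneg_right hcd' hTp
          linarith
      _ ≤ (K + 16 * cd) * T p' := by
          have := mul_nonneg hK0.le hTp
          nlinarith
  rw [hidx, Finset.mem_filter] at hp'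
  exact ⟨p'.1.1, p'.1.2, p'.2.1, p'.2.2, KS_abs hr hm hp'.2.1, KS_abs hr hm hp'.2.2, hfin⟩

end H974
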