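import Pool.Agent.H974R4.W2.Defs

/-!
W2, task BL: the block exploration from a vertical line and its OSSS inequality.
-/

namespace H974

open H12S Finset

/-- The block `i` touches the cluster of the line `x = k` in `O`. -/
def LnFr (π : Edg → ℤ × ℤ) (S : Finset Edg) (k : ℤ) (i : ℤ × ℤ) (O : Finset Edg) : Prop :=
  ∃ e ∈ S, π e = i ∧ ∃ x w : Vtx, (x = src e ∨ x = tgt e) ∧ w.1 = k ∧ Reach (↑O : Set Edg) x w

open Classical in
/-- The exploration tree. -/
noncomputable def LnT (π : Edg → ℤ × ℤ) (S : Finset Edg) (k : ℤ) :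
    ℕ → Finset (ℤ × ℤ) → Finset Edg → BT (ℤ × ℤ) Edg
  | 0, _, _ => BT.leaf
  | n + 1, rem, O =>
    if h : ∃ i ∈ rem, LnFr π S k i O then
      BT.node h.choose (fun G => LnT π S k n (rem.erase h.choose) (O ∪ G))
    else BT.leaf

theorem LnT_valid (π : Edg → ℤ × ℤ) (S : Finset Edg) (k : ℤ) : ∀ (n : ℕ) (rem : Finset (ℤ × ℤ))
    (O : Finset Edg), (LnT π S k n rem O).Valid rem
  | 0, rem, O => by
    rw [LnT]; trivial
  | n + 1, rem, O => by
    rw [LnT]
    split_ifs with h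
    · exact ⟨h.choose_spec.1, fun G => LnT_valid π S k n _ _⟩
    · trivial

theorem LnFr_mono {π : Edg → ℤ × ℤ} {S : Finset Edg} {k : ℤ} {i : ℤ × ℤ} {O O' : Finset Edg}
    (h : O ⊆ O') (hO : LnFr π S k i O) : LnFr π S k i O' := by
  obtain ⟨e, he, hi, x, w, hx, hw, hr⟩ := hO
  exact ⟨e, he, hi, x, w, hx, hw, hr.mono (by exact_mod_cast h)⟩

theorem LnT_step {π : Edg → ℤ × ℤ} {F : Finset Edg} {rem : Finset (ℤ × ℤ)} {i : ℤ × ℤ}
    (hi : i ∈ rem) : F.filter (fun e => π e ∉ rem) ∪ fb π F {i} =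
      F.filter (fun e => π e ∉ rem.erase i) := by
  ext e
  simp only [Finset.mem_union, Finset.mem_filter, mem_fb, Finset.mem_singleton, Finset.mem_erase,
    not_and]
  constructor
  · rintro (⟨h1, h2⟩ | ⟨h1, h2⟩)
    · exact ⟨h1, fun _ => h2⟩
    · exact ⟨h1, fun h => absurd h2 h⟩
  · rintro ⟨h1, h2⟩
    by_cases h3 : π e = i
    · exact Or.inr ⟨h1, h3⟩
    · exact Or.inl ⟨h1, h2 h3⟩

theorem LnT_rev {π : Edg → ℤ × ℤ} {S : Finset Edg} {k : ℤ} {F : Finset Edg} : ∀ (n : ℕ)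
    (rem : Finset (ℤ × ℤ)), ∀ i ∈ (LnT π S k n rem (F.filter (fun e => π e ∉ rem))).rev π F,
      LnFr π S k i F
  | 0, rem => by
    intro i hi
    rw [LnT] at hi
    simp [BT.rev] at hi
  | n + 1, rem => by
    intro i hi
    rw [LnT] at hi
    split_ifs at hi with h
    · unfold BT.rev at hi
      beta_reduce at hi
      rw [LnT_step h.choose_spec.1] at hi
      rcases Finset.mem_insert.mp hi with h1 | h1
      · rw [h1]
        exact LnFr_mono (Finset.filter_subset _ _) h.choose_spec.2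
      · exact LnT_rev n _ i h1
    · simp [BT.rev] at hi

theorem LnT_stop {π : Edg → ℤ × ℤ} {S : Finset Edg} {k : ℤ} {F : Finset Edg} : ∀ (n : ℕ)
    (rem : Finset (ℤ × ℤ)), rem.card ≤ n →
      ∀ i ∈ rem \ (LnT π S k n rem (F.filter (fun e => π e ∉ rem))).rev π F,
      ¬ LnFr π S k i (F.filter (fun e => π e ∉
        rem \ (LnT π S k n rem (F.filter (fun e => π e ∉ rem))).rev π F))
  | 0, rem => by
    intro h i hi
    have : rem = ∅ := Finset.card_eq_zero.mp (by omega)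
    rw [this] at hi
    simp at hi
  | n + 1, rem => by
    intro hcard i hi
    rw [LnT] at hi ⊢
    split_ifs at hi ⊢ with h
    · unfold BT.rev at hi ⊢
      beta_reduce at hi ⊢
      rw [LnT_step h.choose_spec.1] at hi ⊢
      have e1 : ∀ R : Finset (ℤ × ℤ), rem \ insert h.choose R = rem.erase h.choose \ R := by
        intro R
        ext j
        simp only [Finset.mem_sdiff, Finset.mem_insert, Finset.mem_erase]
        tauto
      rw [e1] at hi ⊢
      refine LnT_stop n _ ?_ i hi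
      rw [Finset.card_erase_of_mem h.choose_spec.1]
      omega
    · unfold BT.rev at hi ⊢
      rw [Finset.sdiff_empty] at hi ⊢
      exact fun h' => h ⟨i, hi, h'⟩

theorem BT.rev_det {E ι : Type*} [DecidableEq E] [DecidableEq ι] {π : E → ι} : ∀ (T : BT ι E)
    (F F' : Finset E), F.filter (fun e => π e ∈ T.rev π F) = F'.filter (fun e => π e ∈ T.rev π F) →
      T.rev π F' = T.rev π F
  | BT.leaf, F, F', _ => by simp [BT.rev]
  | BT.node i T, F, F', h => by
    have h1 : fb π F {i} = fb π F' {i} := by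
      ext e
      simp only [mem_fb, Finset.mem_singleton]
      have h2 := Finset.ext_iff.mp h e
      simp only [Finset.mem_filter] at h2
      constructor
      · rintro ⟨h3, h4⟩
        refine ⟨(h2.mp ⟨h3, ?_⟩).1, h4⟩
        unfold BT.rev
        rw [h4]; exact Finset.mem_insert_self _ _
      · rintro ⟨h3, h4⟩
        refine ⟨(h2.mpr ⟨h3, ?_⟩).1, h4⟩
        unfold BT.rev
        rw [h4]; exact Finset.mem_insert_self _ _
    unfold BT.rev
    rw [← h1, BT.rev_det (T (fb π F {i})) F F']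
    ext e
    simp only [Finset.mem_filter]
    have h2 := Finset.ext_iff.mp h e
    simp only [Finset.mem_filter] at h2
    constructor
    · rintro ⟨h3, h4⟩
      refine ⟨(h2.mp ⟨h3, ?_⟩).1, h4⟩
      unfold BT.rev
      exact Finset.mem_insert_of_mem h4
    · rintro ⟨h3, h4⟩
      refine ⟨(h2.mpr ⟨h3, ?_⟩).1, h4⟩
      unfold BT.rev
      exact Finset.mem_insert_of_mem h4

/-- The tree started with nothing revealed. -/
noncomputable def LnT0 (π : Edg → ℤ × ℤ) (S : Finset Edg) (k : ℤ) (I : Finset (ℤ × ℤ)) :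
    BT (ℤ × ℤ) Edg := LnT π S k I.card I ∅

theorem LnT0_eq {π : Edg → ℤ × ℤ} {S : Finset Edg} {k : ℤ} {I : Finset (ℤ × ℤ)}
    (hS : ∀ e ∈ S, π e ∈ I) {F : Finset Edg} (hF : F ⊆ S) :
    LnT0 π S k I = LnT π S k I.card I (F.filter (fun e => π e ∉ I)) := by
  have : F.filter (fun e => π e ∉ I) = ∅ := by
    rw [Finset.filter_eq_empty_iff]
    intro e he h
    exact h (hS e (hF he))
  rw [this]; rfl

theorem LnT0_rev {π : Edg → ℤ × ℤ} {S : Finset Edg} {k : ℤ} {I : Finset (ℤ × ℤ)}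
    (hS : ∀ e ∈ S, π e ∈ I) {F : Finset Edg} (hF : F ⊆ S) {i : ℤ × ℤ}
    (hi : i ∈ (LnT0 π S k I).rev π F) : LnFr π S k i F := by
  rw [LnT0_eq hS hF] at hi
  exact LnT_rev _ _ _ hi

theorem LnT0_cluster {π : Edg → ℤ × ℤ} {S : Finset Edg} {k : ℤ} {I : Finset (ℤ × ℤ)}
    (hS : ∀ e ∈ S, π e ∈ I) {F : Finset Edg} (hF : F ⊆ S) {w x : Vtx} (hw : w.1 = k)
    (h : Reach (↑F : Set Edg) w x) :
    Reach (↑(F.filter (fun e => π e ∈ (LnT0 π S k I).rev π F)) : Set Edg) w x := by
  have hstop := LnT_stop (π := π) (S := S) (k := k) (F := F) I.card I le_rfl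
  rw [← LnT0_eq hS hF] at hstop
  set R := (LnT0 π S k I).rev π F with hR
  have e1 : F.filter (fun e => π e ∉ I \ R) = F.filter (fun e => π e ∈ R) := by
    apply Finset.filter_congr
    intro e he
    have := hS e (hF he)
    rw [Finset.mem_sdiff]
    tauto
  rw [e1] at hstop
  have key : ∀ z, Reach (↑F : Set Edg) w z →
      Reach (↑(F.filter (fun e => π e ∈ R)) : Set Edg) w z := by
    intro z hz
    induction hz with
    | refl => exact Reach.refl _ _
    | @tail y z hy hs ih =>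
      obtain ⟨e, he, hc⟩ := hs
      have heF : e ∈ F := he
      have hin : π e ∈ R := by
        by_contra hn
        refine hstop (π e) (Finset.mem_sdiff.mpr ⟨hS e (hF heF), hn⟩)
          ⟨e, hF heF, rfl, y, w, ?_, hw, ih.symm⟩
        rcases hc with ⟨h1, -⟩ | ⟨-, h1⟩
        · exact Or.inl h1.symm
        · exact Or.inr h1.symm
      refine ih.trans (Adj.reach ⟨e, ?_, hc⟩)
      simp only [Finset.coe_filter, Set.mem_ofPred_eq]
      exact ⟨heF, hin⟩
  exact key x h

/-- A path visits the lines which it crosses. -/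
theorem Ln_visit {F : Set Edg} {u v : Vtx} {k : ℤ} (h : Reach F u v) (hu : u.1 ≤ k)
    (hv : k ≤ v.1) : ∃ w : Vtx, w.1 = k ∧ Reach F u w := by
  have key : (∃ w : Vtx, w.1 = k ∧ Reach F u w) ∨ v.1 < k := by
    clear hv
    induction h with
    | refl =>
      rcases eq_or_lt_of_le hu with h1 | h1
      · exact Or.inl ⟨u, h1, Reach.refl _ _⟩
      · exact Or.inr h1
    | @tail y z hy hs ih =>
      rcases ih with ih | ih
      · exact Or.inl ih
      · rcases lt_or_ge z.1 k with h1 | h1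
        · exact Or.inr h1
        · left
          refine ⟨z, ?_, Relation.ReflTransGen.tail hy hs⟩
          obtain ⟨⟨a, b, c⟩, he, h2⟩ := hs
          clear he hy
          rcases c with _ | _ <;> simp only [src_mk, tgt_true, tgt_false] at h2 <;>
            rcases h2 with ⟨rfl, rfl⟩ | ⟨rfl, rfl⟩ <;> dsimp only at ih h1 ⊢ <;> omega
  rcases key with h1 | h1
  · exact h1
  · omega

theorem bosss_line {q : ℝ} (h0 : 0 ≤ q) (h1 : q ≤ 1) {s t M g : ℕ} (hg : 1 ≤ g)
    (hs : s + 1 ≤ M) (ht : t + 1 ≤ M) {k : ℤ} (hk : -(s:ℤ) ≤ k ∧ k ≤ s) :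
    2 * (FB q s t * (1 - FB q s t)) ≤ ∑ i ∈ idx M,
      PQ q (RX s t) (fun F => TL g i k (↑F : Set Edg)) * PB q s t (gp g i) (2 * g - 1) := by
  classical
  have hp : Ok (fun _ : Edg => q) := fun _ => ⟨h0, h1⟩
  set π : Edg → ℤ × ℤ := fun e => (e.1 / (g:ℤ), e.2.1 / (g:ℤ)) with hπ
  have hgz : (0:ℤ) < (g:ℤ) := by exact_mod_cast hg
  have hgz1 : (1:ℤ) ≤ (g:ℤ) := by exact_mod_cast hg
  have hdiv : ∀ (x : ℤ) (m : ℕ), m + 1 ≤ M → -(m:ℤ) ≤ x → x ≤ m → -(M:ℤ) ≤ x / g ∧ x / g ≤ M := by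
    intro x m hm h2 h3
    constructor
    · rw [Int.le_ediv_iff_mul_le hgz]
      have : -(M:ℤ) * g ≤ -(M:ℤ) * 1 := by
        apply mul_le_mul_of_nonpos_left hgz1; omega
      omega
    · have : x / (g:ℤ) < M + 1 := by
        rw [Int.ediv_lt_iff_lt_mul hgz]
        have : ((M:ℤ) + 1) * 1 ≤ (M + 1) * g := by
          apply mul_le_mul_of_nonneg_left hgz1; omega
        omega
      omega
  have hrx : ∀ e ∈ RX s t, -(s:ℤ) ≤ e.1 ∧ e.1 ≤ s ∧ -(t:ℤ) ≤ e.2.1 ∧ e.2.1 ≤ t := by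
    rintro ⟨x, y, _ | _⟩ he
    · unfold RX at he
      rw [mem_RE_false] at he
      refine ⟨?_, ?_, ?_, ?_⟩ <;> simp only <;> omega
    · unfold RX at he
      rw [mem_RE_true] at he
      refine ⟨?_, ?_, ?_, ?_⟩ <;> simp only <;> omega
  have hS : ∀ e ∈ RX s t, π e ∈ idx M := by
    intro e he
    obtain ⟨a1, a2, a3, a4⟩ := hrx e he
    unfold idx
    rw [Finset.mem_product, Finset.mem_Icc, Finset.mem_Icc]
    exact ⟨hdiv _ s hs a1 a2, hdiv _ t ht a3 a4⟩
  have hbox : ∀ e : Edg, ∀ x : Vtx, (x = src e ∨ x = tgt e) →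
      inR (g * (π e).1) (g * (π e).1 + g) (g * (π e).2) (g * (π e).2 + g) x := by
    rintro ⟨a, b, c⟩ x hx
    have b1 : (g:ℤ) * (a / g) ≤ a := Int.mul_ediv_self_le hgz.ne'
    have b2 : a < g * (a / g) + g := Int.lt_mul_ediv_self_add hgz
    have b3 : (g:ℤ) * (b / g) ≤ b := Int.mul_ediv_self_le hgz.ne'
    have b4 : b < g * (b / g) + g := Int.lt_mul_ediv_self_add hgz
    simp only [hπ]
    unfold inR
    rcases c with _ | _ <;> rcases hx with rfl | rfl <;>
      simp only [src_mk, tgt_true, tgt_false] <;> omega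
  have hfb : ∀ i, fb π (RX s t) {i} ⊆ blk (gp g i) (2 * g - 1) ∩ RX s t := by
    intro i e he
    rw [mem_fb, Finset.mem_singleton] at he
    obtain ⟨he1, he2⟩ := he
    refine Finset.mem_inter.mpr ⟨?_, he1⟩
    have c1 := hbox e (src e) (Or.inl rfl)
    have c2 := hbox e (tgt e) (Or.inr rfl)
    rw [he2] at c1 c2
    obtain ⟨a, b, c⟩ := e
    have hg2 : ((2 * g - 1 : ℕ) : ℤ) = 2 * g - 1 := by
      rw [Nat.cast_sub (by omega)]; push_cast; ring
    unfold blk gp
    simp only [hg2]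
    rcases c with _ | _
    · rw [mem_RE_false]
      simp only [src_mk, tgt_false, inR] at c1 c2
      omega
    · rw [mem_RE_true]
      simp only [src_mk, tgt_true, inR] at c1 c2
      omega
  have hmonoC : ∀ (F G : Set Edg), F ⊆ G → Cn (LX s t) (JX s t) F → Cn (LX s t) (JX s t) G := by
    rintro F G hFG ⟨u, hu, v, hv, h⟩
    exact ⟨u, hu, v, hv, h.mono hFG⟩
  have hdir : ∀ F F' : Finset Edg, F ⊆ RX s t →
      F.filter (fun e => π e ∈ (LnT0 π (RX s t) k (idx M)).rev π F) =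
        F'.filter (fun e => π e ∈ (LnT0 π (RX s t) k (idx M)).rev π F) →
      Cn (LX s t) (JX s t) (↑F : Set Edg) → Cn (LX s t) (JX s t) (↑F' : Set Edg) := by
    rintro F F' hF hFF ⟨u, hu, v, hv, h⟩
    have hu1 : u.1 = -(s:ℤ) := hu.1
    have hv1 : v.1 = (s:ℤ) := hv.1
    obtain ⟨w, hw, huw⟩ := Ln_visit h (by omega : u.1 ≤ k) (by omega : k ≤ v.1)
    have d1 := LnT0_cluster hS hF hw huw.symm
    have d2 := LnT0_cluster hS hF hw (huw.symm.trans h)
    rw [hFF] at d1 d2
    refine ⟨u, hu, v, hv, (d1.symm.trans d2).mono ?_⟩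
    intro e he
    rw [Finset.coe_filter] at he
    exact he.1
  have main := osssB hp (π := π) (LnT0 π (RX s t) k (idx M)) (RX s t) (idx M)
    (LnT_valid _ _ _ _ _ _) hS (fun F => Cn (LX s t) (JX s t) (↑F : Set Edg))
    (fun F G hFG _ h => hmonoC _ _ (by exact_mod_cast hFG) h)
    (by
      intro F F' hF hF' hFF
      refine ⟨hdir F F' hF hFF, hdir F' F hF' ?_⟩
      rw [BT.rev_det _ F F' hFF]
      exact hFF.symm)
  refine main.trans ?_
  apply Finset.sum_le_sum
  intro i _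
  apply mul_le_mul _ _ (Pr_nonneg hp _ _) (Pr_nonneg hp _ _)
  · apply Pr_mono hp
    intro F hF hi
    obtain ⟨e, he, hei, x, w, hx, hw, hr⟩ := LnT0_rev hS hF hi
    have := hbox e x hx
    rw [hei] at this
    exact ⟨x, w, this, hw, hr⟩
  · apply Pr_mono hp
    rintro F hF ⟨h2, h3⟩
    constructor
    · refine hmonoC _ _ ?_ h2
      rw [Finset.coe_union]
      exact Set.union_subset_union_right _ (by exact_mod_cast hfb i)
    · intro h4
      apply h3
      refine hmonoC _ _ ?_ h4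
      rw [Finset.coe_sdiff]
      exact Set.sdiff_subset_sdiff_right (by exact_mod_cast hfb i)

end H974
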