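import Pool.Agent.H974R4.W2.Defs
import Pool.Agent.H12R2.Sep.Win1

/-!
W2, task SL: lower bound for the sum of the block influences.
-/

namespace H974

open H12S Finset

theorem SL_PB_nonneg {q : ℝ} (h0 : 0 ≤ q) (h1 : q ≤ 1) (s t : ℕ) (p : ℤ × ℤ) (ρ : ℕ) :
    0 ≤ PB q s t p ρ :=
  Pr_nonneg (fun _ => ⟨h0, h1⟩) _ _

theorem SB_low_of
    (hwin : ∀ {q κ : ℝ} {N : ℕ}, H12S.Win q κ N → ∀ {n s t : ℕ}, 1 ≤ n → n ≤ N →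
      n ≤ s → s ≤ 2 * n → n ≤ t → t ≤ 2 * n → κ ≤ FB q s t ∧ FB q s t ≤ 1 - κ)
    (hline : ∀ {q : ℝ}, 0 ≤ q → q ≤ 1 → ∀ {s t M g : ℕ}, 1 ≤ g → s + 1 ≤ M → t + 1 ≤ M →
      ∀ {k : ℤ}, (-(s:ℤ) ≤ k ∧ k ≤ s) →
      2 * (FB q s t * (1 - FB q s t)) ≤ ∑ i ∈ idx M,
        PQ q (RX s t) (fun F => TL g i k (↑F : Set Edg)) * PB q s t (gp g i) (2 * g - 1))
    (hrev : ∀ κ : ℝ, 0 < κ → ∃ C c : ℝ, 0 < C ∧ 0 < c ∧ ∀ (q : ℝ) (N : ℕ),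
      H12S.Win q κ N → ∀ n s g : ℕ, 1 ≤ g → g ≤ n → n ≤ N → n ≤ s →
        ∀ (S : Finset Edg) (i : ℤ × ℤ),
        ∑ k ∈ Icc (-(s:ℤ)) s, PQ q S (fun F => TL g i k (↑F : Set Edg)) ≤
          C * ((g:ℝ) / n) ^ c * (2 * s + 1))
    (κ : ℝ) (hκ : 0 < κ) : ∃ c0 α : ℝ, 0 < c0 ∧ 0 < α ∧ ∀ (q : ℝ) (N : ℕ),
    H12S.Win q κ N → ∀ n s t M g : ℕ, 1 ≤ g → g ≤ n → n ≤ N → n ≤ s → s ≤ 2 * n → n ≤ t →
      t ≤ 2 * n → 2 * n + 1 ≤ M → c0 * ((n:ℝ) / g) ^ α ≤ SB q s t M g := by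
  obtain ⟨C, c, hC, hc, hr⟩ := hrev κ hκ
  refine ⟨κ / C, c, by positivity, hc, ?_⟩
  intro q N hW n s t M g hg hgn hnN hns hs2 hnt ht2 hM
  have hn : 1 ≤ n := hg.trans hgn
  have h0 := hW.q0
  have h1 := hW.q1
  obtain ⟨hf1, hf2⟩ := hwin hW hn hnN hns hs2 hnt ht2
  have hκ2 := hW.kle
  have hg0 : (0:ℝ) < g := by exact_mod_cast (by omega : 0 < g)
  have hn0 : (0:ℝ) < n := by exact_mod_cast (by omega : 0 < n)
  have hgn0 : (0:ℝ) < ((g:ℝ) / n) ^ c := Real.rpow_pos_of_pos (div_pos hg0 hn0) c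
  -- lower bound for the variance
  have hvar : κ ≤ 2 * (FB q s t * (1 - FB q s t)) := by
    nlinarith [mul_nonneg (sub_nonneg.2 hf1) (by linarith : (0:ℝ) ≤ 1 - κ - FB q s t)]
  -- sum over the lines
  have hsum : ∑ _k ∈ Icc (-(s:ℤ)) (s:ℤ), κ ≤ ∑ k ∈ Icc (-(s:ℤ)) (s:ℤ), ∑ i ∈ idx M,
      PQ q (RX s t) (fun F => TL g i k (↑F : Set Edg)) * PB q s t (gp g i) (2 * g - 1) := by
    apply Finset.sum_le_sum
    intro k hk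
    rw [Finset.mem_Icc] at hk
    exact hvar.trans (hline h0 h1 hg (by omega) (by omega) hk)
  have hcard : ((Icc (-(s:ℤ)) (s:ℤ)).card : ℝ) = 2 * s + 1 := by
    rw [Int.card_Icc]
    have : ((s:ℤ) + 1 - -(s:ℤ)).toNat = 2 * s + 1 := by omega
    rw [this]
    push_cast
    ring
  rw [Finset.sum_const, nsmul_eq_mul, hcard, Finset.sum_comm] at hsum
  have hupper : ∑ i ∈ idx M, ∑ k ∈ Icc (-(s:ℤ)) (s:ℤ),
      PQ q (RX s t) (fun F => TL g i k (↑F : Set Edg)) * PB q s t (gp g i) (2 * g - 1) ≤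
      (C * ((g:ℝ) / n) ^ c * (2 * s + 1)) * SB q s t M g := by
    unfold SB
    rw [Finset.mul_sum]
    apply Finset.sum_le_sum
    intro i _
    rw [← Finset.sum_mul]
    exact mul_le_mul_of_nonneg_right (hr q N hW n s g hg hgn hnN hns (RX s t) i)
      (SL_PB_nonneg h0 h1 s t _ _)
  have hs1 : (0:ℝ) < 2 * s + 1 := by positivity
  have hmain : κ ≤ C * ((g:ℝ) / n) ^ c * SB q s t M g := by
    have h2 : (2 * (s:ℝ) + 1) * κ ≤ (2 * (s:ℝ) + 1) * (C * ((g:ℝ) / n) ^ c * SB q s t M g) := by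
      calc (2 * (s:ℝ) + 1) * κ ≤ _ := hsum
        _ ≤ (C * ((g:ℝ) / n) ^ c * (2 * s + 1)) * SB q s t M g := hupper
        _ = _ := by ring
    exact le_of_mul_le_mul_left h2 hs1
  have hinv : ((n:ℝ) / g) ^ c = (((g:ℝ) / n) ^ c)⁻¹ := by
    rw [← Real.inv_rpow (div_pos hg0 hn0).le, inv_div]
  rw [hinv, div_mul_eq_mul_div, div_le_iff₀ hC, ← div_eq_mul_inv, div_le_iff₀ hgn0]
  calc κ ≤ C * ((g:ℝ) / n) ^ c * SB q s t M g := hmain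
    _ = SB q s t M g * C * ((g:ℝ) / n) ^ c := by ring

end H974
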