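import Pool.Agent.H974R4.W2.Defs
import Pool.Agent.H12R2.Sep.Win1
import Pool.Agent.H12R2.Sep.Win2

/-!
W2, task RV (helper234): average revealment of the exploration from a vertical line.
-/

namespace H974

open H12S Finset

theorem RV_crs {g R0 : ℕ} {i : ℤ × ℤ} {k : ℤ} {F : Set Edg} (hk : (R0:ℤ) ≤ |k - g * i.1|)
    (h : TL g i k F) : Crs (g * i.1) (g * i.2) g R0 F := by
  obtain ⟨u, w, hu, hw, hr⟩ := h
  refine ⟨u, w, ?_, ?_, hr⟩
  · unfold inR at hu ⊢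
    omega
  · rw [hw]
    rcases le_abs.mp hk with h1 | h1
    · right; left; linarith
    · left; linarith

theorem rev_avg (κ : ℝ) (hκ : 0 < κ) : ∃ C c : ℝ, 0 < C ∧ 0 < c ∧ ∀ (q : ℝ) (N : ℕ),
    H12S.Win q κ N → ∀ n s g : ℕ, 1 ≤ g → g ≤ n → n ≤ N → n ≤ s → ∀ (S : Finset Edg) (i : ℤ × ℤ),
      ∑ k ∈ Icc (-(s:ℤ)) s, PQ q S (fun F => TL g i k (↑F : Set Edg)) ≤
        C * ((g:ℝ) / n) ^ c * (2 * s + 1) := by
  classical
  have hb : WinBlk := fun {q κ n} h {m} hm hmn c1 c2 S => win_blk h hm hmn c1 c2 S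
  obtain ⟨C1, c1, hC1, hc1, harm⟩ := win_arm_of hb κ hκ
  refine ⟨2 + C1, min (1 / 2) (c1 / 2), by positivity, by positivity, ?_⟩
  intro q N hW n s g hg hgn hnN hns S i
  set c : ℝ := min (1 / 2) (c1 / 2) with hc
  have hg0 : (0:ℝ) < g := by exact_mod_cast hg
  have hn0 : (0:ℝ) < n := by exact_mod_cast (lt_of_lt_of_le hg hgn)
  have hgn' : (g:ℝ) ≤ n := by exact_mod_cast hgn
  set R0 : ℕ := ⌈Real.sqrt ((g:ℝ) * n)⌉₊ with hR0
  have hs1 : (g:ℝ) ≤ Real.sqrt ((g:ℝ) * n) := by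
    apply Real.le_sqrt_of_sq_le
    nlinarith
  have hs2 : Real.sqrt ((g:ℝ) * n) ≤ n := by
    rw [Real.sqrt_le_left hn0.le]
    nlinarith
  have hs3 : Real.sqrt ((g:ℝ) * n) ≤ R0 := Nat.le_ceil _
  have hs4 : (R0:ℝ) ≤ Real.sqrt ((g:ℝ) * n) + 1 := (Nat.ceil_lt_add_one (Real.sqrt_nonneg _)).le
  have hgR : g ≤ R0 := by exact_mod_cast hs1.trans hs3
  have hRn : R0 ≤ n := Nat.ceil_le.mpr hs2
  have hR0pos : (0:ℝ) < R0 := lt_of_lt_of_le hg0 (hs1.trans hs3)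
  have hx0 : 0 < (g:ℝ) / n := by positivity
  have hx1 : (g:ℝ) / n ≤ 1 := by rw [div_le_one hn0]; exact hgn'
  -- square root of `g / n`
  have hsq : Real.sqrt ((g:ℝ) * n) = ((g:ℝ) / n) ^ ((1:ℝ) / 2) * n := by
    rw [← Real.sqrt_eq_rpow]
    have : (g:ℝ) * n = (g:ℝ) / n * (n * n) := by field_simp
    rw [this, Real.sqrt_mul hx0.le, Real.sqrt_mul_self hn0.le]
  have hB : ((g:ℝ) / R0) ^ c1 ≤ ((g:ℝ) / n) ^ c := by
    have h1 : (g:ℝ) / R0 ≤ ((g:ℝ) / n) ^ ((1:ℝ) / 2) := by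
      rw [div_le_iff₀ hR0pos]
      have h2 : (g:ℝ) = ((g:ℝ) / n) ^ ((1:ℝ) / 2) * Real.sqrt ((g:ℝ) * n) := by
        rw [hsq, ← mul_assoc, ← Real.rpow_add hx0]
        norm_num
        field_simp
      calc (g:ℝ) = ((g:ℝ) / n) ^ ((1:ℝ) / 2) * Real.sqrt ((g:ℝ) * n) := h2
        _ ≤ _ := mul_le_mul_of_nonneg_left hs3 (by positivity)
    calc ((g:ℝ) / R0) ^ c1 ≤ (((g:ℝ) / n) ^ ((1:ℝ) / 2)) ^ c1 :=
          Real.rpow_le_rpow (by positivity) h1 hc1.le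
      _ = ((g:ℝ) / n) ^ (c1 / 2) := by
          rw [← Real.rpow_mul hx0.le]; congr 1; ring
      _ ≤ ((g:ℝ) / n) ^ c := Real.rpow_le_rpow_of_exponent_ge hx0 hx1 (min_le_right _ _)
  -- termwise bound
  have hterm : ∀ k ∈ Icc (-(s:ℤ)) s, PQ q S (fun F => TL g i k (↑F : Set Edg)) ≤
      (if |k - g * i.1| < (R0:ℤ) then (1:ℝ) else 0) + C1 * ((g:ℝ) / n) ^ c := by
    intro k _
    have hnn : 0 ≤ C1 * ((g:ℝ) / n) ^ c := by positivity
    by_cases hk : |k - g * i.1| < (R0:ℤ)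
    · rw [if_pos hk]
      have := Pr_le_one hW.ok S (fun F : Finset Edg => TL g i k (↑F : Set Edg))
      unfold PQ
      linarith
    · rw [if_neg hk, zero_add]
      push Not at hk
      have h1 : PQ q S (fun F => TL g i k (↑F : Set Edg)) ≤
          PQ q S (fun F => Crs (g * i.1) (g * i.2) g R0 (↑F : Set Edg)) :=
        Pr_mono hW.ok (fun F _ hF => RV_crs hk hF)
      have h2 := (harm q N hW g R0 hg hgR (hRn.trans hnN) (g * i.1) (g * i.2) S).1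
      exact h1.trans (h2.trans (mul_le_mul_of_nonneg_left hB hC1.le))
  have hcard : ∑ k ∈ Icc (-(s:ℤ)) s, (if |k - g * i.1| < (R0:ℤ) then (1:ℝ) else 0) ≤
      2 * R0 := by
    rw [← Finset.sum_filter, Finset.sum_const, nsmul_eq_mul, mul_one]
    have hsub : (Icc (-(s:ℤ)) s).filter (fun k => |k - g * i.1| < (R0:ℤ)) ⊆
        Ioc (g * i.1 - R0) (g * i.1 + R0) := by
      intro k hk
      rw [mem_filter, abs_lt] at hk
      rw [mem_Ioc]
      omega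
    have := card_le_card hsub
    rw [Int.card_Ioc] at this
    have h2 : ((g:ℤ) * i.1 + R0 - (g * i.1 - R0)).toNat = 2 * R0 := by omega
    rw [h2] at this
    exact_mod_cast this
  have hlen : ((Icc (-(s:ℤ)) s).card : ℝ) = 2 * s + 1 := by
    rw [Int.card_Icc]
    have : ((s:ℤ) + 1 - -(s:ℤ)).toNat = 2 * s + 1 := by omega
    rw [this]
    push_cast
    ring
  have hsum := Finset.sum_le_sum hterm
  rw [Finset.sum_add_distrib, Finset.sum_const, nsmul_eq_mul, hlen] at hsum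
  have hfin : (2:ℝ) * R0 ≤ 2 * ((g:ℝ) / n) ^ c * (2 * s + 1) := by
    have h1 : (1:ℝ) ≤ Real.sqrt ((g:ℝ) * n) := by
      have : (1:ℝ) ≤ g := by exact_mod_cast hg
      linarith
    have h2 : Real.sqrt ((g:ℝ) * n) ≤ ((g:ℝ) / n) ^ c * n := by
      rw [hsq]
      exact mul_le_mul_of_nonneg_right
        (Real.rpow_le_rpow_of_exponent_ge hx0 hx1 (min_le_left _ _)) hn0.le
    have h3 : (n:ℝ) ≤ s := by exact_mod_cast hns
    have h4 : 0 < ((g:ℝ) / n) ^ c := by positivity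
    nlinarith [mul_le_mul_of_nonneg_left h3 h4.le]
  calc _ ≤ _ := hsum
    _ ≤ 2 * ((g:ℝ) / n) ^ c * (2 * s + 1) + (2 * s + 1) * (C1 * ((g:ℝ) / n) ^ c) := by
        linarith
    _ = _ := by ring

end H974
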