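import Pool.Agent.H974R4.W2.Top

/-! Blocks near the left or right side (task PS, helper268). -/

namespace H974

open H12S Finset

/-- A crossing of a rectangle contains a crossing of a shorter one. -/
theorem PS_sub {s s' t : ℕ} (hs : 1 ≤ s) (hss : s ≤ s') {G : Set Edg}
    (hG : G ⊆ ↑(RX s' t)) (h : Cn (LX s' t) (JX s' t) G) :
    Cn (LX s t) (JX s t) (G ∩ ↑(RX s t)) := by
  obtain ⟨u, ⟨hu1, hu2, hu3⟩, v, ⟨hv1, hv2, hv3⟩, huv⟩ := h
  obtain ⟨y1, y2, h1, h2, h3, -⟩ := sub_LR (a := -(s:ℤ)) (b := (s:ℤ)) (c := -(t:ℤ)) (d := (t:ℤ))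
    (by omega)
    (by
      intro x y hxy _ _
      have := hG hxy
      simp only [RX, mem_coe, mem_RE_true] at this
      omega)
    (by
      intro x y hxy _ _
      have := hG hxy
      simp only [RX, mem_coe, mem_RE_false] at this
      omega) huv (by omega) (by omega)
  refine ⟨(-(s:ℤ), y1), ⟨rfl, h1⟩, ((s:ℤ), y2), ⟨rfl, h2⟩, h3.mono ?_⟩
  apply Set.inter_subset_inter_right
  exact_mod_cast LRE_subset_RE

/-- Blocks near the left or right side. -/
theorem PB_side {q κ : ℝ} {N : ℕ} (hW : H12S.Win q κ N) {s t g : ℕ} (hg : 1 ≤ g) (hgN : 4 * g ≤ N)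
    (hs : 16 * g + 1 ≤ s) {p : ℤ × ℤ} (h1 : |p.2| + 8 * g ≤ t) (h2 : (s:ℤ) - 8 * g < |p.1|)
    (h3 : |p.1| ≤ s + 2 * g) :
    κ ^ 4 * PB q s t p (2 * g - 1) ≤ FB q (s - 16 * g) t - FB q (s + 16 * g) t := by
  classical
  obtain ⟨h1a, h1b⟩ := abs_le.1 (show |p.2| ≤ (t:ℤ) - 8 * g by linarith)
  have hp1 : ((s:ℤ) - 8 * g < p.1 ∧ p.1 ≤ s + 2 * g) ∨ (p.1 < -((s:ℤ) - 8 * g) ∧
      -((s:ℤ) + 2 * g) ≤ p.1) := by
    rcases abs_cases p.1 with ⟨h, h'⟩ | ⟨h, h'⟩
    · rw [h] at h2 h3
      left; exact ⟨h2, h3⟩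
    · rw [h] at h2 h3
      right; constructor <;> linarith
  set S := RX (s + 16 * g) t with hS
  set U := RX (s - 16 * g) t with hU
  have hWS : RX s t ⊆ S := by
    rw [hS]; unfold RX
    apply RE_subset <;> omega
  have hUW : U ⊆ RX s t := by
    rw [hU]; unfold RX
    apply RE_subset <;> omega
  have hUS : U ⊆ S := hUW.trans hWS
  have hdis : ∀ e ∈ blk p (3 * (2 * g)), e ∉ U := by
    rintro ⟨x, y, _ | _⟩ h h'
    · simp only [hU, blk, RX, mem_RE_false] at h h'
      push_cast at h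
      omega
    · simp only [hU, blk, RX, mem_RE_true] at h h'
      push_cast at h
      omega
  have hb1 : blk p (2 * g - 1) ⊆ blk p (2 * g) := PT_blk (by omega)
  have hb2 : blk p (2 * g) ⊆ blk p (3 * (2 * g)) := PT_blk (by omega)
  have ok := hW.ok
  -- the three events
  set X : Finset Edg → Prop := fun F => ¬ Cn (LX s t) (JX s t)
    ((↑(F ∩ RX s t) : Set Edg) \ ↑(blk p (2 * g))) with hX
  set Y : Finset Edg → Prop := fun F => Cn (LX (s - 16 * g) t) (JX (s - 16 * g) t)
    (↑(F ∩ U) : Set Edg) with hY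
  set Z : Finset Edg → Prop := BSD p (2 * g) with hZ
  have e1 : PB q s t p (2 * g - 1) ≤ PQ q S (fun F => X F ∧ Y F) := by
    rw [PT_marg q hWS]
    apply Pr_mono ok
    rintro F hF ⟨k1, k2⟩
    refine ⟨?_, ?_⟩
    · intro k3
      apply k2
      refine PT_Cn (Set.Subset.refl _) (Set.Subset.refl _) ?_ k3
      rintro e ⟨he, he'⟩
      refine ⟨he, ?_⟩
      intro k4
      exact he' (Finset.mem_coe.2 (hb1 (Finset.mem_inter.1 (Finset.mem_coe.1 k4)).1))
    · have k4 := PS_sub (s := s - 16 * g) (s' := s) (t := t) (by omega) (by omega) (G := _)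
        (by
          apply Set.union_subset
          · exact_mod_cast Finset.inter_subset_right
          · exact_mod_cast Finset.inter_subset_right) k1
      refine PT_Cn (Set.Subset.refl _) (Set.Subset.refl _) ?_ k4
      rintro e ⟨he | he, he'⟩
      · rw [Finset.mem_coe, Finset.mem_inter] at he ⊢
        exact ⟨he.1, Finset.mem_coe.1 he'⟩
      · exact absurd (Finset.mem_coe.1 he')
          (hdis e (hb2 (hb1 (Finset.mem_inter.1 (Finset.mem_coe.1 he)).1)))
  have e2 : κ ^ 4 ≤ PQ q S Z := (win_blk hW (m := 2 * g) (by omega) (by omega) p.1 p.2 S).1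
  have e3 : PQ q S (fun F => X F ∧ Y F) * PQ q S Z ≤ PQ q S (fun F => (X F ∧ Y F) ∧ Z F) := by
    apply harris_cond' ok hUS
    · intro F G hFG _ hF
      simp only [hX, not_not] at hF ⊢
      refine PT_Cn (Set.Subset.refl _) (Set.Subset.refl _) ?_ hF
      apply Set.sdiff_subset_sdiff_left
      exact_mod_cast Finset.inter_subset_inter_right hFG
    · intro F G hFG _ hF
      simp only [hZ, BSD, not_not] at hF ⊢
      exact BS_crs_mono (by exact_mod_cast hFG) hF
    · intro F _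
      rw [hY]
      simp only
      rw [Finset.inter_assoc, Finset.inter_self]
    · intro F _
      rw [hZ, BSD_local, BSD_local p (2 * g) (F \ U)]
      have : F ∩ blk p (3 * (2 * g)) = (F \ U) ∩ blk p (3 * (2 * g)) := by
        ext e
        simp only [Finset.mem_inter, Finset.mem_sdiff]
        constructor
        · rintro ⟨k1, k2⟩
          exact ⟨⟨k1, hdis e k2⟩, k2⟩
        · rintro ⟨⟨k1, -⟩, k2⟩
          exact ⟨k1, k2⟩
      rw [this]
  have e4 : PQ q S (fun F => (X F ∧ Y F) ∧ Z F) ≤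
      FB q (s - 16 * g) t - FB q (s + 16 * g) t := by
    rw [PT_FB q hUS]
    have hA : FB q (s + 16 * g) t = PQ q S (fun F => Cn (LX (s + 16 * g) t) (JX (s + 16 * g) t)
      (↑F : Set Edg)) := rfl
    rw [hA]
    unfold PQ
    rw [← PT_diff (A := fun F => Cn (LX (s - 16 * g) t) (JX (s - 16 * g) t) (↑(F ∩ U) : Set Edg))
      (B := fun F => Cn (LX (s + 16 * g) t) (JX (s + 16 * g) t) (↑F : Set Edg))]
    · apply Pr_mono ok
      rintro F hF ⟨⟨k1, k2⟩, k3⟩
      refine ⟨k2, ?_⟩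
      intro k4
      apply k1
      have k5 := BS_cnD (c := p) (m := 2 * g) (by
        rintro v (⟨hv1, -⟩ | ⟨hv1, -⟩)
        · unfold BSfar
          push_cast at hv1 ⊢
          omega
        · unfold BSfar
          push_cast at hv1 ⊢
          omega) k3 k4
      have k6 := PS_sub (s := s) (s' := s + 16 * g) (t := t) (by omega) (by omega)
        (by
          intro e he
          exact Finset.mem_coe.2 (hF (Finset.mem_coe.1 he.1))) k5
      refine PT_Cn (Set.Subset.refl _) (Set.Subset.refl _) ?_ k6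
      rintro e ⟨⟨he1, he2⟩, he3⟩
      refine ⟨?_, he2⟩
      rw [Finset.mem_coe, Finset.mem_inter]
      exact ⟨Finset.mem_coe.1 he1, Finset.mem_coe.1 he3⟩
    · intro F hF k
      have k6 := PS_sub (s := s - 16 * g) (s' := s + 16 * g) (t := t) (by omega) (by omega)
        (by exact_mod_cast hF) k
      refine PT_Cn (Set.Subset.refl _) (Set.Subset.refl _) ?_ k6
      rintro e ⟨he1, he2⟩
      rw [Finset.mem_coe, Finset.mem_inter]
      exact ⟨Finset.mem_coe.1 he1, Finset.mem_coe.1 he2⟩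
  have hn : 0 ≤ PQ q S (fun F => X F ∧ Y F) := Pr_nonneg ok _ _
  calc κ ^ 4 * PB q s t p (2 * g - 1) ≤ κ ^ 4 * PQ q S (fun F => X F ∧ Y F) :=
        mul_le_mul_of_nonneg_left e1 (by have := hW.kpos; positivity)
    _ ≤ PQ q S Z * PQ q S (fun F => X F ∧ Y F) := mul_le_mul_of_nonneg_right e2 hn
    _ = PQ q S (fun F => X F ∧ Y F) * PQ q S Z := mul_comm _ _
    _ ≤ _ := e3
    _ ≤ _ := e4

end H974
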