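import Pool.Agent.H974R4.W2.Defs

/-!
W2, task SM2: `DB_ge`, `PB_int`, `SB_le`.
-/

namespace H974

open H12S Finset

theorem SM2_sub {s t g : ℕ} {i : ℤ × ℤ} (h : IntB s t g i) {ρ : ℕ} (hρ : ρ ≤ 8 * g) :
    blk (gp g i) ρ ⊆ RX s t := by
  have hρ' : (ρ : ℤ) ≤ 8 * g := by exact_mod_cast hρ
  obtain ⟨h1, h2⟩ := h
  have a1 := neg_abs_le ((g : ℤ) * i.1)
  have a2 := le_abs_self ((g : ℤ) * i.1)
  have a3 := neg_abs_le ((g : ℤ) * i.2)
  have a4 := le_abs_self ((g : ℤ) * i.2)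
  unfold blk RX
  refine RE_subset ?_ ?_ ?_ ?_ <;> simp only [gp] <;> linarith

/-- For interior blocks. -/
theorem PB_int {q : ℝ} {s t g : ℕ} {i : ℤ × ℤ} (h : IntB s t g i) {ρ : ℕ} (hρ : ρ ≤ 8 * g) :
    PB q s t (gp g i) ρ =
      PQ q (RX s t) (fun F => BPv (LX s t) (JX s t) (blk (gp g i) ρ) (↑F : Set Edg)) := by
  unfold PB
  rw [Finset.inter_eq_left.2 (SM2_sub h hρ)]

theorem SM2_ok {q : ℝ} (h0 : 0 ≤ q) (h1 : q ≤ 1) : Ok (fun _ : Edg => q) := fun _ => ⟨h0, h1⟩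

theorem SB_le {q : ℝ} (h0 : 0 ≤ q) (h1 : q ≤ 1) (s t M g : ℕ) :
    SB q s t M g ≤ (2 * M + 1) ^ 2 := by
  unfold SB
  have h : ∀ i ∈ idx M, PB q s t (gp g i) (2 * g - 1) ≤ 1 := fun i _ =>
    Pr_le_one (SM2_ok h0 h1) _ _
  refine (Finset.sum_le_card_nsmul _ _ _ h).trans ?_
  have hc : (idx M).card = (2 * M + 1) ^ 2 := by
    unfold idx
    rw [Finset.card_product, Int.card_Icc]
    have : ((M : ℤ) + 1 - -(M : ℤ)).toNat = 2 * M + 1 := by omega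
    rw [this]
    ring
  rw [hc, nsmul_eq_mul]
  push_cast
  linarith

theorem SM2_one {g : ℕ} (hg : 1 ≤ g) {x j : ℤ} (h1 : g * j - 2 * g ≤ x) (h2 : x ≤ g * j + 2 * g) :
    j ∈ Icc (x / g - 2) (x / g + 2) := by
  have hg' : (0 : ℤ) < g := by exact_mod_cast hg
  rw [mem_Icc]
  have e1 := Int.emod_add_mul_ediv x g
  have e2 := Int.emod_nonneg x hg'.ne'
  have e3 := Int.emod_lt_of_pos x hg'
  constructor
  · by_contra h
    have h3 : j + 1 ≤ x / g - 2 := by omega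
    have h4 := mul_le_mul_of_nonneg_left h3 hg'.le
    nlinarith
  · by_contra h
    have h3 : x / g + 2 + 1 ≤ j := by omega
    have h4 := mul_le_mul_of_nonneg_left h3 hg'.le
    nlinarith

open Classical in
theorem SM2_cnt {g : ℕ} (hg : 1 ≤ g) (I : Finset (ℤ × ℤ)) (e : Edg) :
    ((I.filter (fun i => e ∈ blk (gp g i) (2 * g))).card : ℝ) ≤ 25 := by
  have hsub : I.filter (fun i => e ∈ blk (gp g i) (2 * g)) ⊆
      Icc (e.1 / (g : ℤ) - 2) (e.1 / (g : ℤ) + 2) ×ˢ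
        Icc (e.2.1 / (g : ℤ) - 2) (e.2.1 / (g : ℤ) + 2) := by
    intro i hi
    have h := (mem_filter.1 hi).2
    rw [mem_product]
    obtain ⟨x, y, b⟩ := e
    have h' : g * i.1 - 2 * g ≤ x ∧ x ≤ g * i.1 + 2 * g ∧ g * i.2 - 2 * g ≤ y ∧
        y ≤ g * i.2 + 2 * g := by
      unfold blk gp at h
      cases b
      · rw [mem_RE_false] at h
        push_cast at h
        refine ⟨h.1, h.2.1, h.2.2.1, h.2.2.2.le⟩
      · rw [mem_RE_true] at h
        push_cast at h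
        refine ⟨h.1, h.2.1.le, h.2.2.1, h.2.2.2⟩
    exact ⟨SM2_one hg h'.1 h'.2.1, SM2_one hg h'.2.2.1 h'.2.2.2⟩
  have h2 := card_le_card hsub
  rw [card_product, Int.card_Icc, Int.card_Icc] at h2
  have e1 : (e.1 / (g : ℤ) + 2 + 1 - (e.1 / (g : ℤ) - 2)).toNat = 5 := by omega
  have e2 : (e.2.1 / (g : ℤ) + 2 + 1 - (e.2.1 / (g : ℤ) - 2)).toNat = 5 := by omega
  rw [e1, e2] at h2
  exact_mod_cast h2

open Classical in
theorem DB_ge {q : ℝ} (h0 : 0 ≤ q) (h1 : q ≤ 1) (s t M : ℕ) {g : ℕ} (hg : 1 ≤ g) :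
    ∑ i ∈ (idx M).filter (fun i => IntB s t g i), ∑ e ∈ blk (gp g i) (2 * g),
      PQ q (RX s t) (fun F => Pv (LX s t) (JX s t) e (↑F : Set Edg)) ≤ 25 * DB q s t := by
  obtain ⟨P, hP⟩ : ∃ P : Edg → ℝ, P = fun e =>
      PQ q (RX s t) (fun F => Pv (LX s t) (JX s t) e (↑F : Set Edg)) := ⟨_, rfl⟩
  have hP0 : ∀ e, 0 ≤ P e := fun e => by rw [hP]; exact Pr_nonneg (SM2_ok h0 h1) _ _
  have e1 : ∑ i ∈ (idx M).filter (fun i => IntB s t g i), ∑ e ∈ blk (gp g i) (2 * g),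
      PQ q (RX s t) (fun F => Pv (LX s t) (JX s t) e (↑F : Set Edg)) =
      ∑ i ∈ (idx M).filter (fun i => IntB s t g i), ∑ e ∈ RX s t,
        if e ∈ blk (gp g i) (2 * g) then P e else 0 := by
    refine Finset.sum_congr rfl fun i hi => ?_
    have hsub := SM2_sub (mem_filter.1 hi).2 (show 2 * g ≤ 8 * g by omega)
    rw [← Finset.sum_filter, Finset.filter_mem_eq_inter, Finset.inter_eq_right.2 hsub, hP]
  rw [e1, Finset.sum_comm]
  have e2 : ∀ e ∈ RX s t, ∑ i ∈ (idx M).filter (fun i => IntB s t g i),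
      (if e ∈ blk (gp g i) (2 * g) then P e else 0) ≤ 25 * P e := by
    intro e _
    rw [← Finset.sum_filter, Finset.sum_const, nsmul_eq_mul]
    exact mul_le_mul_of_nonneg_right (SM2_cnt hg _ e) (hP0 e)
  refine (Finset.sum_le_sum e2).trans (le_of_eq ?_)
  rw [← Finset.mul_sum]
  unfold DB
  rw [hP]

end H974
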