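import Pool.Agent.H974R4.W2.FB
import Pool.Agent.H974R4.W2.Line
import Pool.Agent.H974R4.W2.Rev
import Pool.Agent.H974R4.W2.Low
import Pool.Agent.H974R4.W2.Side
import Pool.Agent.H974R4.W2.BdrySum
import Pool.Agent.H974R4.W2.Sums
import Pool.Agent.H974R4.W2.Sums2
import Pool.Agent.H974R4.W2.Dpig
import Pool.Agent.H974R4.W2.KeyS

/-! W2: closing of the tasks. -/

namespace H974

open H12S Finset

theorem SB_low (κ : ℝ) (hκ : 0 < κ) : ∃ c0 α : ℝ, 0 < c0 ∧ 0 < α ∧ ∀ (q : ℝ) (N : ℕ),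
    H12S.Win q κ N → ∀ n s t M g : ℕ, 1 ≤ g → g ≤ n → n ≤ N → n ≤ s → s ≤ 2 * n → n ≤ t →
      t ≤ 2 * n → 2 * n + 1 ≤ M → c0 * ((n:ℝ) / g) ^ α ≤ SB q s t M g :=
  SB_low_of (fun hW _ _ _ hn hnN hs hs2 ht ht2 => FB_win hW hn hnN hs hs2 ht ht2)
    (fun h0 h1 _ _ _ _ hg hs ht _ hk => bosss_line h0 h1 hg hs ht hk) rev_avg κ hκ

open Classical in
theorem SB_bdry (κ : ℝ) (hκ : 0 < κ) : ∃ C : ℝ, 0 < C ∧ ∀ (q : ℝ) (N : ℕ), H12S.Win q κ N →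
    ∀ n M g : ℕ, 1 ≤ g → 100 * g ≤ n → n ≤ N →
      ∑ s ∈ Icc n (2 * n), ∑ t ∈ Icc n (2 * n),
        ∑ i ∈ (idx M).filter (fun i => ¬ IntB s t g i), PB q s t (gp g i) (2 * g - 1) ≤
        C * ((n:ℝ) + 1) ^ 2 :=
  SB_bdry_of (fun h0 h1 s t => FB_nonneg h0 h1 s t) (fun h0 h1 s t => FB_le_one h0 h1 s t)
    (fun hW _ _ _ hg hgN ht _ h1 h2 h3 => PB_top hW hg hgN ht h1 h2 h3)
    (fun hW _ _ _ hg hgN hs _ h1 h2 h3 => PB_side hW hg hgN hs h1 h2 h3)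
    (fun hg _ h => PB_out hg h) κ hκ

end H974
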