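import Pool.Agent.H974R4.W2.FinD
import Pool.Agent.H974R4.Far
import Pool.Agent.H973R4.Close
import Pool.Agent.H973R4.InwardF
import Pool.Agent.H12R2.Sep.Exit5

/-! W2 closed: the end of the scaling window, with no hypothesis. -/

namespace H974

open H12S Finset

theorem stIn : StIn := fun κ hκ δ hδ => H12S.inward_closed κ hκ δ hδ

theorem stLow : StLow := H973N.stab_lower0

theorem exit3 : Exit3 := fun κ hκ => H12S.exit_prob3 κ hκ

/-- The end of the scaling window. -/
theorem stW2 : StW2 := w2_of exit3 stIn stLow

end H974
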