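import Pool.Agent.H974R4.Defs
import Pool.Agent.H974R4.BOsss
import Pool.Agent.H12R2.Sep.Defs5

/-!
W2 (the end of the scaling window): definitions.
-/

namespace H974

open H12S Finset

/-- Edges of the rectangle `[-s, s] × [-t, t]`. -/
noncomputable def RX (s t : ℕ) : Finset Edg := RE (-(s:ℤ)) s (-(t:ℤ)) t

/-- Left side. -/
def LX (s t : ℕ) : Set Vtx := lsd (-(s:ℤ)) (-(t:ℤ)) t

/-- Right side. -/
def JX (s t : ℕ) : Set Vtx := lsd (s:ℤ) (-(t:ℤ)) t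

/-- Crossing probability of the rectangle. -/
noncomputable def FB (q : ℝ) (s t : ℕ) : ℝ :=
  PQ q (RX s t) (fun F => Cn (LX s t) (JX s t) (↑F : Set Edg))

/-- Its derivative. -/
noncomputable def DB (q : ℝ) (s t : ℕ) : ℝ :=
  ∑ e ∈ RX s t, PQ q (RX s t) (fun F => Pv (LX s t) (JX s t) e (↑F : Set Edg))

/-- Grid points. -/
def gp (g : ℕ) (i : ℤ × ℤ) : ℤ × ℤ := (g * i.1, g * i.2)

/-- Probability that the part of the block of radius `ρ` around `p` in the rectangle is pivotal. -/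
noncomputable def PB (q : ℝ) (s t : ℕ) (p : ℤ × ℤ) (ρ : ℕ) : ℝ :=
  PQ q (RX s t) (fun F => BPv (LX s t) (JX s t) (blk p ρ ∩ RX s t) (↑F : Set Edg))

/-- Indices. -/
noncomputable def idx (M : ℕ) : Finset (ℤ × ℤ) := Icc (-(M:ℤ)) M ×ˢ Icc (-(M:ℤ)) M

/-- Sum over the blocks of radius `2g - 1` around the points of the grid of mesh `g`. -/
noncomputable def SB (q : ℝ) (s t M g : ℕ) : ℝ := ∑ i ∈ idx M, PB q s t (gp g i) (2 * g - 1)

/-- The square `[g i₁, g i₁ + g] × [g i₂, g i₂ + g]` is connected to the line `x = k`. -/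
def TL (g : ℕ) (i : ℤ × ℤ) (k : ℤ) (F : Set Edg) : Prop :=
  ∃ u w : Vtx, inR (g * i.1) (g * i.1 + g) (g * i.2) (g * i.2 + g) u ∧ w.1 = k ∧ Reach F u w

/-- Interior grid points. -/
def IntB (s t g : ℕ) (i : ℤ × ℤ) : Prop :=
  |(g:ℤ) * i.1| + 8 * g ≤ s ∧ |(g:ℤ) * i.2| + 8 * g ≤ t

end H974
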