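import Pool.Agent.H974R4.W2.Defs
import Pool.Agent.H974R2.Diff

/-!
W2, task FBB (helper992): crossing probability of the rectangle `[-s, s] × [-t, t]`.
-/

set_option maxHeartbeats 400000

namespace H974

open H12S Finset

theorem FBB_ok {q : ℝ} (h0 : 0 ≤ q) (h1 : q ≤ 1) : Ok (fun _ : Edg => q) := fun _ => ⟨h0, h1⟩

theorem FBB_Cn_mono {I J : Set Vtx} {F G : Set Edg} (h : F ⊆ G) (hF : Cn I J F) : Cn I J G := by
  obtain ⟨u, hu, v, hv, hr⟩ := hF
  exact ⟨u, hu, v, hv, hr.mono h⟩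

theorem FBB_LRc {s t : ℕ} (hs : 1 ≤ s) {F : Finset Edg} (hF : F ⊆ RX s t) :
    Cn (LX s t) (JX s t) (↑F : Set Edg) ↔ LRc (-(s:ℤ)) s (-(t:ℤ)) t F := by
  constructor
  · rintro ⟨u, hu, v, hv, hr⟩
    have h1 : (↑F : Set Edg) ∩ ↑(RE (-(s:ℤ)) s (-(t:ℤ)) t) = ↑F := by
      rw [Set.inter_eq_left]
      exact_mod_cast hF
    apply LRc_of_reach (u := u) (v := v) (by omega)
    · rw [h1]
      exact hr
    · exact hu.1
    · exact hv.1
  · rintro ⟨y, y', h1, h2, h3⟩
    refine ⟨(-(s:ℤ), y), ⟨rfl, h1.1, h1.2⟩, ((s:ℤ), y'), ⟨rfl, h2.1, h2.2⟩, h3.mono ?_⟩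
    exact Set.inter_subset_left

theorem FBB_LRE_sub (s t : ℕ) : LRE (-(s:ℤ)) s (-(t:ℤ)) t ⊆ RX s t := by
  rintro ⟨x, y, _ | _⟩ h
  · rw [mem_LRE_false] at h
    unfold RX
    rw [mem_RE_false]
    omega
  · rw [mem_LRE_true] at h
    unfold RX
    rw [mem_RE_true]
    omega

theorem FB_hh (q : ℝ) (s t : ℕ) (hs : 1 ≤ s) : FB q s t = hh q (2 * s) (2 * t) := by
  unfold FB PQ
  rw [Pr_congr (fun F hF => FBB_LRc hs hF)]
  rw [pr_LRc q (FBB_LRE_sub s t)]
  congr 1 <;> ring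

theorem FB_nonneg {q : ℝ} (h0 : 0 ≤ q) (h1 : q ≤ 1) (s t : ℕ) : 0 ≤ FB q s t :=
  Pr_nonneg (FBB_ok h0 h1) _ _

theorem FB_le_one {q : ℝ} (h0 : 0 ≤ q) (h1 : q ≤ 1) (s t : ℕ) : FB q s t ≤ 1 :=
  Pr_le_one (FBB_ok h0 h1) _ _

theorem FB_win {q κ : ℝ} {N : ℕ} (hW : H12S.Win q κ N) {n s t : ℕ} (hn : 1 ≤ n) (hnN : n ≤ N)
    (hs : n ≤ s) (hs2 : s ≤ 2 * n) (ht : n ≤ t) (ht2 : t ≤ 2 * n) :
    κ ≤ FB q s t ∧ FB q s t ≤ 1 - κ := by
  have h0 : 0 ≤ q := by linarith [hW.lo]
  have h1 : q ≤ 1 := by linarith [hW.hi]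
  rw [FB_hh q s t (by omega)]
  constructor
  · refine (hW.pri n hn hnN).trans ?_
    exact hh_mono h0 h1 (by omega) (by omega) (by omega)
  · rw [hh_dual (by omega) (by omega)]
    have h2 : κ ≤ hh (1 - q) (2 * (t:ℤ) + 1) (2 * (s:ℤ) - 1) := by
      refine (hW.dua n hn hnN).trans ?_
      exact hh_mono (by linarith) (by linarith) (by omega) (by omega) (by omega)
    linarith

theorem FBB_pv (q : ℝ) (I J : Set Vtx) (S : Finset Edg) (e : Edg) (he : e ∈ S) :
    Ex (fun _ => q) (S.erase e)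
      (fun F => ind (Cn I J (↑(insert e F) : Set Edg)) - ind (Cn I J (↑F : Set Edg))) =
    PQ q S (fun F => Pv I J e ↑F) := by
  have hne : e ∉ S.erase e := Finset.notMem_erase _ _
  have key : ∀ F, F ⊆ S.erase e →
      ind (Pv I J e (↑F : Set Edg)) =
        ind (Cn I J (↑(insert e F) : Set Edg)) - ind (Cn I J (↑F : Set Edg)) ∧
      ind (Pv I J e (↑(insert e F) : Set Edg)) =
        ind (Cn I J (↑(insert e F) : Set Edg)) - ind (Cn I J (↑F : Set Edg)) := by
    intro F hF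
    have heF : e ∉ F := fun h => hne (hF h)
    have e1 : (↑F : Set Edg) \ {e} = ↑F := by
      ext x
      constructor
      · exact fun h => h.1
      · exact fun h => ⟨h, fun h' => heF (by rw [Set.mem_singleton_iff] at h'; rwa [← h'])⟩
    have e2 : (↑(insert e F) : Set Edg) \ {e} = ↑F := by
      rw [Finset.coe_insert]
      ext x
      constructor
      · rintro ⟨h | h, h'⟩
        · exact absurd h h'
        · exact h
      · exact fun h => ⟨Or.inr h, fun h' => heF (by rw [Set.mem_singleton_iff] at h'; rwa [← h'])⟩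
    have e3 : insert e (↑F : Set Edg) = ↑(insert e F) := by rw [Finset.coe_insert]
    have e4 : insert e (↑(insert e F) : Set Edg) = ↑(insert e F) := by
      rw [Finset.coe_insert, Set.insert_eq_of_mem (Set.mem_insert _ _)]
    have h4 : ind (Cn I J (↑(insert e F) : Set Edg) ∧ ¬ Cn I J (↑F : Set Edg)) =
        ind (Cn I J (↑(insert e F) : Set Edg)) - ind (Cn I J (↑F : Set Edg)) := by
      by_cases a : Cn I J (↑F : Set Edg)
      · have b : Cn I J (↑(insert e F) : Set Edg) :=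
          FBB_Cn_mono (by exact_mod_cast Finset.subset_insert e F) a
        rw [ind_of a, ind_of b, ind_not_of (fun h => h.2 a)]
        ring
      · by_cases b : Cn I J (↑(insert e F) : Set Edg)
        · rw [ind_not_of a, ind_of b, ind_of ⟨b, a⟩]
          ring
        · rw [ind_not_of a, ind_not_of b, ind_not_of (fun h => b h.1)]
          ring
    rw [← h4]
    constructor
    · apply ind_congr
      unfold Pv
      rw [e1, e3]
    · apply ind_congr
      unfold Pv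
      rw [e2, e4]
  unfold PQ Pr
  conv_rhs => rw [← Finset.insert_erase he]
  rw [Ex_insert _ hne]
  have k1 : Ex (fun _ => q) (S.erase e)
      (fun F => ind (Pv I J e (↑(insert e F) : Set Edg))) =
      Ex (fun _ => q) (S.erase e)
      (fun F => ind (Cn I J (↑(insert e F) : Set Edg)) - ind (Cn I J (↑F : Set Edg))) :=
    Ex_congr fun F hF => (key F hF).2
  have k2 : Ex (fun _ => q) (S.erase e)
      (fun F => ind (Pv I J e (↑F : Set Edg))) =
      Ex (fun _ => q) (S.erase e)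
      (fun F => ind (Cn I J (↑(insert e F) : Set Edg)) - ind (Cn I J (↑F : Set Edg))) :=
    Ex_congr fun F hF => (key F hF).1
  rw [k1, k2]
  ring

theorem FB_deriv (q : ℝ) (s t : ℕ) : HasDerivAt (fun q => FB q s t) (DB q s t) q := by
  have h := Ex_hasDerivAt (fun (q : ℝ) (_ : Edg) => q) (fun _ => 1) q (fun _ => hasDerivAt_id q)
    (RX s t) (fun F => ind (Cn (LX s t) (JX s t) (↑F : Set Edg)))
  simp only [one_mul] at h
  have h2 : (∑ e ∈ RX s t, Ex (fun _ => q) ((RX s t).erase e) fun F =>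
      ind (Cn (LX s t) (JX s t) (↑(insert e F) : Set Edg)) -
        ind (Cn (LX s t) (JX s t) (↑F : Set Edg))) = DB q s t := by
    unfold DB
    exact Finset.sum_congr rfl fun e he => FBB_pv q _ _ _ e he
  rw [h2] at h
  exact h

theorem DB_nonneg {q : ℝ} (h0 : 0 ≤ q) (h1 : q ≤ 1) (s t : ℕ) : 0 ≤ DB q s t :=
  Finset.sum_nonneg fun _ _ => Pr_nonneg (FBB_ok h0 h1) _ _

end H974
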