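import Pool.Agent.H974R4.W2.All
import Pool.Agent.H12R2.Sep.Key1

/-!
W2, task B9, part 1: the inequality at one scale.
-/

namespace H974

open H12S Finset

/-- Sum over the rectangles. -/
noncomputable def WS (q : ℝ) (n g : ℕ) : ℝ :=
  ∑ s ∈ Icc n (2 * n), ∑ t ∈ Icc n (2 * n), SB q s t (2 * n + 1) g

/-- Sum of the derivatives over the rectangles. -/
noncomputable def WD (q : ℝ) (n : ℕ) : ℝ :=
  ∑ s ∈ Icc n (2 * n), ∑ t ∈ Icc n (2 * n), DB q s t

/-- The inward inequality at one scale, in the rectangles `RX s t`. -/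
def InSc (q : ℝ) (n g : ℕ) (δ X Cin : ℝ) : Prop :=
  ∀ s ∈ Icc n (2 * n), ∀ t ∈ Icc n (2 * n), ∀ i : ℤ × ℤ, IntB s t g i →
    (PQ q (RX s t) (fun F => BPv (LX s t) (JX s t) (blk (gp g i) (2 * g - 1)) (↑F : Set Edg)) -
      δ * PQ q (RX s t) (fun F => BPv (LX s t) (JX s t) (blk (gp g i) (3 * (2 * g)))
        (↑F : Set Edg))) * X ≤
      Cin * ∑ e ∈ blk (gp g i) (2 * g),
        PQ q (RX s t) (fun F => Pv (LX s t) (JX s t) e (↑F : Set Edg))

theorem scale_bd (κ : ℝ) (hκ : 0 < κ) : ∃ Cb : ℝ, 0 < Cb ∧ ∀ (q : ℝ) (N : ℕ), H12S.Win q κ N →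
    ∀ n g : ℕ, 1 ≤ g → 100 * g ≤ n → n ≤ N → ∀ δ X Cin : ℝ, 0 ≤ δ → 0 ≤ X → 0 ≤ Cin →
      InSc q n g δ X Cin →
      (WS q n g - Cb * ((n:ℝ) + 1) ^ 2 - 36 * δ * WS q n (6 * g)) * X ≤ 25 * Cin * WD q n := by
  classical
  obtain ⟨Cb, hCb, hb⟩ := SB_bdry κ hκ
  refine ⟨Cb, hCb, ?_⟩
  intro q N hW n g hg hgn hnN δ X Cin hδ hX hCin hin
  have h0 : 0 ≤ q := by linarith [hW.lo]
  have h1 : q ≤ 1 := by linarith [hW.hi]
  have hbd := hb q N hW n (2 * n + 1) g hg hgn hnN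
  -- one rectangle
  have hone : ∀ s ∈ Icc n (2 * n), ∀ t ∈ Icc n (2 * n),
      ((∑ i ∈ (idx (2 * n + 1)).filter (fun i => IntB s t g i), PB q s t (gp g i) (2 * g - 1)) -
        36 * δ * SB q s t (2 * n + 1) (6 * g)) * X ≤ 25 * Cin * DB q s t := by
    intro s hs t ht
    have e1 : ∑ i ∈ (idx (2 * n + 1)).filter (fun i => IntB s t g i),
        PB q s t (gp g i) (2 * g - 1) = ∑ i ∈ (idx (2 * n + 1)).filter (fun i => IntB s t g i),
        PQ q (RX s t) (fun F => BPv (LX s t) (JX s t) (blk (gp g i) (2 * g - 1))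
          (↑F : Set Edg)) := by
      apply Finset.sum_congr rfl
      intro i hi
      exact PB_int (Finset.mem_filter.mp hi).2 (by omega)
    have e2 := SB_plus h0 h1 s t (2 * n + 1) hg
    have e3 := DB_ge h0 h1 s t (2 * n + 1) hg
    have e4 : ∑ i ∈ (idx (2 * n + 1)).filter (fun i => IntB s t g i),
        ((PQ q (RX s t) (fun F => BPv (LX s t) (JX s t) (blk (gp g i) (2 * g - 1)) (↑F : Set Edg)) -
      δ * PQ q (RX s t) (fun F => BPv (LX s t) (JX s t) (blk (gp g i) (3 * (2 * g)))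
        (↑F : Set Edg))) * X) ≤ ∑ i ∈ (idx (2 * n + 1)).filter (fun i => IntB s t g i),
      (Cin * ∑ e ∈ blk (gp g i) (2 * g),
        PQ q (RX s t) (fun F => Pv (LX s t) (JX s t) e (↑F : Set Edg))) := by
      apply Finset.sum_le_sum
      intro i hi
      exact hin s hs t ht i (Finset.mem_filter.mp hi).2
    rw [← Finset.mul_sum, ← Finset.sum_mul, Finset.sum_sub_distrib, ← Finset.mul_sum, ← e1] at e4
    have e5 : Cin * ∑ i ∈ (idx (2 * n + 1)).filter (fun i => IntB s t g i),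
        ∑ e ∈ blk (gp g i) (2 * g),
        PQ q (RX s t) (fun F => Pv (LX s t) (JX s t) e (↑F : Set Edg)) ≤ Cin * (25 * DB q s t) :=
      mul_le_mul_of_nonneg_left e3 hCin
    have e6 : δ * ∑ i ∈ (idx (2 * n + 1)).filter (fun i => IntB s t g i),
        PQ q (RX s t) (fun F => BPv (LX s t) (JX s t) (blk (gp g i) (3 * (2 * g)))
        (↑F : Set Edg)) ≤ δ * (36 * SB q s t (2 * n + 1) (6 * g)) :=
      mul_le_mul_of_nonneg_left e2 hδ
    calc _ ≤ ((∑ i ∈ (idx (2 * n + 1)).filter (fun i => IntB s t g i),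
              PB q s t (gp g i) (2 * g - 1)) -
            δ * ∑ i ∈ (idx (2 * n + 1)).filter (fun i => IntB s t g i),
              PQ q (RX s t) (fun F => BPv (LX s t) (JX s t) (blk (gp g i) (3 * (2 * g)))
              (↑F : Set Edg))) * X := by
          apply mul_le_mul_of_nonneg_right _ hX
          linarith
      _ ≤ _ := e4
      _ ≤ _ := e5
      _ = _ := by ring
  -- sum
  have hsum : ∑ s ∈ Icc n (2 * n), ∑ t ∈ Icc n (2 * n),
      (((∑ i ∈ (idx (2 * n + 1)).filter (fun i => IntB s t g i), PB q s t (gp g i) (2 * g - 1)) -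
        36 * δ * SB q s t (2 * n + 1) (6 * g)) * X) ≤
      ∑ s ∈ Icc n (2 * n), ∑ t ∈ Icc n (2 * n), (25 * Cin * DB q s t) :=
    Finset.sum_le_sum fun s hs => Finset.sum_le_sum fun t ht => hone s hs t ht
  simp only [← Finset.mul_sum, ← Finset.sum_mul, Finset.sum_sub_distrib] at hsum
  have hsplit : WS q n g = (∑ s ∈ Icc n (2 * n), ∑ t ∈ Icc n (2 * n),
      ∑ i ∈ (idx (2 * n + 1)).filter (fun i => IntB s t g i), PB q s t (gp g i) (2 * g - 1)) +
      ∑ s ∈ Icc n (2 * n), ∑ t ∈ Icc n (2 * n),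
      ∑ i ∈ (idx (2 * n + 1)).filter (fun i => ¬ IntB s t g i), PB q s t (gp g i) (2 * g - 1) := by
    unfold WS SB
    rw [← Finset.sum_add_distrib]
    apply Finset.sum_congr rfl
    intro s _
    rw [← Finset.sum_add_distrib]
    apply Finset.sum_congr rfl
    intro t _
    exact (Finset.sum_filter_add_sum_filter_not _ _ _).symm
  refine le_trans ?_ hsum
  apply mul_le_mul_of_nonneg_right _ hX
  have : WS q n (6 * g) = ∑ s ∈ Icc n (2 * n), ∑ t ∈ Icc n (2 * n),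
      SB q s t (2 * n + 1) (6 * g) := rfl
  rw [← this]
  linarith

/-- Lower bound for `WS`. -/
theorem WS_low (κ : ℝ) (hκ : 0 < κ) : ∃ c0 α : ℝ, 0 < c0 ∧ 0 < α ∧ ∀ (q : ℝ) (N : ℕ),
    H12S.Win q κ N → ∀ n g : ℕ, 1 ≤ g → g ≤ n → n ≤ N →
      c0 * ((n:ℝ) / g) ^ α * ((n:ℝ) + 1) ^ 2 ≤ WS q n g := by
  obtain ⟨c0, α, hc0, hα, h⟩ := SB_low κ hκ
  refine ⟨c0, α, hc0, hα, ?_⟩
  intro q N hW n g hg hgn hnN
  have hcard : ((Icc n (2 * n)).card : ℝ) = (n:ℝ) + 1 := by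
    rw [Nat.card_Icc]
    have : 2 * n + 1 - n = n + 1 := by omega
    rw [this]; push_cast; ring
  unfold WS
  have h1 : ∀ s ∈ Icc n (2 * n), ((n:ℝ) + 1) * (c0 * ((n:ℝ) / g) ^ α) ≤
      ∑ t ∈ Icc n (2 * n), SB q s t (2 * n + 1) g := by
    intro s hs
    rw [← hcard, ← nsmul_eq_mul]
    apply Finset.card_nsmul_le_sum
    intro t ht
    rw [Finset.mem_Icc] at hs ht
    exact h q N hW n s t (2 * n + 1) g hg hgn hnN hs.1 hs.2 ht.1 ht.2 (by omega)
  have h2 := Finset.card_nsmul_le_sum _ _ _ h1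
  rw [nsmul_eq_mul, hcard] at h2
  linarith

/-- Upper bound for `WS`. -/
theorem WS_up {q : ℝ} (h0 : 0 ≤ q) (h1 : q ≤ 1) (n g : ℕ) :
    WS q n g ≤ ((n:ℝ) + 1) ^ 2 * (4 * n + 3) ^ 2 := by
  have hcard : ((Icc n (2 * n)).card : ℝ) = (n:ℝ) + 1 := by
    rw [Nat.card_Icc]
    have : 2 * n + 1 - n = n + 1 := by omega
    rw [this]; push_cast; ring
  unfold WS
  have h2 : ∀ s ∈ Icc n (2 * n),
      ∑ t ∈ Icc n (2 * n), SB q s t (2 * n + 1) g ≤ ((n:ℝ) + 1) * ((4 * n + 3) ^ 2) := by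
    intro s hs
    rw [← hcard, ← nsmul_eq_mul]
    apply Finset.sum_le_card_nsmul
    intro t ht
    refine (SB_le h0 h1 s t (2 * n + 1) g).trans (le_of_eq ?_)
    push_cast; ring
  have h3 := Finset.sum_le_card_nsmul _ _ _ h2
  rw [nsmul_eq_mul, hcard] at h3
  linarith

theorem WS_six {q : ℝ} (h0 : 0 ≤ q) (h1 : q ≤ 1) (n : ℕ) {g : ℕ} (hg : 1 ≤ g) :
    WS q n g ≤ 36 * WS q n (6 * g) := by
  unfold WS
  rw [Finset.mul_sum]
  apply Finset.sum_le_sum
  intro s _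
  rw [Finset.mul_sum]
  apply Finset.sum_le_sum
  intro t _
  exact SB_six h0 h1 s t _ hg

/-- Integration. -/
theorem WD_int {q1 q2 : ℝ} (h0 : 0 ≤ q1) (h12 : q1 ≤ q2) (h1 : q2 ≤ 1) (n : ℕ) {Y : ℝ}
    (h : ∀ q ∈ Set.Icc q1 q2, Y ≤ WD q n) : Y * (q2 - q1) ≤ ((n:ℝ) + 1) ^ 2 := by
  set f : ℝ → ℝ := fun q => ∑ s ∈ Icc n (2 * n), ∑ t ∈ Icc n (2 * n), FB q s t with hf
  have hd : ∀ q : ℝ, HasDerivAt f (WD q n) q := by
    intro q
    unfold WD
    apply HasDerivAt.fun_sum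
    intro s _
    apply HasDerivAt.fun_sum
    intro t _
    exact FB_deriv q s t
  have hcard : ((Icc n (2 * n)).card : ℝ) = (n:ℝ) + 1 := by
    rw [Nat.card_Icc]
    have : 2 * n + 1 - n = n + 1 := by omega
    rw [this]; push_cast; ring
  have hf0 : 0 ≤ f q1 := by
    apply Finset.sum_nonneg
    intro s _
    apply Finset.sum_nonneg
    intro t _
    exact FB_nonneg h0 (h12.trans h1) s t
  have hf1 : f q2 ≤ ((n:ℝ) + 1) ^ 2 := by
    have h2 : ∀ s ∈ Icc n (2 * n), ∑ t ∈ Icc n (2 * n), FB q2 s t ≤ ((n:ℝ) + 1) := by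
      intro s hs
      have := Finset.sum_le_card_nsmul (Icc n (2 * n)) (fun t => FB q2 s t) 1
        (fun t _ => FB_le_one (h0.trans h12) h1 s t)
      rw [nsmul_eq_mul, hcard, mul_one] at this
      exact this
    have h3 := Finset.sum_le_card_nsmul _ _ _ h2
    rw [nsmul_eq_mul, hcard] at h3
    calc f q2 ≤ _ := h3
      _ = _ := by ring
  have hmv : Y * (q2 - q1) ≤ f q2 - f q1 := by
    have hdiff : Differentiable ℝ f := fun q => (hd q).differentiableAt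
    refine (convex_Icc q1 q2).mul_sub_le_image_sub_of_le_deriv hdiff.continuous.continuousOn
      hdiff.differentiableOn ?_ q1 ?_ q2 ?_ h12
    · intro q hq
      rw [(hd q).deriv]
      exact h q (interior_subset hq)
    · exact ⟨le_rfl, h12⟩
    · exact ⟨h12, le_rfl⟩
  linarith

end H974
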