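import Pool.Agent.H974R4.W2.FinA

/-!
W2, task B9, part 2: choice of the scales.
-/

namespace H974

open H12S Finset

/-- The statement of `H12S.inward`. -/
def StIn : Prop := ∀ κ : ℝ, 0 < κ → ∀ δ : ℝ, 0 < δ → ∃ t M20 : ℕ, 1 ≤ t ∧
    ∀ (L M1 M2 : ℕ), 2 ≤ L → 64 ≤ M1 → 8 * M1 ≤ M2 → M20 ≤ M2 → ∀ C1 : ℝ, 0 < C1 →
    ∃ (Mr : ℕ) (C : ℝ), 1 ≤ Mr ∧ 0 < C ∧ ∀ (q : ℝ) (n : ℕ), H12S.Win q κ n →
      ∀ (r m s : ℕ), Mr ≤ r →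
      m = M2 * r → s = 256 * t * L * m → s ≤ n → a4 q (m / 8) ≤ C1 * a4 q (4 * L * m) →
      ∀ (σ1 σ2 : Bool) (k1 k2 : ℤ), |2 * k1| ≤ L * M2 + 1 → |2 * k2| ≤ L * M2 + 1 →
      (m:ℝ) ^ 2 * a4 q (4 * L * m) ≤ C1 * TS q L m r (m / M1) σ1 k1 σ2 k2 →
      ∀ (a b c d : ℤ) (p : ℤ × ℤ), a + 4 * s ≤ p.1 → p.1 + 4 * s ≤ b → c + 4 * s ≤ p.2 →
      p.2 + 4 * s ≤ d →
      (PQ q (RE a b c d) (fun F => BPv (lsd a c d) (lsd b c d) (blk p (s - 1)) ↑F) -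
        δ * PQ q (RE a b c d) (fun F => BPv (lsd a c d) (lsd b c d) (blk p (3 * s)) ↑F)) *
          ((m:ℝ) ^ 2 * a4 q (4 * L * m)) ≤
        C * ∑ e ∈ blk p s, PQ q (RE a b c d) (fun F => Pv (lsd a c d) (lsd b c d) e ↑F)

/-- The conclusion of `H973N.stab_lower`. -/
def StLow : Prop := ∀ ε : ℝ, 0 < ε → ε ≤ 1 / 8 → ∃ C : ℝ, 1 ≤ C ∧ ∀ n : ℕ, 1 ≤ n → ∀ q : ℝ,
      |q - 1/2| ≤ (n:ℝ) ^ (-(3/4 : ℝ) - ε) / C →
        ∀ k : ℕ, 1 ≤ k → (k:ℝ) ≤ (n:ℝ) ^ (1 - ε) / C →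
          (k:ℝ) ^ (-(5/4 : ℝ) - ε) / C ≤ a4 q k

/-- The inward inequality at a regular scale. -/
theorem good_scale (hE : Exit3) (hI : StIn) (κ : ℝ) (hκ : 0 < κ) (p δ : ℝ) (hp : 0 < p)
    (hδ : 0 < δ) : ∃ (L M2 G0 Mr : ℕ) (Cin : ℝ), 2 ≤ L ∧ 8 ≤ M2 ∧ 1 ≤ G0 ∧ 1 ≤ Mr ∧ 0 < Cin ∧
      ∀ (q : ℝ) (n : ℕ), H12S.Win q κ n → ∀ r : ℕ, Mr ≤ r → 2 * (G0 * r) ≤ n →
        a4 q ((M2 * r) / 8) ≤ (192 * (L:ℝ)) ^ p * a4 q (4 * L * (M2 * r)) →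
        InSc q n (G0 * r) δ (((M2 * r : ℕ) : ℝ) ^ 2 * a4 q (4 * L * (M2 * r))) Cin := by
  obtain ⟨t, M20, ht, hin⟩ := hI κ hκ δ hδ
  obtain ⟨L, M1, M2, C1, hL, hM1, hM2, hM20, hC1, hkey⟩ := key_scale hE κ hκ p hp M20
  set C1' : ℝ := max C1 ((192 * (L:ℝ)) ^ p) with hC1'
  have hC1'0 : 0 < C1' := lt_of_lt_of_le hC1 (le_max_left _ _)
  obtain ⟨Mr, Cin, hMr, hCin, hin⟩ := hin L M1 M2 hL hM1 hM2 hM20 C1' hC1'0
  have hG : 1 ≤ 128 * t * L * M2 := by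
    have : 0 < 128 * t * L * M2 := by
      have : 0 < t := ht
      have : 0 < L := by omega
      have : 0 < M2 := by omega
      positivity
    exact this
  refine ⟨L, M2, 128 * t * L * M2, Mr, Cin, hL, by omega, hG, hMr, hCin, ?_⟩
  intro q n hW r hr hrn hreg
  have h0 : 0 ≤ q := by linarith [hW.lo]
  have h1 : q ≤ 1 := by linarith [hW.hi]
  have hr1 : 1 ≤ r := hMr.trans hr
  set g := 128 * t * L * M2 * r with hg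
  have hs : 2 * g = 256 * t * L * (M2 * r) := by rw [hg]; ring
  have h4 : 4 * L * (M2 * r) ≤ n := by
    refine le_trans ?_ hrn
    rw [hs]
    have : 4 * L * (M2 * r) ≤ (256 * t) * L * (M2 * r) := by
      apply Nat.mul_le_mul_right
      apply Nat.mul_le_mul_right
      omega
    exact this
  have ha4 : 0 ≤ a4 q (4 * L * (M2 * r)) := a4_nonneg h0 h1 _
  obtain ⟨σ1, k1, σ2, k2, hk1, hk2, hTS⟩ := hkey q n hW r (M2 * r) hr1 rfl h4 hreg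
  have hTS0 : 0 ≤ TS q L (M2 * r) r ((M2 * r) / M1) σ1 k1 σ2 k2 :=
    Finset.sum_nonneg fun _ _ => Pr_nonneg (okq h0 h1) _ _
  have hmain := hin q n hW r (M2 * r) (2 * g) hr rfl hs (hrn)
    (hreg.trans (mul_le_mul_of_nonneg_right (le_max_right _ _) ha4)) σ1 σ2 k1 k2 hk1 hk2
    (hTS.trans (mul_le_mul_of_nonneg_right (le_max_left _ _) hTS0))
  intro s hs' t' ht' i hi
  obtain ⟨hi1, hi2⟩ := hi
  have b1 := abs_le.mp (by linarith : |(g:ℤ) * i.1| ≤ s - 8 * g)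
  have b2 := abs_le.mp (by linarith : |(g:ℤ) * i.2| ≤ t' - 8 * g)
  exact hmain (-(s:ℤ)) s (-(t':ℤ)) t' (gp g i) (by unfold gp; push_cast; linarith)
    (by unfold gp; push_cast; linarith) (by unfold gp; push_cast; linarith)
    (by unfold gp; push_cast; linarith)

end H974
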