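import Pool.Agent.H974R4.W2.FinB

/-!
W2, task B9, part 3: lower bound for the derivative.
-/

namespace H974

open H12S Finset

theorem log6_one : (1:ℝ) ≤ Real.log 6 := by
  rw [Real.le_log_iff_exp_le (by norm_num)]
  have := Real.exp_one_lt_d9
  linarith

theorem log6_two : Real.log 6 ≤ 2 := by
  rw [Real.log_le_iff_le_exp (by norm_num)]
  have h1 : (2.7:ℝ) ≤ Real.exp 1 := by
    have := Real.exp_one_gt_d9
    linarith
  have h2 : Real.exp 2 = Real.exp 1 * Real.exp 1 := by rw [← Real.exp_add]; norm_num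
  rw [h2]
  nlinarith

/-- The window of scales. -/
theorem w_exists (L : ℕ) (hL : 2 ≤ L) : ∃ w : ℕ, 1 ≤ w ∧ 32 * L ≤ 6 ^ w ∧ 6 ^ w ≤ 192 * L := by
  have hex : ∃ w : ℕ, 32 * L ≤ 6 ^ w :=
    ⟨32 * L, (Nat.lt_pow_self (by norm_num : 1 < 6)).le⟩
  classical
  have h1 := Nat.find_spec hex
  set w := Nat.find hex with hw
  have h0 : 1 ≤ w := by
    by_contra hn
    have : w = 0 := by omega
    rw [this] at h1
    omega
  refine ⟨w, h0, h1, ?_⟩
  have h2 : ¬ 32 * L ≤ 6 ^ (w - 1) := Nat.find_min hex (by omega)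
  have h3 : 6 ^ w = 6 * 6 ^ (w - 1) := by
    conv_lhs => rw [show w = (w - 1) + 1 by omega, pow_succ]
    ring
  omega

theorem WD_lower (hE : Exit3) (hI : StIn) (hLow : StLow) (κ : ℝ) (hκ : 0 < κ) (η : ℝ)
    (hη : 0 < η) : ∃ ε : ℝ, 0 < ε ∧ ε ≤ 1 / 8 ∧ ∃ C : ℝ, 1 ≤ C ∧ ∃ K : ℝ, 1 ≤ K ∧ ∀ n1 : ℕ,
      1 ≤ n1 → K ≤ (n1:ℝ) ^ ε → ∀ n : ℕ, (n1:ℝ) ^ (1 + η) ≤ n → (n:ℝ) ≤ (n1:ℝ) ^ 2 → ∀ q : ℝ,
        |q - 1/2| ≤ (n1:ℝ) ^ (-(3/4 : ℝ) - ε) / C → H12S.Win q κ n →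
          (n1:ℝ) ^ ((3/4 : ℝ) + 2 * ε) * ((n:ℝ) + 1) ^ 2 ≤ WD q n := by
  obtain ⟨c0, α, hc0, hα, hlowS⟩ := WS_low κ hκ
  obtain ⟨Cb, hCb, hbd⟩ := scale_bd κ hκ
  set ε : ℝ := min (1/8) (α * η / 7) with hε
  have hε0 : 0 < ε := lt_min (by norm_num) (by positivity)
  have hε8 : ε ≤ 1/8 := min_le_left _ _
  have hε7 : 7 * ε ≤ α * η := by
    have : ε ≤ α * η / 7 := min_le_right _ _
    linarith
  obtain ⟨C, hC, hlow⟩ := hLow ε hε0 hε8
  set K2 : ℝ := 36 ^ 4 * Real.exp (96 / ε) with hK2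
  have hK20 : 0 < K2 := by positivity
  set p : ℝ := 96 / ε with hp
  have hp0 : 0 < p := by positivity
  set δ : ℝ := 1 / (144 * K2) with hδ
  have hδ0 : 0 < δ := by positivity
  obtain ⟨L, M2, G0, Mr, Cin, hL, hM2, hG0, hMr, hCin, hgood⟩ := good_scale hE hI κ hκ p δ hp0 hδ0
  obtain ⟨w, hw1, hw32, hw192⟩ := w_exists L hL
  have hLr : (2:ℝ) ≤ L := by exact_mod_cast hL
  have hMrr : (1:ℝ) ≤ Mr := by exact_mod_cast hMr
  have hM2r : (8:ℝ) ≤ M2 := by exact_mod_cast hM2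
  have hG0r : (1:ℝ) ≤ G0 := by exact_mod_cast hG0
  set K : ℝ := Real.exp (4 / ε) + (M2 : ℝ) * (192 * L) * (Mr + 2) * C + 100 * G0 * (Mr + 2) +
    2 * C + 49 / c0 + 4 * Cb / c0 + 50 * Cin * (16 * (L:ℝ) ^ 2) * C / c0 with hK
  have k1 : 0 < Real.exp (4 / ε) := Real.exp_pos _
  have k2 : 0 < (M2 : ℝ) * (192 * L) * (Mr + 2) * C := by positivity
  have k3 : 0 < 100 * (G0:ℝ) * (Mr + 2) := by positivity
  have k4 : 2 ≤ 2 * C := by linarith
  have k5 : 0 < 49 / c0 := by positivity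
  have k6 : 0 < 4 * Cb / c0 := by positivity
  have k7 : 0 < 50 * Cin * (16 * (L:ℝ) ^ 2) * C / c0 := by positivity
  refine ⟨ε, hε0, hε8, C, hC, K, by linarith, ?_⟩
  intro n1 hn1 hKn n hnlo hnhi q hq hW
  have h0 : 0 ≤ q := by linarith [hW.lo]
  have h1 : q ≤ 1 := by linarith [hW.hi]
  have hX1 : (1:ℝ) ≤ n1 := by exact_mod_cast hn1
  have hXpos : (0:ℝ) < n1 := by linarith
  set X : ℝ := (n1:ℝ) with hX
  -- powers
  have hXε1 : X ^ ε ≤ X := by
    calc X ^ ε ≤ X ^ (1:ℝ) := Real.rpow_le_rpow_of_exponent_le hX1 (by linarith)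
      _ = X := Real.rpow_one _
  have hXmono : ∀ a b : ℝ, a ≤ b → X ^ a ≤ X ^ b := fun a b h =>
    Real.rpow_le_rpow_of_exponent_le hX1 h
  have hXone : ∀ a : ℝ, 0 ≤ a → 1 ≤ X ^ a := fun a h => Real.one_le_rpow hX1 h
  -- the number of scales
  set x : ℝ := Real.log X with hx
  have hexpx : Real.exp x = X := Real.exp_log hXpos
  have hεx : 4 ≤ ε * x := by
    have i1 : Real.exp (4 / ε) ≤ X := by linarith
    have i2 : 4 / ε ≤ x := by rw [hx, Real.le_log_iff_exp_le hXpos]; exact i1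
    rw [div_le_iff₀ hε0] at i2
    linarith
  have hxpos : 0 < x := by
    by_contra hn
    have : ε * x ≤ 0 := mul_nonpos_of_nonneg_of_nonpos hε0.le (by linarith)
    linarith
  have hl1 := log6_one
  have hl2 := log6_two
  set J : ℕ := ⌊ε * x / Real.log 6⌋₊ with hJ
  have hJle : (J:ℝ) * Real.log 6 ≤ ε * x := by
    have : (J:ℝ) ≤ ε * x / Real.log 6 := Nat.floor_le (by positivity)
    rwa [le_div_iff₀ (by linarith)] at this
  have hJge : ε * x / 4 ≤ J := by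
    have i1 : ε * x / Real.log 6 < J + 1 := Nat.lt_floor_add_one _
    have i2 : ε * x / 2 ≤ ε * x / Real.log 6 :=
      div_le_div_of_nonneg_left (by linarith) (by linarith) hl2
    linarith
  have hJ1r : (1:ℝ) ≤ J := by linarith
  have hJ1 : 1 ≤ J := by exact_mod_cast hJ1r
  have h6J : (6:ℝ) ^ J ≤ X ^ ε := by
    rw [← Real.rpow_natCast, Real.rpow_def_of_pos (by norm_num), Real.rpow_def_of_pos hXpos]
    apply Real.exp_le_exp.mpr
    rw [← hx]
    linarith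
  -- the first scale
  set r0 : ℕ := ⌈X ^ (1 - 4 * ε)⌉₊ + Mr with hr0
  have hr0Mr : Mr ≤ r0 := by omega
  have hr01 : 1 ≤ r0 := by omega
  have hr0lo : X ^ (1 - 4 * ε) ≤ r0 := by
    rw [hr0]; push_cast
    have := Nat.le_ceil (X ^ (1 - 4 * ε))
    linarith
  have hr0hi : (r0:ℝ) ≤ (Mr + 2) * X ^ (1 - 4 * ε) := by
    rw [hr0]; push_cast
    have i1 := (Nat.ceil_lt_add_one (a := X ^ (1 - 4 * ε)) (by positivity)).le
    have i2 := hXone (1 - 4 * ε) (by linarith)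
    have i3 : 0 ≤ (Mr:ℝ) * (X ^ (1 - 4 * ε) - 1) :=
      mul_nonneg (Nat.cast_nonneg _) (sub_nonneg.mpr i2)
    linarith only [i1, i2, i3, hMrr]
  -- scales
  have hscale : ∀ j, j ≤ J → ((6 ^ j * r0 : ℕ) : ℝ) ≤ (Mr + 2) * X ^ (1 - 3 * ε) := by
    intro j hj
    push_cast
    have i1 : (6:ℝ) ^ j ≤ X ^ ε := le_trans (pow_le_pow_right₀ (by norm_num) hj) h6J
    calc (6:ℝ) ^ j * r0 ≤ X ^ ε * ((Mr + 2) * X ^ (1 - 4 * ε)) :=
          mul_le_mul i1 hr0hi (by positivity) (by positivity)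
      _ = (Mr + 2) * (X ^ ε * X ^ (1 - 4 * ε)) := by ring
      _ = (Mr + 2) * X ^ (1 - 3 * ε) := by
          rw [← Real.rpow_add hXpos]; congr 2; ring
  have hm : ∀ j, j ≤ J + w → ((M2 * (6 ^ j * r0) : ℕ) : ℝ) ≤ X ^ (1 - ε) / C := by
    intro j hj
    have i0 : (6:ℝ) ^ j ≤ 6 ^ J * 6 ^ w := by
      rw [← pow_add]; exact pow_le_pow_right₀ (by norm_num) hj
    have i1 : (6:ℝ) ^ w ≤ 192 * L := by exact_mod_cast hw192
    have i2 := hscale J le_rfl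
    push_cast at i2 ⊢
    rw [le_div_iff₀ (by linarith)]
    calc (M2:ℝ) * (6 ^ j * r0) * C ≤ M2 * ((6 ^ J * 6 ^ w) * r0) * C := by
          apply mul_le_mul_of_nonneg_right _ (by linarith)
          apply mul_le_mul_of_nonneg_left _ (by linarith)
          exact mul_le_mul_of_nonneg_right i0 (by positivity)
      _ = (M2 * 6 ^ w * C) * (6 ^ J * r0) := by ring
      _ ≤ (M2 * (192 * L) * C) * ((Mr + 2) * X ^ (1 - 3 * ε)) := by
          apply mul_le_mul _ i2 (by positivity) (by positivity)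
          apply mul_le_mul_of_nonneg_right _ (by linarith)
          exact mul_le_mul_of_nonneg_left i1 (by linarith)
      _ = (M2 * (192 * L) * (Mr + 2) * C) * X ^ (1 - 3 * ε) := by ring
      _ ≤ X ^ ε * X ^ (1 - 3 * ε) := by
          apply mul_le_mul_of_nonneg_right _ (by positivity)
          linarith
      _ = X ^ (1 - 2 * ε) := by rw [← Real.rpow_add hXpos]; congr 1; ring
      _ ≤ X ^ (1 - ε) := hXmono _ _ (by linarith)
  have hnX : X ≤ n := by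
    calc X = X ^ (1:ℝ) := (Real.rpow_one _).symm
      _ ≤ X ^ (1 + η) := hXmono _ _ (by linarith)
      _ ≤ n := hnlo
  have hgX : ∀ j, j ≤ J → 100 * ((G0 * (6 ^ j * r0) : ℕ) : ℝ) ≤ X := by
    intro j hj
    have i2 := hscale j hj
    push_cast at i2 ⊢
    calc 100 * ((G0:ℝ) * (6 ^ j * r0)) = (100 * G0) * (6 ^ j * r0) := by ring
      _ ≤ (100 * G0) * ((Mr + 2) * X ^ (1 - 3 * ε)) := by
          apply mul_le_mul_of_nonneg_left i2 (by positivity)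
      _ = (100 * G0 * (Mr + 2)) * X ^ (1 - 3 * ε) := by ring
      _ ≤ X ^ ε * X ^ (1 - 3 * ε) := by
          apply mul_le_mul_of_nonneg_right _ (by positivity)
          linarith
      _ = X ^ (1 - 2 * ε) := by rw [← Real.rpow_add hXpos]; congr 1; ring
      _ ≤ X ^ (1:ℝ) := hXmono _ _ (by linarith)
      _ = X := Real.rpow_one _
  have hgn : ∀ j, j ≤ J → 100 * (G0 * (6 ^ j * r0)) ≤ n := by
    intro j hj
    have := (hgX j hj).trans hnX
    exact_mod_cast this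
  have hg1 : ∀ j : ℕ, 1 ≤ G0 * (6 ^ j * r0) := by
    intro j
    have : 0 < 6 ^ j := by positivity
    exact Nat.mul_pos (by omega) (Nat.mul_pos this (by omega))
  -- four-arm lower bound
  have ha4low : ∀ k : ℕ, 1 ≤ k → (k:ℝ) ≤ X ^ (1 - ε) / C → (k:ℝ) ^ (-(5/4 : ℝ) - ε) / C ≤ a4 q k :=
    hlow n1 hn1 q hq
  -- the sequences
  set a : ℕ → ℝ := fun j => a4 q ((M2 * (6 ^ (min j (J + w)) * r0)) / 8) with ha
  have hk8 : ∀ j : ℕ, 1 ≤ (M2 * (6 ^ j * r0)) / 8 := by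
    intro j
    rw [Nat.le_div_iff_mul_le (by norm_num)]
    have i1 : 1 ≤ 6 ^ j * r0 := Nat.mul_pos (by positivity) (by omega)
    calc 1 * 8 = 8 * 1 := rfl
      _ ≤ M2 * (6 ^ j * r0) := Nat.mul_le_mul hM2 i1
  have ha0 : ∀ j, 0 < a j := by
    intro j
    have i1 := hm (min j (J + w)) (min_le_right _ _)
    have i2 : (((M2 * (6 ^ (min j (J + w)) * r0)) / 8 : ℕ) : ℝ) ≤ X ^ (1 - ε) / C := by
      refine le_trans ?_ i1
      exact_mod_cast Nat.div_le_self _ _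
    have i3 : (1:ℝ) ≤ (((M2 * (6 ^ (min j (J + w)) * r0)) / 8 : ℕ) : ℝ) := by
      exact_mod_cast hk8 _
    refine lt_of_lt_of_le ?_ (ha4low _ (hk8 _) i2)
    have : 0 < C := by linarith
    positivity
  have hanti : ∀ j, a (j + 1) ≤ a j := by
    intro j
    apply a4_anti h0 h1 (hk8 _)
    apply Nat.div_le_div_right
    apply Nat.mul_le_mul_left
    apply Nat.mul_le_mul_right
    apply Nat.pow_le_pow_right (by norm_num)
    omega
  set S : ℕ → ℝ := fun j => WS q n (G0 * (6 ^ j * r0)) with hS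
  have hn1' : 0 < ((n:ℝ) + 1) ^ 2 := by positivity
  have hSlow : ∀ j, j ≤ J → c0 * ((n:ℝ) / ((G0 * (6 ^ j * r0) : ℕ) : ℝ)) ^ α * ((n:ℝ) + 1) ^ 2 ≤
      S j := fun j hj => hlowS q n hW n _ (hg1 j) (by have := hgn j hj; omega) le_rfl
  have hratio : ∀ j, j ≤ J → X ^ η ≤ (n:ℝ) / ((G0 * (6 ^ j * r0) : ℕ) : ℝ) := by
    intro j hj
    have i1 : (0:ℝ) < ((G0 * (6 ^ j * r0) : ℕ) : ℝ) := by exact_mod_cast hg1 j
    rw [le_div_iff₀ i1]
    have i2 := hgX j hj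
    calc X ^ η * ((G0 * (6 ^ j * r0) : ℕ) : ℝ) ≤ X ^ η * X := by
          apply mul_le_mul_of_nonneg_left _ (by positivity)
          linarith
      _ = X ^ (1 + η) := by
          rw [Real.rpow_add hXpos, Real.rpow_one]; ring
      _ ≤ n := hnlo
  have hratioα : ∀ j, j ≤ J → X ^ (7 * ε) ≤ ((n:ℝ) / ((G0 * (6 ^ j * r0) : ℕ) : ℝ)) ^ α := by
    intro j hj
    calc X ^ (7 * ε) ≤ X ^ (η * α) := hXmono _ _ (by linarith)
      _ = (X ^ η) ^ α := Real.rpow_mul hXpos.le _ _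
      _ ≤ _ := Real.rpow_le_rpow (by positivity) (hratio j hj) hα.le
  have hSpos : ∀ j, j ≤ J → 0 < S j := by
    intro j hj
    refine lt_of_lt_of_le ?_ (hSlow j hj)
    have i1 : 0 < X ^ (7 * ε) := by positivity
    have i2 := hratioα j hj
    have i3 : 0 < ((n:ℝ) / ((G0 * (6 ^ j * r0) : ℕ) : ℝ)) ^ α := by linarith
    positivity
  have hS6 : ∀ j, j < J → S j ≤ 36 * S (j + 1) := by
    intro j hj
    have := WS_six h0 h1 n (hg1 j)
    have e : 6 * (G0 * (6 ^ j * r0)) = G0 * (6 ^ (j + 1) * r0) := by rw [pow_succ]; ring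
    rw [e] at this
    exact this
  -- pigeonhole
  have hexpΛ : Real.exp (6 * x) = X ^ 6 := by
    rw [← hexpx, ← Real.exp_nat_mul]; norm_num
  have hp1 : a 0 ≤ Real.exp (6 * x) * a (J + w) := by
    have i1 : a 0 ≤ 2 := a4_le_two h0 h1 _
    have i2 : X ^ (-(2:ℝ)) / C ≤ a (J + w) := by
      have j1 := hm (J + w) le_rfl
      have j2 : (((M2 * (6 ^ (J + w) * r0)) / 8 : ℕ) : ℝ) ≤ X ^ (1 - ε) / C := by
        refine le_trans ?_ j1
        exact_mod_cast Nat.div_le_self _ _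
      have j3 : (1:ℝ) ≤ (((M2 * (6 ^ (J + w) * r0)) / 8 : ℕ) : ℝ) := by
        exact_mod_cast hk8 _
      have j4 : X ^ (1 - ε) / C ≤ X := by
        rw [div_le_iff₀ (by linarith)]
        calc X ^ (1 - ε) ≤ X ^ (1:ℝ) := hXmono _ _ (by linarith)
          _ = X := Real.rpow_one _
          _ ≤ X * C := le_mul_of_one_le_right hXpos.le hC
      have j5 := ha4low _ (hk8 _) j2
      have j6 : a (J + w) = a4 q ((M2 * (6 ^ (J + w) * r0)) / 8) := by rw [ha]; simp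
      rw [j6]
      refine le_trans ?_ j5
      apply div_le_div_of_nonneg_right _ (by linarith)
      calc X ^ (-(2:ℝ)) ≤ X ^ (-(5/4 : ℝ) - ε) := hXmono _ _ (by linarith)
        _ ≤ _ := Real.rpow_le_rpow_of_nonpos (by linarith) (j2.trans j4) (by linarith)
    have i3 : 2 ≤ Real.exp (6 * x) * (X ^ (-(2:ℝ)) / C) := by
      rw [hexpΛ]
      have e1 : X ^ 6 * (X ^ (-(2:ℝ)) / C) = X ^ 4 / C := by
        have : X ^ (-(2:ℝ)) = (X ^ 2)⁻¹ := by
          rw [Real.rpow_neg hXpos.le, Real.rpow_two]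
        rw [this]
        field_simp
      rw [e1, le_div_iff₀ (by linarith)]
      have e2 : 2 * C ≤ X := by linarith
      calc 2 * C ≤ X := e2
        _ = X ^ 1 := (pow_one _).symm
        _ ≤ X ^ 4 := pow_le_pow_right₀ hX1 (by norm_num)
    calc a 0 ≤ 2 := i1
      _ ≤ _ := i3
      _ ≤ _ := mul_le_mul_of_nonneg_left i2 (Real.exp_pos _).le
  have hp2 : S J ≤ Real.exp (6 * x) * S 0 := by
    have i1 : S J ≤ ((n:ℝ) + 1) ^ 2 * (4 * n + 3) ^ 2 := WS_up h0 h1 _ _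
    have i2 : c0 * ((n:ℝ) + 1) ^ 2 ≤ S 0 := by
      refine le_trans ?_ (hSlow 0 (by omega))
      apply mul_le_mul_of_nonneg_right _ hn1'.le
      have i3 := hratioα 0 (by omega)
      have i4 := hXone (7 * ε) (by linarith)
      exact le_mul_of_one_le_right hc0.le (i4.trans i3)
    have i3 : (4 * (n:ℝ) + 3) ^ 2 ≤ X ^ 6 * c0 := by
      have j1 : 4 * (n:ℝ) + 3 ≤ 7 * X ^ 2 := by
        have j0 : 1 ≤ X ^ 2 := one_le_pow₀ hX1
        linarith only [hnhi, j0]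
      have j2 : (4 * (n:ℝ) + 3) ^ 2 ≤ (7 * X ^ 2) ^ 2 := by
        apply pow_le_pow_left₀ (by positivity) j1
      have j3 : 49 / c0 ≤ X := by linarith
      have j4 : 49 ≤ X * c0 := by rwa [div_le_iff₀ hc0] at j3
      calc (4 * (n:ℝ) + 3) ^ 2 ≤ (7 * X ^ 2) ^ 2 := j2
        _ = 49 * X ^ 4 := by ring
        _ ≤ (X * c0) * X ^ 4 := mul_le_mul_of_nonneg_right j4 (by positivity)
        _ = X ^ 5 * c0 := by ring
        _ ≤ X ^ 6 * c0 := mul_le_mul_of_nonneg_right (pow_le_pow_right₀ hX1 (by norm_num)) hc0.le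
    rw [hexpΛ]
    calc S J ≤ ((n:ℝ) + 1) ^ 2 * (4 * n + 3) ^ 2 := i1
      _ ≤ ((n:ℝ) + 1) ^ 2 * (X ^ 6 * c0) := mul_le_mul_of_nonneg_left i3 hn1'.le
      _ = X ^ 6 * (c0 * ((n:ℝ) + 1) ^ 2) := by ring
      _ ≤ X ^ 6 * S 0 := mul_le_mul_of_nonneg_left i2 (by positivity)
  have hJpos : (0:ℝ) < J := by linarith
  have hratJ : 4 * (6 * x) / J ≤ 96 / ε := by
    rw [div_le_div_iff₀ hJpos hε0]
    linarith only [hJge]
  have hK1 : Real.exp (4 * w * (6 * x) / J) ≤ (192 * (L:ℝ)) ^ p := by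
    have hL192 : (0:ℝ) < 192 * L := by linarith
    rw [Real.rpow_def_of_pos hL192]
    apply Real.exp_le_exp.mpr
    have i1 : (w:ℝ) ≤ Real.log (192 * L) := by
      rw [Real.le_log_iff_exp_le hL192]
      calc Real.exp w = Real.exp 1 ^ w := by rw [← Real.exp_nat_mul, mul_one]
        _ ≤ 6 ^ w := by
          apply pow_le_pow_left₀ (Real.exp_pos _).le
          have := Real.exp_one_lt_d9
          linarith
        _ ≤ 192 * L := by exact_mod_cast hw192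
    have i2 : 4 * w * (6 * x) / J = w * (4 * (6 * x) / J) := by ring
    rw [i2]
    have i3 : 0 ≤ 4 * (6 * x) / J := by positivity
    calc (w:ℝ) * (4 * (6 * x) / J) ≤ Real.log (192 * L) * (96 / ε) :=
          mul_le_mul i1 hratJ i3 ((Nat.cast_nonneg _).trans i1)
      _ = _ := by rw [hp]
  have hK2' : 36 ^ 4 * Real.exp (4 * (6 * x) / J) ≤ K2 := by
    rw [hK2]
    apply mul_le_mul_of_nonneg_left _ (by positivity)
    exact Real.exp_le_exp.mpr hratJ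
  obtain ⟨j, hjJ, hja, hjS⟩ := dpig hJ1 hw1 (a := a) (S := S) (Λ := 6 * x)
    (K1 := (192 * (L:ℝ)) ^ p) (K2 := K2) (by positivity) ha0 hanti hSpos hS6 hp1 hp2 hK1 hK2'
  -- the good scale
  set r : ℕ := 6 ^ j * r0 with hr
  have hrMr : Mr ≤ r := by
    have i1 : 1 ≤ 6 ^ j := Nat.one_le_pow _ _ (by norm_num)
    calc Mr ≤ r0 := hr0Mr
      _ = 1 * r0 := (one_mul _).symm
      _ ≤ 6 ^ j * r0 := Nat.mul_le_mul_right _ i1
  have hgr : 100 * (G0 * r) ≤ n := hgn j hjJ.le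
  have haj : a j = a4 q ((M2 * r) / 8) := by
    rw [ha]; simp only [hr]
    rw [min_eq_left (by omega)]
  have hajw : a (j + w) = a4 q ((M2 * (6 ^ (j + w) * r0)) / 8) := by
    rw [ha]; simp only
    rw [min_eq_left (by omega)]
  have hr1 : 1 ≤ r := hMr.trans hrMr
  have hk4 : 4 * L * (M2 * r) ≤ (M2 * (6 ^ (j + w) * r0)) / 8 := by
    rw [Nat.le_div_iff_mul_le (by norm_num)]
    have e1 : M2 * (6 ^ (j + w) * r0) = 6 ^ w * (M2 * r) := by rw [hr, pow_add]; ring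
    have e2 : 4 * L * (M2 * r) * 8 = (32 * L) * (M2 * r) := by ring
    rw [e1, e2]
    exact Nat.mul_le_mul_right _ hw32
  have hk41 : 1 ≤ 4 * L * (M2 * r) := by
    have : 0 < 4 * L * (M2 * r) := by
      have : 0 < L := by omega
      have : 0 < M2 := by omega
      have : 0 < r := hr1
      positivity
    exact this
  have hreg : a4 q ((M2 * r) / 8) ≤ (192 * (L:ℝ)) ^ p * a4 q (4 * L * (M2 * r)) := by
    rw [← haj]
    refine hja.trans ?_
    apply mul_le_mul_of_nonneg_left _ (by positivity)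
    rw [hajw]
    exact a4_anti h0 h1 hk41 hk4
  have hins := hgood q n hW r hrMr (by omega) hreg
  set Y : ℝ := ((M2 * r : ℕ) : ℝ) ^ 2 * a4 q (4 * L * (M2 * r)) with hY
  have hY0 : 0 ≤ Y := mul_nonneg (by positivity) (a4_nonneg h0 h1 _)
  have hmain := hbd q n hW n (G0 * r) (hg1 j) hgr le_rfl δ Y Cin hδ0.le hY0 hCin.le hins
  have hSj : WS q n (G0 * r) = S j := rfl
  have hSj1 : WS q n (6 * (G0 * r)) = S (j + 1) := by
    show WS q n _ = WS q n _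
    congr 1
    rw [hr, pow_succ]; ring
  rw [hSj, hSj1] at hmain
  have hd1 : 36 * δ * S (j + 1) ≤ S j / 4 := by
    calc 36 * δ * S (j + 1) ≤ 36 * δ * (K2 * S j) :=
          mul_le_mul_of_nonneg_left hjS (by positivity)
      _ = S j / 4 := by rw [hδ]; field_simp; ring
  have hd2 : Cb * ((n:ℝ) + 1) ^ 2 ≤ S j / 4 := by
    have i1 := hSlow j hjJ.le
    have i2 := hratioα j hjJ.le
    have i3 : 4 * Cb / c0 ≤ X ^ (7 * ε) := by
      calc 4 * Cb / c0 ≤ X ^ ε := by linarith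
        _ ≤ _ := hXmono _ _ (by linarith)
    have i4 : 4 * Cb ≤ c0 * ((n:ℝ) / ((G0 * (6 ^ j * r0) : ℕ) : ℝ)) ^ α := by
      rw [div_le_iff₀ hc0] at i3
      have i6 := mul_le_mul_of_nonneg_left i2 hc0.le
      linarith only [i3, i6]
    have i5 := mul_le_mul_of_nonneg_right i4 hn1'.le
    linarith
  have hd3 : S j / 2 * Y ≤ 25 * Cin * WD q n := by
    refine le_trans ?_ hmain
    apply mul_le_mul_of_nonneg_right _ hY0
    linarith
  -- the size of `Y`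
  have hYlow : X ^ ((3/4 : ℝ) - 4 * ε) / (16 * (L:ℝ) ^ 2 * C) ≤ Y := by
    set m : ℝ := ((M2 * r : ℕ) : ℝ) with hm'
    have hmlo : X ^ (1 - 4 * ε) ≤ m := by
      refine hr0lo.trans ?_
      rw [hm']
      have : r0 ≤ M2 * r := by
        have i1 : 1 ≤ 6 ^ j := Nat.one_le_pow _ _ (by norm_num)
        calc r0 = 1 * (1 * r0) := by ring
          _ ≤ M2 * (6 ^ j * r0) := Nat.mul_le_mul (by omega) (Nat.mul_le_mul_right _ i1)
      exact_mod_cast this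
    have hm1 : 1 ≤ m := (hXone _ (by linarith)).trans hmlo
    have hmpos : 0 < m := by linarith
    have i1 : ((4 * L * (M2 * r) : ℕ) : ℝ) ≤ X ^ (1 - ε) / C := by
      refine le_trans ?_ (hm (j + w) (by omega))
      exact_mod_cast hk4.trans (Nat.div_le_self _ _)
    have i2 := ha4low _ hk41 i1
    have i3 : ((4 * L * (M2 * r) : ℕ) : ℝ) = (4 * L) * m := by rw [hm']; push_cast; ring
    rw [i3, Real.mul_rpow (by positivity) hmpos.le] at i2
    have i4 : (1:ℝ) / (16 * (L:ℝ) ^ 2) ≤ (4 * (L:ℝ)) ^ (-(5/4 : ℝ) - ε) := by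
      calc (1:ℝ) / (16 * (L:ℝ) ^ 2) = (4 * (L:ℝ)) ^ (-(2:ℝ)) := by
            rw [Real.rpow_neg (by positivity), Real.rpow_two, one_div]
            congr 1; ring
        _ ≤ _ := Real.rpow_le_rpow_of_exponent_le (by linarith) (by linarith)
    have i5 : m ^ 2 * m ^ (-(5/4 : ℝ) - ε) = m ^ ((3/4 : ℝ) - ε) := by
      rw [← Real.rpow_natCast, ← Real.rpow_add hmpos]
      congr 1
      push_cast
      ring
    have i6 : X ^ ((3/4 : ℝ) - 4 * ε) ≤ m ^ ((3/4 : ℝ) - ε) := by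
      calc X ^ ((3/4 : ℝ) - 4 * ε) ≤ X ^ ((1 - 4 * ε) * ((3/4 : ℝ) - ε)) := by
            apply hXmono
            have i7 : 0 ≤ ε * ε := mul_nonneg hε0.le hε0.le
            linarith only [i7, hε0]
        _ = (X ^ (1 - 4 * ε)) ^ ((3/4 : ℝ) - ε) := Real.rpow_mul hXpos.le _ _
        _ ≤ _ := Real.rpow_le_rpow (by positivity) hmlo (by linarith)
    calc X ^ ((3/4 : ℝ) - 4 * ε) / (16 * (L:ℝ) ^ 2 * C)
        ≤ m ^ ((3/4 : ℝ) - ε) / (16 * (L:ℝ) ^ 2 * C) := by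
          apply div_le_div_of_nonneg_right i6 (by positivity)
      _ = m ^ ((3/4 : ℝ) - ε) * (1 / (16 * (L:ℝ) ^ 2)) / C := by field_simp
      _ ≤ m ^ ((3/4 : ℝ) - ε) * (4 * (L:ℝ)) ^ (-(5/4 : ℝ) - ε) / C := by
          apply div_le_div_of_nonneg_right _ (by linarith)
          exact mul_le_mul_of_nonneg_left i4 (by positivity)
      _ = m ^ 2 * ((4 * (L:ℝ)) ^ (-(5/4 : ℝ) - ε) * m ^ (-(5/4 : ℝ) - ε) / C) := by
          rw [← i5]; ring
      _ ≤ m ^ 2 * a4 q (4 * L * (M2 * r)) := mul_le_mul_of_nonneg_left i2 (by positivity)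
  -- conclusion
  have hS7 : c0 * X ^ (7 * ε) * ((n:ℝ) + 1) ^ 2 ≤ S j := by
    refine le_trans ?_ (hSlow j hjJ.le)
    apply mul_le_mul_of_nonneg_right _ hn1'.le
    exact mul_le_mul_of_nonneg_left (hratioα j hjJ.le) hc0.le
  have hLC : 0 < 16 * (L:ℝ) ^ 2 * C := by positivity
  have hf1 : c0 * X ^ (7 * ε) * ((n:ℝ) + 1) ^ 2 / 2 * (X ^ ((3/4 : ℝ) - 4 * ε) / (16 * (L:ℝ) ^ 2 * C))
      ≤ 25 * Cin * WD q n := by
    refine le_trans ?_ hd3
    apply mul_le_mul _ hYlow (by positivity) (by linarith [hSpos j hjJ.le])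
    linarith
  have hf2 : X ^ (7 * ε) * X ^ ((3/4 : ℝ) - 4 * ε) = X ^ ε * X ^ ((3/4 : ℝ) + 2 * ε) := by
    rw [← Real.rpow_add hXpos, ← Real.rpow_add hXpos]; congr 1; ring
  have hf3 : 50 * Cin * (16 * (L:ℝ) ^ 2) * C / c0 ≤ X ^ ε := by linarith
  have hf4 : c0 * X ^ (7 * ε) * ((n:ℝ) + 1) ^ 2 / 2 *
      (X ^ ((3/4 : ℝ) - 4 * ε) / (16 * (L:ℝ) ^ 2 * C)) =
      (X ^ ε * (c0 / (2 * (16 * (L:ℝ) ^ 2 * C)))) *
        (X ^ ((3/4 : ℝ) + 2 * ε) * ((n:ℝ) + 1) ^ 2) := by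
    calc _ = (X ^ (7 * ε) * X ^ ((3/4 : ℝ) - 4 * ε)) * (c0 / (2 * (16 * (L:ℝ) ^ 2 * C))) *
          ((n:ℝ) + 1) ^ 2 := by field_simp
      _ = _ := by rw [hf2]; ring
  rw [hf4] at hf1
  have hf5 : 25 * Cin ≤ X ^ ε * (c0 / (2 * (16 * (L:ℝ) ^ 2 * C))) := by
    rw [div_le_iff₀ hc0] at hf3
    rw [← mul_div_assoc, le_div_iff₀ (by positivity)]
    calc 25 * Cin * (2 * (16 * (L:ℝ) ^ 2 * C)) = 50 * Cin * (16 * (L:ℝ) ^ 2) * C := by ring
      _ ≤ _ := hf3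
  have hf6 : 25 * Cin * (X ^ ((3/4 : ℝ) + 2 * ε) * ((n:ℝ) + 1) ^ 2) ≤ 25 * Cin * WD q n := by
    refine le_trans ?_ hf1
    apply mul_le_mul_of_nonneg_right hf5 (by positivity)
  exact le_of_mul_le_mul_left hf6 (by positivity)

end H974
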