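import Pool.Agent.H974R4.W2.FinC
import Pool.Agent.H12R2.Sep.WinHalf

/-!
W2, task B9, part 4: the end of the scaling window.
-/

namespace H974

open H12S Finset

theorem w2_of (hE : Exit3) (hI : StIn) (hLow : StLow) : StW2 := by
  intro κ hκ hκ2 εt hεt
  obtain ⟨κh, hκh, hhalf⟩ := win_half
  set κ' : ℝ := min κ κh with hκ'
  have hκ'0 : 0 < κ' := lt_min hκ hκh
  set η : ℝ := min (1/2) (εt / 2) with hη
  have hη0 : 0 < η := lt_min (by norm_num) (by linarith)
  have hη1 : η ≤ 1/2 := min_le_left _ _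
  have hη2 : η ≤ εt / 2 := min_le_right _ _
  obtain ⟨ε, hε0, hε8, C, hC, K, hK, hmain⟩ := WD_lower hE hI hLow κ' hκ'0 η hη0
  -- the lower bound for the scale `n1`
  set Y0 : ℝ := (K + 2 * C + 1) ^ (1 / ε) + 6 with hY0
  have hKC : 1 ≤ K + 2 * C + 1 := by linarith
  have hY01 : 6 ≤ Y0 := by
    have : 0 ≤ (K + 2 * C + 1) ^ (1 / ε) := by positivity
    linarith
  set b : ℝ := 3/4 + ε with hb
  have hb0 : 0 < b := by linarith
  set h0 : ℝ := min (1/4) (min (Y0 ^ (-b) / C) ((1/2 : ℝ) ^ (3 / εt))) with hh0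
  have hh00 : 0 < h0 := by
    refine lt_min (by norm_num) (lt_min (by positivity) (by positivity))
  refine ⟨h0, hh00, ?_⟩
  intro q hq1 hq2
  set h : ℝ := q - 1/2 with hhd
  have hpos : 0 < h := by linarith
  have hlt : h < h0 := by linarith
  have hlt1 : h < 1/4 := lt_of_lt_of_le hlt (min_le_left _ _)
  have hlt2 : h < Y0 ^ (-b) / C :=
    lt_of_lt_of_le hlt ((min_le_right _ _).trans (min_le_left _ _))
  have hlt3 : h < (1/2 : ℝ) ^ (3 / εt) :=
    lt_of_lt_of_le hlt ((min_le_right _ _).trans (min_le_right _ _))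
  have hCpos : 0 < C := by linarith
  set y : ℝ := (1 / (C * h)) ^ (1 / b) with hy
  have hy0 : 0 < 1 / (C * h) := by positivity
  have hyb : y ^ b = 1 / (C * h) := by
    rw [hy, ← Real.rpow_mul hy0.le, one_div_mul_cancel hb0.ne', Real.rpow_one]
  have hYy : Y0 ≤ y := by
    have i1 : Y0 ^ b ≤ 1 / (C * h) := by
      have j1 : h * C ≤ Y0 ^ (-b) := by
        rw [lt_div_iff₀ hCpos] at hlt2
        linarith
      rw [Real.rpow_neg (by linarith)] at j1
      rw [le_div_iff₀ (by positivity)]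
      have j2 : 0 < Y0 ^ b := by positivity
      calc Y0 ^ b * (C * h) = Y0 ^ b * (h * C) := by ring
        _ ≤ Y0 ^ b * (Y0 ^ b)⁻¹ := mul_le_mul_of_nonneg_left j1 j2.le
        _ = 1 := mul_inv_cancel₀ j2.ne'
    have i2 : (Y0 ^ b) ^ (1 / b) ≤ y := Real.rpow_le_rpow (by positivity) i1 (by positivity)
    rwa [← Real.rpow_mul (by linarith), mul_one_div_cancel hb0.ne', Real.rpow_one] at i2
  have hypos : 0 < y := by linarith
  set n1 : ℕ := ⌊y⌋₊ with hn1
  have hn1y : (n1:ℝ) ≤ y := Nat.floor_le hypos.le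
  have hyn1 : y < n1 + 1 := Nat.lt_floor_add_one y
  have hn15 : (5:ℝ) ≤ n1 := by linarith
  have hn1pos : (0:ℝ) < n1 := by linarith
  have hn11 : 1 ≤ n1 := by
    have : (1:ℝ) ≤ n1 := by linarith
    exact_mod_cast this
  have hn1K : K + 2 * C + 1 ≤ (n1:ℝ) ^ ε := by
    have i1 : (K + 2 * C + 1) ^ (1 / ε) ≤ n1 := by linarith
    have i2 : ((K + 2 * C + 1) ^ (1 / ε)) ^ ε ≤ (n1:ℝ) ^ ε :=
      Real.rpow_le_rpow (by positivity) i1 hε0.le
    rwa [← Real.rpow_mul (by linarith), one_div_mul_cancel hε0.ne', Real.rpow_one] at i2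
  have hn1r : (1:ℝ) ≤ n1 := by linarith
  -- the scale `n`
  set n : ℕ := ⌈(n1:ℝ) ^ (1 + η)⌉₊ with hn
  have hnlo : (n1:ℝ) ^ (1 + η) ≤ n := Nat.le_ceil _
  have hn1η : 1 ≤ (n1:ℝ) ^ (1 + η) := Real.one_le_rpow hn1r (by linarith)
  have hnhi : (n:ℝ) ≤ 2 * (n1:ℝ) ^ (1 + η) := by
    have := (Nat.ceil_lt_add_one (a := (n1:ℝ) ^ (1 + η)) (by positivity)).le
    rw [← hn] at this
    linarith
  have hn2 : (n:ℝ) ≤ (n1:ℝ) ^ 2 := by
    refine hnhi.trans ?_
    have i1 : (n1:ℝ) ^ (1 + η) ≤ (n1:ℝ) ^ (3/2 : ℝ) :=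
      Real.rpow_le_rpow_of_exponent_le hn1r (by linarith)
    have i2 : (n1:ℝ) ^ 2 = (n1:ℝ) ^ (1/2 : ℝ) * (n1:ℝ) ^ (3/2 : ℝ) := by
      rw [← Real.rpow_add hn1pos, ← Real.rpow_natCast]; norm_num
    have i3 : (2:ℝ) ≤ (n1:ℝ) ^ (1/2 : ℝ) := by
      calc (2:ℝ) = (4:ℝ) ^ (1/2 : ℝ) := by
            rw [show (4:ℝ) = 2 ^ (2:ℝ) by norm_num, ← Real.rpow_mul (by norm_num)]
            norm_num
        _ ≤ _ := Real.rpow_le_rpow (by norm_num) (by linarith) (by norm_num)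
    rw [i2]
    exact mul_le_mul i3 i1 (by positivity) (by positivity)
  refine ⟨n, ?_, ?_⟩
  · -- size of `n`
    have hh1 : 1 ≤ 1 / h := by rw [le_div_iff₀ hpos]; linarith
    have i1 : (n1:ℝ) ^ (1 + η) ≤ (1 / h) ^ ((4/3 : ℝ) * (1 + η)) := by
      calc (n1:ℝ) ^ (1 + η) ≤ y ^ (1 + η) := Real.rpow_le_rpow hn1pos.le hn1y (by linarith)
        _ = (1 / (C * h)) ^ (1 / b * (1 + η)) := by rw [hy, ← Real.rpow_mul hy0.le]
        _ ≤ (1 / h) ^ (1 / b * (1 + η)) := by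
            apply Real.rpow_le_rpow hy0.le _ (by positivity)
            apply one_div_le_one_div_of_le hpos
            nlinarith
        _ ≤ (1 / h) ^ ((4/3 : ℝ) * (1 + η)) := by
            apply Real.rpow_le_rpow_of_exponent_le hh1
            apply mul_le_mul_of_nonneg_right _ (by linarith)
            rw [div_le_iff₀ hb0]
            linarith
    have i2 : (2:ℝ) ≤ (1 / h) ^ (εt / 3) := by
      have j1 : (2:ℝ) ^ (3 / εt) ≤ 1 / h := by
        rw [le_div_iff₀ hpos]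
        have j2 : (1/2 : ℝ) ^ (3 / εt) = ((2:ℝ) ^ (3 / εt))⁻¹ := by
          rw [← Real.inv_rpow (by norm_num)]; norm_num
        rw [j2] at hlt3
        have j3 : 0 < (2:ℝ) ^ (3 / εt) := by positivity
        calc (2:ℝ) ^ (3 / εt) * h ≤ (2:ℝ) ^ (3 / εt) * ((2:ℝ) ^ (3 / εt))⁻¹ :=
              mul_le_mul_of_nonneg_left hlt3.le j3.le
          _ = 1 := mul_inv_cancel₀ j3.ne'
      calc (2:ℝ) = ((2:ℝ) ^ (3 / εt)) ^ (εt / 3) := by
            rw [← Real.rpow_mul (by norm_num)]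
            have : 3 / εt * (εt / 3) = 1 := by field_simp
            rw [this, Real.rpow_one]
        _ ≤ _ := Real.rpow_le_rpow (by positivity) j1 (by positivity)
    have i3 : (n:ℝ) ≤ (1 / h) ^ ((4/3 : ℝ) + εt) := by
      calc (n:ℝ) ≤ 2 * (n1:ℝ) ^ (1 + η) := hnhi
        _ ≤ (1 / h) ^ (εt / 3) * (1 / h) ^ ((4/3 : ℝ) * (1 + η)) :=
            mul_le_mul i2 i1 (by positivity) (by positivity)
        _ = (1 / h) ^ (εt / 3 + (4/3 : ℝ) * (1 + η)) := by
            rw [← Real.rpow_add (by positivity)]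
        _ ≤ _ := by
            apply Real.rpow_le_rpow_of_exponent_le hh1
            linarith
    refine i3.trans (le_of_eq ?_)
    rw [one_div, Real.inv_rpow hpos.le, ← Real.rpow_neg hpos.le]
    congr 1; ring
  · -- the window ends before `n`
    intro hW
    have hq0 : q ≤ 1 := by linarith [hW.hi]
    have hWs : ∀ t ∈ Set.Icc (1/2) q, H12S.Win t κ' n := by
      intro t ht
      have hwh := hhalf n
      refine ⟨hκ'0, (min_le_left _ _).trans hκ2, by linarith [ht.1], by linarith [ht.2, hW.hi],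
        ?_, ?_⟩
      · intro k k1 k2
        calc κ' ≤ κh := min_le_right _ _
          _ ≤ hh (1/2) (16 * k) k := hwh.pri k k1 k2
          _ ≤ _ := hh_mono_param (by norm_num) ht.1 (by linarith [ht.2]) _ _
      · intro k k1 k2
        calc κ' ≤ κ := min_le_left _ _
          _ ≤ hh (1 - q) (16 * k) k := hW.dua k k1 k2
          _ ≤ _ := hh_mono_param (by linarith) (by linarith [ht.2]) (by linarith [ht.1]) _ _
    have hwin : h ≤ (n1:ℝ) ^ (-(3/4 : ℝ) - ε) / C := by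
      have i1 : h = y ^ (-b) / C := by
        rw [Real.rpow_neg hypos.le, hyb]
        field_simp
      rw [i1]
      apply div_le_div_of_nonneg_right _ hCpos.le
      have : -(3/4 : ℝ) - ε = -b := by rw [hb]; ring
      rw [this]
      exact Real.rpow_le_rpow_of_nonpos hn1pos hn1y (by linarith)
    have hlb : ∀ t ∈ Set.Icc (1/2) q,
        (n1:ℝ) ^ ((3/4 : ℝ) + 2 * ε) * ((n:ℝ) + 1) ^ 2 ≤ WD t n := by
      intro t ht
      refine hmain n1 hn11 (by linarith) n hnlo hn2 t ?_ (hWs t ht)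
      rw [abs_of_nonneg (by linarith [ht.1])]
      refine le_trans ?_ hwin
      linarith [ht.2]
    have hint := WD_int (by norm_num) hq1.le hq0 n hlb
    have hnn : 0 < ((n:ℝ) + 1) ^ 2 := by positivity
    have hle1 : (n1:ℝ) ^ ((3/4 : ℝ) + 2 * ε) * h ≤ 1 := by
      have : ((n1:ℝ) ^ ((3/4 : ℝ) + 2 * ε) * h) * ((n:ℝ) + 1) ^ 2 ≤ 1 * ((n:ℝ) + 1) ^ 2 := by
        rw [one_mul]
        calc _ = (n1:ℝ) ^ ((3/4 : ℝ) + 2 * ε) * ((n:ℝ) + 1) ^ 2 * (q - 1/2) := by rw [hhd]; ring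
          _ ≤ _ := hint
      exact le_of_mul_le_mul_right this hnn
    -- `h` is not too small
    have hhlow : (n1:ℝ) ^ (-b) / (2 * C) ≤ h := by
      have i1 : h = y ^ (-b) / C := by
        rw [Real.rpow_neg hypos.le, hyb]
        field_simp
      rw [i1]
      have i2 : (2 * (n1:ℝ)) ^ (-b) ≤ y ^ (-b) :=
        Real.rpow_le_rpow_of_nonpos hypos (by linarith) (by linarith)
      rw [Real.mul_rpow (by norm_num) hn1pos.le] at i2
      have i3 : (1/2 : ℝ) ≤ 2 ^ (-b) := by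
        calc (1/2 : ℝ) = (2:ℝ) ^ (-(1:ℝ)) := by rw [Real.rpow_neg_one]; norm_num
          _ ≤ _ := Real.rpow_le_rpow_of_exponent_le (by norm_num) (by linarith)
      have i4 : 0 < (n1:ℝ) ^ (-b) := by positivity
      calc (n1:ℝ) ^ (-b) / (2 * C) = (1/2 * (n1:ℝ) ^ (-b)) / C := by field_simp
        _ ≤ (2 ^ (-b) * (n1:ℝ) ^ (-b)) / C := by
            apply div_le_div_of_nonneg_right _ hCpos.le
            exact mul_le_mul_of_nonneg_right i3 i4.le
        _ ≤ _ := div_le_div_of_nonneg_right i2 hCpos.le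
    have i5 : (n1:ℝ) ^ ((3/4 : ℝ) + 2 * ε) * ((n1:ℝ) ^ (-b) / (2 * C)) ≤ 1 :=
      le_trans (mul_le_mul_of_nonneg_left hhlow (by positivity)) hle1
    have i6 : (n1:ℝ) ^ ((3/4 : ℝ) + 2 * ε) * ((n1:ℝ) ^ (-b) / (2 * C)) = (n1:ℝ) ^ ε / (2 * C) := by
      rw [← mul_div_assoc, ← Real.rpow_add hn1pos]
      congr 2
      rw [hb]; ring
    rw [i6, div_le_one (by positivity)] at i5
    linarith

end H974
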