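import Pool.Agent.H974R4.W2.Defs

/-! Conditional Harris inequality (task HC, helper268). -/

namespace H974

open H12S Finset

/-- Harris' inequality for two decreasing events. -/
theorem HC_decr {E : Type*} [DecidableEq E] {p : E → ℝ} (hp : Ok p) {S : Finset E}
    {A B : Finset E → Prop} (hA : IncrE S (fun F => ¬ A F)) (hB : IncrE S (fun F => ¬ B F)) :
    Pr p S A * Pr p S B ≤ Pr p S (fun F => A F ∧ B F) := by
  have h := Pr_harris hp hA hB
  rw [Pr_not, Pr_not] at h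
  have h2 : Pr p S (fun F => ¬ A F ∧ ¬ B F) = 1 - Pr p S A - Pr p S B +
      Pr p S (fun F => A F ∧ B F) := by
    unfold Pr
    rw [← Ex_const p S 1, ← Ex_sub, ← Ex_sub, ← Ex_add]
    apply Ex_congr
    intro F _
    rw [ind_and, ind_and, ind_not, ind_not]
    ring
  rw [h2] at h
  nlinarith [h]

theorem HC_gen {E : Type*} [DecidableEq E] {p : E → ℝ} (hp : Ok p) {S U : Finset E} (hU : U ⊆ S)
    {X Y Z : Finset E → Prop}
    (hXZ : ∀ A, A ⊆ U → Pr p (S \ U) (fun B => X (A ∪ B)) * Pr p (S \ U) Z ≤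
      Pr p (S \ U) (fun B => X (A ∪ B) ∧ Z B))
    (hY : ∀ F, F ⊆ S → (Y F ↔ Y (F ∩ U))) (hZU : ∀ F, F ⊆ S → (Z F ↔ Z (F \ U))) :
    Pr p S (fun F => X F ∧ Y F) * Pr p S Z ≤ Pr p S (fun F => (X F ∧ Y F) ∧ Z F) := by
  have hS : S = U ∪ (S \ U) := by rw [Finset.union_sdiff_of_subset hU]
  have hd : Disjoint U (S \ U) := Finset.disjoint_sdiff
  have hsub : ∀ A B, A ⊆ U → B ⊆ S \ U → A ∪ B ⊆ S := fun A B hA hB =>
    Finset.union_subset (hA.trans hU) (hB.trans Finset.sdiff_subset)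
  have eY : ∀ A B, A ⊆ U → B ⊆ S \ U → (Y (A ∪ B) ↔ Y A) := by
    intro A B hA hB
    rw [hY _ (hsub A B hA hB)]
    have : (A ∪ B) ∩ U = A := by
      ext x
      simp only [Finset.mem_inter, Finset.mem_union]
      constructor
      · rintro ⟨h | h, h2⟩
        · exact h
        · exact absurd h2 (Finset.mem_sdiff.mp (hB h)).2
      · intro h
        exact ⟨Or.inl h, hA h⟩
    rw [this]
  have eZ : ∀ A B, A ⊆ U → B ⊆ S \ U → (Z (A ∪ B) ↔ Z B) := by
    intro A B hA hB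
    rw [hZU _ (hsub A B hA hB)]
    have : (A ∪ B) \ U = B := by
      ext x
      simp only [Finset.mem_sdiff, Finset.mem_union]
      constructor
      · rintro ⟨h | h, h2⟩
        · exact absurd (hA h) h2
        · exact h
      · intro h
        exact ⟨Or.inr h, (Finset.mem_sdiff.mp (hB h)).2⟩
    rw [this]
  have hZ : Pr p S Z = Pr p (S \ U) Z := by
    apply Pr_local Finset.sdiff_subset
    intro F hF
    rw [hZU F hF]
    have : F ∩ (S \ U) = F \ U := by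
      ext x
      simp only [Finset.mem_inter, Finset.mem_sdiff]
      constructor
      · rintro ⟨h1, h2, h3⟩
        exact ⟨h1, h3⟩
      · rintro ⟨h1, h2⟩
        exact ⟨h1, hF h1, h2⟩
    rw [this]
  have h1 : Pr p S (fun F => X F ∧ Y F) = Ex p U (fun A => Pr p (S \ U)
      (fun B => X (A ∪ B) ∧ Y (A ∪ B))) := by
    unfold Pr
    conv_lhs => rw [hS]
    rw [Ex_union hd]
  have h2 : Pr p S (fun F => (X F ∧ Y F) ∧ Z F) = Ex p U (fun A => Pr p (S \ U)
      (fun B => (X (A ∪ B) ∧ Y (A ∪ B)) ∧ Z (A ∪ B))) := by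
    unfold Pr
    conv_lhs => rw [hS]
    rw [Ex_union hd]
  rw [h1, h2, hZ, ← Ex_mul_right]
  apply Ex_mono hp
  intro A hA
  by_cases hYA : Y A
  · have e1 : Pr p (S \ U) (fun B => X (A ∪ B) ∧ Y (A ∪ B)) =
        Pr p (S \ U) (fun B => X (A ∪ B)) := by
      apply Pr_congr
      intro B hB
      rw [eY A B hA hB]
      exact ⟨fun h => h.1, fun h => ⟨h, hYA⟩⟩
    have e2 : Pr p (S \ U) (fun B => (X (A ∪ B) ∧ Y (A ∪ B)) ∧ Z (A ∪ B)) =
        Pr p (S \ U) (fun B => X (A ∪ B) ∧ Z B) := by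
      apply Pr_congr
      intro B hB
      rw [eY A B hA hB, eZ A B hA hB]
      exact ⟨fun h => ⟨h.1.1, h.2⟩, fun h => ⟨⟨h.1, hYA⟩, h.2⟩⟩
    rw [e1, e2]
    exact hXZ A hA
  · have e1 : Pr p (S \ U) (fun B => X (A ∪ B) ∧ Y (A ∪ B)) = 0 := by
      unfold Pr
      rw [Ex_congr (g := fun _ => 0), Ex_const]
      intro B hB
      apply ind_not_of
      rintro ⟨-, h⟩
      exact hYA ((eY A B hA hB).1 h)
    rw [e1, zero_mul]
    exact Pr_nonneg hp _ _

/-- Conditional Harris inequality. -/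
theorem harris_cond {p : Edg → ℝ} (hp : Ok p) {S U : Finset Edg} (hU : U ⊆ S)
    {X Y Z : Finset Edg → Prop} (hX : IncrE S X) (hZ : IncrE S Z)
    (hY : ∀ F, F ⊆ S → (Y F ↔ Y (F ∩ U))) (hZU : ∀ F, F ⊆ S → (Z F ↔ Z (F \ U))) :
    Pr p S (fun F => X F ∧ Y F) * Pr p S Z ≤ Pr p S (fun F => (X F ∧ Y F) ∧ Z F) := by
  apply HC_gen hp hU _ hY hZU
  intro A hA
  apply Pr_harris hp
  · intro F G h1 h2 h3
    exact hX _ _ (Finset.union_subset_union_right h1)
      (Finset.union_subset (hA.trans hU) (h2.trans Finset.sdiff_subset)) h3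
  · intro F G h1 h2 h3
    exact hZ _ _ h1 (h2.trans Finset.sdiff_subset) h3

/-- The same for decreasing events. -/
theorem harris_cond' {p : Edg → ℝ} (hp : Ok p) {S U : Finset Edg} (hU : U ⊆ S)
    {X Y Z : Finset Edg → Prop} (hX : IncrE S (fun F => ¬ X F)) (hZ : IncrE S (fun F => ¬ Z F))
    (hY : ∀ F, F ⊆ S → (Y F ↔ Y (F ∩ U))) (hZU : ∀ F, F ⊆ S → (Z F ↔ Z (F \ U))) :
    Pr p S (fun F => X F ∧ Y F) * Pr p S Z ≤ Pr p S (fun F => (X F ∧ Y F) ∧ Z F) := by
  apply HC_gen hp hU _ hY hZU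
  intro A hA
  apply HC_decr hp
  · intro F G h1 h2 h3
    exact hX _ _ (Finset.union_subset_union_right h1)
      (Finset.union_subset (hA.trans hU) (h2.trans Finset.sdiff_subset)) h3
  · intro F G h1 h2 h3
    exact hZ _ _ h1 (h2.trans Finset.sdiff_subset) h3

end H974
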