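import Pool.Agent.H974R4.W2.Defs

/-! W2: statements (with `sorry`) of the tasks of table `h974w_tasks`. -/

namespace H974

open H12S Finset

/-! ### FBB (file `FB.lean`): crossing probability -/

theorem FB_hh (q : ℝ) (s t : ℕ) (hs : 1 ≤ s) : FB q s t = hh q (2 * s) (2 * t) := sorry

theorem FB_nonneg {q : ℝ} (h0 : 0 ≤ q) (h1 : q ≤ 1) (s t : ℕ) : 0 ≤ FB q s t := sorry

theorem FB_le_one {q : ℝ} (h0 : 0 ≤ q) (h1 : q ≤ 1) (s t : ℕ) : FB q s t ≤ 1 := sorry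

theorem FB_win {q κ : ℝ} {N : ℕ} (hW : H12S.Win q κ N) {n s t : ℕ} (hn : 1 ≤ n) (hnN : n ≤ N)
    (hs : n ≤ s) (hs2 : s ≤ 2 * n) (ht : n ≤ t) (ht2 : t ≤ 2 * n) :
    κ ≤ FB q s t ∧ FB q s t ≤ 1 - κ := sorry

theorem FB_deriv (q : ℝ) (s t : ℕ) : HasDerivAt (fun q => FB q s t) (DB q s t) q := sorry

theorem DB_nonneg {q : ℝ} (h0 : 0 ≤ q) (h1 : q ≤ 1) (s t : ℕ) : 0 ≤ DB q s t := sorry

/-! ### BL (file `Line.lean`): block OSSS for the exploration from a vertical line -/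

theorem bosss_line {q : ℝ} (h0 : 0 ≤ q) (h1 : q ≤ 1) {s t M g : ℕ} (hg : 1 ≤ g)
    (hs : s + 1 ≤ M) (ht : t + 1 ≤ M) {k : ℤ} (hk : -(s:ℤ) ≤ k ∧ k ≤ s) :
    2 * (FB q s t * (1 - FB q s t)) ≤ ∑ i ∈ idx M,
      PQ q (RX s t) (fun F => TL g i k (↑F : Set Edg)) * PB q s t (gp g i) (2 * g - 1) := sorry

/-! ### RV (file `Rev.lean`): average revealment -/

theorem rev_avg (κ : ℝ) (hκ : 0 < κ) : ∃ C c : ℝ, 0 < C ∧ 0 < c ∧ ∀ (q : ℝ) (N : ℕ),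
    H12S.Win q κ N → ∀ n s g : ℕ, 1 ≤ g → g ≤ n → n ≤ N → n ≤ s → ∀ (S : Finset Edg) (i : ℤ × ℤ),
      ∑ k ∈ Icc (-(s:ℤ)) s, PQ q S (fun F => TL g i k (↑F : Set Edg)) ≤
        C * ((g:ℝ) / n) ^ c * (2 * s + 1) := sorry

/-! ### SL (file `Low.lean`): lower bound for the sum of the block influences
(uses FB_win, bosss_line, rev_avg) -/

theorem SB_low (κ : ℝ) (hκ : 0 < κ) : ∃ c0 α : ℝ, 0 < c0 ∧ 0 < α ∧ ∀ (q : ℝ) (N : ℕ),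
    H12S.Win q κ N → ∀ n s t M g : ℕ, 1 ≤ g → g ≤ n → n ≤ N → n ≤ s → s ≤ 2 * n → n ≤ t → t ≤ 2 * n →
      2 * n + 1 ≤ M → c0 * ((n:ℝ) / g) ^ α ≤ SB q s t M g := sorry

/-! ### BR (file `Bdry.lean`): blocks near the boundary -/

/-- Conditional Harris inequality. -/
theorem harris_cond {p : Edg → ℝ} (hp : Ok p) {S U : Finset Edg} (hU : U ⊆ S)
    {X Y Z : Finset Edg → Prop} (hX : IncrE S X) (hZ : IncrE S Z)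
    (hY : ∀ F, F ⊆ S → (Y F ↔ Y (F ∩ U))) (hZU : ∀ F, F ⊆ S → (Z F ↔ Z (F \ U))) :
    Pr p S (fun F => X F ∧ Y F) * Pr p S Z ≤ Pr p S (fun F => (X F ∧ Y F) ∧ Z F) := sorry

/-- The same for decreasing events. -/
theorem harris_cond' {p : Edg → ℝ} (hp : Ok p) {S U : Finset Edg} (hU : U ⊆ S)
    {X Y Z : Finset Edg → Prop} (hX : IncrE S (fun F => ¬ X F)) (hZ : IncrE S (fun F => ¬ Z F))
    (hY : ∀ F, F ⊆ S → (Y F ↔ Y (F ∩ U))) (hZU : ∀ F, F ⊆ S → (Z F ↔ Z (F \ U))) :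
    Pr p S (fun F => X F ∧ Y F) * Pr p S Z ≤ Pr p S (fun F => (X F ∧ Y F) ∧ Z F) := sorry

/-- Blocks near the top or bottom side. -/
theorem PB_top {q κ : ℝ} {N : ℕ} (hW : H12S.Win q κ N) {s t g : ℕ} (hg : 1 ≤ g) (hgN : 4 * g ≤ N)
    (ht : 16 * g + 1 ≤ t) {p : ℤ × ℤ} (h1 : |p.1| + 8 * g ≤ s) (h2 : (t:ℤ) - 8 * g < |p.2|)
    (h3 : |p.2| ≤ t + 2 * g) :
    κ ^ 4 * PB q s t p (2 * g - 1) ≤ FB q s (t + 16 * g) - FB q s (t - 16 * g) := sorry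

/-- Blocks near the left or right side. -/
theorem PB_side {q κ : ℝ} {N : ℕ} (hW : H12S.Win q κ N) {s t g : ℕ} (hg : 1 ≤ g) (hgN : 4 * g ≤ N)
    (hs : 16 * g + 1 ≤ s) {p : ℤ × ℤ} (h1 : |p.2| + 8 * g ≤ t) (h2 : (s:ℤ) - 8 * g < |p.1|)
    (h3 : |p.1| ≤ s + 2 * g) :
    κ ^ 4 * PB q s t p (2 * g - 1) ≤ FB q (s - 16 * g) t - FB q (s + 16 * g) t := sorry

/-- Blocks outside of the rectangle. -/
theorem PB_out {q : ℝ} {s t g : ℕ} (hg : 1 ≤ g) {p : ℤ × ℤ}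
    (h : (s:ℤ) + 2 * g < |p.1| ∨ (t:ℤ) + 2 * g < |p.2|) : PB q s t p (2 * g - 1) = 0 := sorry

/-! ### BS (file `BdrySum.lean`): sum over the rectangles (uses PB_top, PB_side, PB_out) -/

open Classical in
theorem SB_bdry (κ : ℝ) (hκ : 0 < κ) : ∃ C : ℝ, 0 < C ∧ ∀ (q : ℝ) (N : ℕ), H12S.Win q κ N →
    ∀ n M g : ℕ, 1 ≤ g → 100 * g ≤ n → n ≤ N →
      ∑ s ∈ Icc n (2 * n), ∑ t ∈ Icc n (2 * n),
        ∑ i ∈ (idx M).filter (fun i => ¬ IntB s t g i), PB q s t (gp g i) (2 * g - 1) ≤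
        C * ((n:ℝ) + 1) ^ 2 := sorry

/-! ### SM (file `Sums.lean`): comparison of sums over two scales -/

theorem PB_nonneg {q : ℝ} (h0 : 0 ≤ q) (h1 : q ≤ 1) (s t : ℕ) (p : ℤ × ℤ) (ρ : ℕ) :
    0 ≤ PB q s t p ρ := sorry

theorem PB_mono {q : ℝ} (h0 : 0 ≤ q) (h1 : q ≤ 1) (s t : ℕ) {p p' : ℤ × ℤ} {ρ ρ' : ℕ}
    (ha : |p.1 - p'.1| + ρ ≤ ρ') (hb : |p.2 - p'.2| + ρ ≤ ρ') : PB q s t p ρ ≤ PB q s t p' ρ' :=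
  sorry

theorem SB_six {q : ℝ} (h0 : 0 ≤ q) (h1 : q ≤ 1) (s t M : ℕ) {g : ℕ} (hg : 1 ≤ g) :
    SB q s t M g ≤ 36 * SB q s t M (6 * g) := sorry

open Classical in
theorem SB_plus {q : ℝ} (h0 : 0 ≤ q) (h1 : q ≤ 1) (s t M : ℕ) {g : ℕ} (hg : 1 ≤ g) :
    ∑ i ∈ (idx M).filter (fun i => IntB s t g i),
      PQ q (RX s t) (fun F => BPv (LX s t) (JX s t) (blk (gp g i) (3 * (2 * g))) (↑F : Set Edg)) ≤
      36 * SB q s t M (6 * g) := sorry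

open Classical in
theorem DB_ge {q : ℝ} (h0 : 0 ≤ q) (h1 : q ≤ 1) (s t M : ℕ) {g : ℕ} (hg : 1 ≤ g) :
    ∑ i ∈ (idx M).filter (fun i => IntB s t g i), ∑ e ∈ blk (gp g i) (2 * g),
      PQ q (RX s t) (fun F => Pv (LX s t) (JX s t) e (↑F : Set Edg)) ≤ 25 * DB q s t := sorry

/-- For interior blocks. -/
theorem PB_int {q : ℝ} {s t g : ℕ} {i : ℤ × ℤ} (h : IntB s t g i) {ρ : ℕ} (hρ : ρ ≤ 8 * g) :
    PB q s t (gp g i) ρ =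
      PQ q (RX s t) (fun F => BPv (LX s t) (JX s t) (blk (gp g i) ρ) (↑F : Set Edg)) := sorry

theorem SB_le {q : ℝ} (h0 : 0 ≤ q) (h1 : q ≤ 1) (s t M g : ℕ) :
    SB q s t M g ≤ (2 * M + 1) ^ 2 := sorry

/-! ### DP (file `Dpig.lean`): double pigeonhole -/

theorem dpig {J w : ℕ} (hJ : 1 ≤ J) (hw : 1 ≤ w) {a S : ℕ → ℝ} {Λ K1 K2 : ℝ} (hΛ : 0 < Λ)
    (ha : ∀ j, 0 < a j) (hanti : ∀ j, a (j + 1) ≤ a j) (hS : ∀ j, j ≤ J → 0 < S j)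
    (hS6 : ∀ j, j < J → S j ≤ 36 * S (j + 1)) (h1 : a 0 ≤ Real.exp Λ * a (J + w))
    (h2 : S J ≤ Real.exp Λ * S 0) (hK1 : Real.exp (4 * w * Λ / J) ≤ K1)
    (hK2 : 36 ^ 4 * Real.exp (4 * Λ / J) ≤ K2) :
    ∃ j, j < J ∧ a j ≤ K1 * a (j + w) ∧ S (j + 1) ≤ K2 * S j := sorry

/-! ### KS (file `KeyS.lean`): KEY at a given regular scale -/

/-- The statement of `H12S.exit_prob3`. -/
def Exit3 : Prop := ∀ κ : ℝ, 0 < κ → ∃ C c : ℝ, 0 < C ∧ 0 < c ∧ ∀ (L : ℕ) (δ : ℝ), 2 ≤ L →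
    0 < δ → ∃ M1 M20 : ℕ, 64 ≤ M1 ∧ 8 * M1 ≤ M20 ∧ ∀ M2 : ℕ, M20 ≤ M2 → ∃ N : ℕ,
      ∀ (q : ℝ) (n : ℕ), H12S.Win q κ n → ∀ m : ℕ,
      M2 ≤ m → 4 * L * m ≤ n → ∀ e ∈ boxE (m / 4),
      PQ q (SR L m) (fun F => A4 (-(2 * L * m : ℕ)) (2 * L * m : ℕ) (-m) m e ↑F) ≤
        (∑ p ∈ (((univ : Finset Bool) ×ˢ Icc (-(N:ℤ)) N) ×ˢ
              ((univ : Finset Bool) ×ˢ Icc (-(N:ℤ)) N)).filter (fun p =>
              |2 * ((m / M2 : ℕ) : ℤ) * p.1.2| ≤ (L * m : ℕ) + ((m / M2 : ℕ) : ℤ) ∧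
              |2 * ((m / M2 : ℕ) : ℤ) * p.2.2| ≤ (L * m : ℕ) + ((m / M2 : ℕ) : ℤ)),
          PQ q (SR L m) (fun F =>
          Sev L m (m / M2) (m / M1) p.1.1 (2 * (m / M2 : ℕ) * p.1.2) p.2.1
            (2 * (m / M2 : ℕ) * p.2.2) e ↑F)) +
        (δ + C * Real.exp (-c * L)) * a4 q (m / 8)

theorem key_scale (hE : Exit3) (κ : ℝ) (hκ : 0 < κ) (p : ℝ) (hp : 0 < p) (M20 : ℕ) :
    ∃ (L M1 M2 : ℕ) (C1 : ℝ), 2 ≤ L ∧ 64 ≤ M1 ∧ 8 * M1 ≤ M2 ∧ M20 ≤ M2 ∧ 0 < C1 ∧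
      ∀ (q : ℝ) (n : ℕ), H12S.Win q κ n → ∀ r m : ℕ, 1 ≤ r → m = M2 * r → 4 * L * m ≤ n →
        a4 q (m / 8) ≤ (192 * (L:ℝ)) ^ p * a4 q (4 * L * m) →
        ∃ (σ : Bool) (k1 : ℤ) (σ' : Bool) (k2 : ℤ), |2 * k1| ≤ L * M2 + 1 ∧
          |2 * k2| ≤ L * M2 + 1 ∧
          (m:ℝ) ^ 2 * a4 q (4 * L * m) ≤ C1 * TS q L m r (m / M1) σ k1 σ' k2 := sorry

end H974
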