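import Pool.Agent.H974R4.W2.HarrisC

/-! Blocks near the top or bottom side, blocks outside of the rectangle (task PT, helper268). -/

namespace H974

open H12S Finset

theorem PT_Cn {I J I' J' : Set Vtx} (hI : I ⊆ I') (hJ : J ⊆ J') {F G : Set Edg} (h : F ⊆ G)
    (hF : Cn I J F) : Cn I' J' G := by
  obtain ⟨u, hu, v, hv, huv⟩ := hF
  exact ⟨u, hI hu, v, hJ hv, huv.mono h⟩

theorem PT_marg (q : ℝ) {s t : ℕ} {S : Finset Edg} (hS : RX s t ⊆ S) (p : ℤ × ℤ) (ρ : ℕ) :
    PB q s t p ρ = PQ q S (fun F => BPv (LX s t) (JX s t) (blk p ρ ∩ RX s t)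
      (↑(F ∩ RX s t) : Set Edg)) := by
  unfold PB PQ
  rw [Pr_local (S := S) (S' := RX s t) hS (A := fun F => BPv (LX s t) (JX s t)
    (blk p ρ ∩ RX s t) (↑(F ∩ RX s t) : Set Edg))]
  · apply Pr_congr
    intro F hF
    rw [Finset.inter_eq_left.mpr hF]
  · intro F hF
    rw [Finset.inter_assoc, Finset.inter_self]

theorem PT_FB (q : ℝ) {s t : ℕ} {S : Finset Edg} (hS : RX s t ⊆ S) :
    FB q s t = PQ q S (fun F => Cn (LX s t) (JX s t) (↑(F ∩ RX s t) : Set Edg)) := by
  unfold FB PQ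
  rw [Pr_local (S := S) (S' := RX s t) hS (A := fun F => Cn (LX s t) (JX s t)
    (↑(F ∩ RX s t) : Set Edg))]
  · apply Pr_congr
    intro F hF
    rw [Finset.inter_eq_left.mpr hF]
  · intro F hF
    rw [Finset.inter_assoc, Finset.inter_self]

theorem PT_diff {p : Edg → ℝ} {S : Finset Edg} {A B : Finset Edg → Prop}
    (h : ∀ F, F ⊆ S → B F → A F) :
    Pr p S (fun F => A F ∧ ¬ B F) = Pr p S A - Pr p S B := by
  unfold Pr
  rw [← Ex_sub]
  apply Ex_congr
  intro F hF
  rw [ind_and, ind_not]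
  by_cases hB : B F
  · rw [ind_of hB, ind_of (h F hF hB)]; ring
  · rw [ind_not_of hB]; ring

theorem PT_blk {p : ℤ × ℤ} {ρ ρ' : ℕ} (h : ρ ≤ ρ') : blk p ρ ⊆ blk p ρ' := by
  unfold blk
  apply RE_subset <;> omega

/-- Blocks near the top or bottom side. -/
theorem PB_top {q κ : ℝ} {N : ℕ} (hW : H12S.Win q κ N) {s t g : ℕ} (hg : 1 ≤ g) (hgN : 4 * g ≤ N)
    (ht : 16 * g + 1 ≤ t) {p : ℤ × ℤ} (h1 : |p.1| + 8 * g ≤ s) (h2 : (t:ℤ) - 8 * g < |p.2|)
    (h3 : |p.2| ≤ t + 2 * g) :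
    κ ^ 4 * PB q s t p (2 * g - 1) ≤ FB q s (t + 16 * g) - FB q s (t - 16 * g) := by
  classical
  obtain ⟨h1a, h1b⟩ := abs_le.1 (show |p.1| ≤ (s:ℤ) - 8 * g by linarith)
  have hp2 : ((t:ℤ) - 8 * g < p.2 ∧ p.2 ≤ t + 2 * g) ∨ (p.2 < -((t:ℤ) - 8 * g) ∧
      -((t:ℤ) + 2 * g) ≤ p.2) := by
    rcases abs_cases p.2 with ⟨h, h'⟩ | ⟨h, h'⟩
    · rw [h] at h2 h3
      left; exact ⟨h2, h3⟩
    · rw [h] at h2 h3
      right; constructor <;> linarith
  set S := RX s (t + 16 * g) with hS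
  set U := RX s (t - 16 * g) with hU
  have hWS : RX s t ⊆ S := by
    rw [hS]; unfold RX
    apply RE_subset <;> omega
  have hUW : U ⊆ RX s t := by
    rw [hU]; unfold RX
    apply RE_subset <;> omega
  have hUS : U ⊆ S := hUW.trans hWS
  have hbS : blk p (3 * (2 * g)) ⊆ S := by
    rw [hS]; unfold RX blk
    apply RE_subset <;> push_cast <;> omega
  have hdis : ∀ e ∈ blk p (3 * (2 * g)), e ∉ U := by
    rintro ⟨x, y, _ | _⟩ h h'
    · simp only [hU, blk, RX, mem_RE_false] at h h'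
      push_cast at h
      omega
    · simp only [hU, blk, RX, mem_RE_true] at h h'
      push_cast at h
      omega
  have hb1 : blk p (2 * g - 1) ⊆ blk p (2 * g) := PT_blk (by omega)
  have hb2 : blk p (2 * g) ⊆ blk p (3 * (2 * g)) := PT_blk (by omega)
  have ok := hW.ok
  -- the three events
  set X : Finset Edg → Prop := fun F => Cn (LX s t) (JX s t)
    ((↑(F ∩ RX s t) : Set Edg) ∪ ↑(blk p (2 * g))) with hX
  set Y : Finset Edg → Prop := fun F => ¬ Cn (LX s (t - 16 * g)) (JX s (t - 16 * g))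
    (↑(F ∩ U) : Set Edg) with hY
  set Z : Finset Edg → Prop := BSU p (2 * g) with hZ
  have e1 : PB q s t p (2 * g - 1) ≤ PQ q S (fun F => X F ∧ Y F) := by
    rw [PT_marg q hWS]
    apply Pr_mono ok
    rintro F hF ⟨k1, k2⟩
    refine ⟨?_, ?_⟩
    · refine PT_Cn (Set.Subset.refl _) (Set.Subset.refl _) ?_ k1
      apply Set.union_subset_union_right
      intro e he
      exact hb1 (Finset.mem_inter.1 (Finset.mem_coe.1 he)).1
    · intro k3
      apply k2
      refine PT_Cn ?_ ?_ ?_ k3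
      · rintro v ⟨hv1, hv2, hv3⟩
        exact ⟨hv1, by omega, by omega⟩
      · rintro v ⟨hv1, hv2, hv3⟩
        exact ⟨hv1, by omega, by omega⟩
      · intro e he
        rw [Finset.mem_coe, Finset.mem_inter] at he
        refine ⟨Finset.mem_coe.2 (Finset.mem_inter.2 ⟨he.1, hUW he.2⟩), ?_⟩
        intro he'
        exact hdis e (hb2 (hb1 (Finset.mem_inter.1 (Finset.mem_coe.1 he')).1)) he.2
  have e2 : κ ^ 4 ≤ PQ q S Z := by
    refine (win_circ hW (m := 2 * g) (by omega) (by omega) p.1 p.2 S ?_).1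
    unfold blk at hbS
    push_cast at hbS ⊢
    exact hbS
  have e3 : PQ q S (fun F => X F ∧ Y F) * PQ q S Z ≤ PQ q S (fun F => (X F ∧ Y F) ∧ Z F) := by
    apply harris_cond ok hUS
    · intro F G hFG _ hF
      refine PT_Cn (Set.Subset.refl _) (Set.Subset.refl _) ?_ hF
      apply Set.union_subset_union_left
      exact_mod_cast Finset.inter_subset_inter_right hFG
    · intro F G hFG _ hF
      exact BSU_mono hFG hF
    · intro F _
      rw [hY]
      simp only
      rw [Finset.inter_assoc, Finset.inter_self]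
    · intro F _
      rw [hZ, BSU_local, BSU_local p (2 * g) (F \ U)]
      have : F ∩ blk p (3 * (2 * g)) = (F \ U) ∩ blk p (3 * (2 * g)) := by
        ext e
        simp only [Finset.mem_inter, Finset.mem_sdiff]
        constructor
        · rintro ⟨k1, k2⟩
          exact ⟨⟨k1, hdis e k2⟩, k2⟩
        · rintro ⟨⟨k1, -⟩, k2⟩
          exact ⟨k1, k2⟩
      rw [this]
  have e4 : PQ q S (fun F => (X F ∧ Y F) ∧ Z F) ≤
      FB q s (t + 16 * g) - FB q s (t - 16 * g) := by
    rw [PT_FB q hUS]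
    have hA : FB q s (t + 16 * g) = PQ q S (fun F => Cn (LX s (t + 16 * g)) (JX s (t + 16 * g))
      (↑F : Set Edg)) := rfl
    rw [hA]
    unfold PQ
    rw [← PT_diff (A := fun F => Cn (LX s (t + 16 * g)) (JX s (t + 16 * g)) (↑F : Set Edg))
      (B := fun F => Cn (LX s (t - 16 * g)) (JX s (t - 16 * g)) (↑(F ∩ U) : Set Edg))]
    · apply Pr_mono ok
      rintro F hF ⟨⟨k1, k2⟩, k3⟩
      refine ⟨?_, k2⟩
      apply BS_cnU (c := p) (m := 2 * g) (by omega) _ k3
      · refine PT_Cn ?_ ?_ ?_ k1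
        · rintro v ⟨hv1, hv2, hv3⟩
          exact ⟨hv1, by omega, by omega⟩
        · rintro v ⟨hv1, hv2, hv3⟩
          exact ⟨hv1, by omega, by omega⟩
        · apply Set.union_subset_union_left
          exact_mod_cast Finset.inter_subset_left
      · rintro v (⟨hv1, -⟩ | ⟨hv1, -⟩)
        · unfold BSfar
          push_cast
          omega
        · unfold BSfar
          push_cast
          omega
    · intro F hF k
      refine PT_Cn ?_ ?_ ?_ k
      · rintro v ⟨hv1, hv2, hv3⟩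
        exact ⟨hv1, by omega, by omega⟩
      · rintro v ⟨hv1, hv2, hv3⟩
        exact ⟨hv1, by omega, by omega⟩
      · exact_mod_cast Finset.inter_subset_left
  have hn : 0 ≤ PQ q S (fun F => X F ∧ Y F) := Pr_nonneg ok _ _
  calc κ ^ 4 * PB q s t p (2 * g - 1) ≤ κ ^ 4 * PQ q S (fun F => X F ∧ Y F) :=
        mul_le_mul_of_nonneg_left e1 (by have := hW.kpos; positivity)
    _ ≤ PQ q S Z * PQ q S (fun F => X F ∧ Y F) := mul_le_mul_of_nonneg_right e2 hn
    _ = PQ q S (fun F => X F ∧ Y F) * PQ q S Z := mul_comm _ _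
    _ ≤ _ := e3
    _ ≤ _ := e4

/-- Blocks outside of the rectangle. -/
theorem PB_out {q : ℝ} {s t g : ℕ} (hg : 1 ≤ g) {p : ℤ × ℤ}
    (h : (s:ℤ) + 2 * g < |p.1| ∨ (t:ℤ) + 2 * g < |p.2|) : PB q s t p (2 * g - 1) = 0 := by
  classical
  have h' : (p.1 < -((s:ℤ) + 2 * g) ∨ (s:ℤ) + 2 * g < p.1) ∨
      (p.2 < -((t:ℤ) + 2 * g) ∨ (t:ℤ) + 2 * g < p.2) := by
    rcases h with h | h
    · left
      rcases lt_abs.1 h with h | h
      · right; exact h
      · left; linarith
    · right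
      rcases lt_abs.1 h with h | h
      · right; exact h
      · left; linarith
  have hemp : blk p (2 * g - 1) ∩ RX s t = ∅ := by
    rw [Finset.eq_empty_iff_forall_notMem]
    rintro ⟨x, y, _ | _⟩ he
    · simp only [Finset.mem_inter, blk, RX, mem_RE_false] at he
      omega
    · simp only [Finset.mem_inter, blk, RX, mem_RE_true] at he
      omega
  unfold PB PQ Pr
  rw [Ex_congr (g := fun _ => 0), Ex_const]
  intro F _
  apply ind_not_of
  rintro ⟨k1, k2⟩
  rw [hemp] at k1 k2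
  apply k2
  simpa using k1

end H974
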